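import Mathlib

set_option autoImplicit false

namespace Pool.Agent.Work.MP_baf0bc_nt

/-- Factor complexity: the number of distinct blocks of `n` consecutive letters of the infinite
word `a 0, a 1, a 2, ...`. -/
noncomputable def cpx {α : Type*} (a : ℕ → α) (n : ℕ) : ℕ :=
  (Set.range fun i : ℕ => fun j : Fin n => a (i + j.val)).ncard

end Pool.Agent.Work.MP_baf0bc_nt
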