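import Pool.Agent.Lib.Subspace.Germ

/-! The monomials `q ^ ⌊α n⌋ / p ^ ⌊β n⌋` in the ultrapower.

Hints. `unit_k0`: `q ^ a / p ^ b = u / d` with `u = q ^ a.toNat * p ^ (-b).toNat`,
`d = q ^ (-a).toNat * p ^ b.toNat`, both at most `(p q) ^ (|a| + |b|) ≤ exp (2 ε n log (p q))`.
`germ_eq_E`, `E_mul`: `κ` is the germ of `q ^ (a - ⌊α n⌋) / p ^ (b - ⌊β n⌋)`
(`zpow_sub₀`, `zpow_add₀`); `|⌊α n⌋ - α n| ≤ 1`. Sizes: `arch` of `q ^ a / p ^ b` is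
`exp (a log q - b log p)`, `pad ℓ` of it is given by `pad_natCast` and `map_zpow₀`; the error
of the floor is bounded, use `ev_const_le`. `sum_sz`: `log q = ∑ ℓ, q.factorization ℓ * log ℓ`
(`Nat.factorization_prod_pow_eq_self` or `Real.log_nat_eq_sum_factorization`). -/

set_option autoImplicit false

open Filter Topology

namespace Pool.Agent.Work.MP_baf0bc_nt

open Pool.Agent.Lib.Subspace

/-- The germ of `q ^ ⌊α n⌋ / p ^ ⌊β n⌋`. -/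
noncomputable def E (U : Ultrafilter ℕ) (p q : ℕ) (γ : ℝ × ℝ) : FF U :=
  ((fun n : ℕ => (q : ℚ) ^ ⌊γ.1 * n⌋ / (p : ℚ) ^ ⌊γ.2 * n⌋ : ℕ → ℚ) : FF U)

/-- Real size of `E γ`. -/
noncomputable def asz (p q : ℕ) (γ : ℝ × ℝ) : ℝ := γ.1 * Real.log q - γ.2 * Real.log p

/-- `ℓ`-adic size of `E γ`. -/
noncomputable def esz (p q : ℕ) (ℓ : Nat.Primes) (γ : ℝ × ℝ) : ℝ :=
  (γ.2 * p.factorization ℓ.1 - γ.1 * q.factorization ℓ.1) * Real.log ℓ.1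

/-- The primes dividing `p q`. -/
def PP (p q : ℕ) : Finset Nat.Primes := (p * q).primeFactors.subtype Nat.Prime

variable {U : Ultrafilter ℕ} {p q : ℕ}

lemma emon_ev (hU : (U : Filter ℕ) ≤ atTop) (K : ℝ) {ε : ℝ} (hε : 0 < ε) :
    ∀ᶠ n : ℕ in (U : Filter ℕ), K ≤ ε * n := by
  refine hU ((tendsto_natCast_atTop_atTop.eventually_ge_atTop (K / ε)).mono fun n hn => ?_)
  rw [div_le_iff₀ hε] at hn
  linarith

lemma emon_log (hq : 0 < q) : 0 ≤ Real.log q := Real.log_nonneg (by exact_mod_cast hq)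

lemma emon_ht1 (hq : 0 < q) (a : ℤ) {t : ℝ} (ha : |(a : ℝ)| ≤ t) :
    Ht ((q : ℚ) ^ a) (Real.exp (t * Real.log q)) := by
  have hq0 : (0 : ℝ) < q := by exact_mod_cast hq
  have key : ∀ k : ℕ, (k : ℝ) ≤ t → Ht ((q : ℚ) ^ k) (Real.exp (t * Real.log q)) := by
    intro k hk
    have h := ht_int ((q : ℤ) ^ k) (t := Real.exp (t * Real.log q))
      (Real.one_le_exp (mul_nonneg ((abs_nonneg _).trans ha) (emon_log hq))) (by
        push_cast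
        rw [abs_of_pos (pow_pos hq0 k), ← Real.exp_log (pow_pos hq0 k), Real.log_pow]
        exact Real.exp_le_exp.2 (mul_le_mul_of_nonneg_right hk (emon_log hq)))
    simpa using h
  obtain ⟨k, rfl | rfl⟩ := Int.eq_nat_or_neg a
  · rw [zpow_natCast]
    exact key k (by simpa using ha)
  · rw [zpow_neg, zpow_natCast]
    exact (key k (by simpa using ha)).inv

lemma emon_ht (hp : 0 < p) (hq : 0 < q) (a b : ℤ) {t : ℝ} (ha : |(a : ℝ)| ≤ t)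
    (hb : |(b : ℝ)| ≤ t) :
    Ht ((q : ℚ) ^ a / (p : ℚ) ^ b) (Real.exp (t * (Real.log q + Real.log p))) := by
  rw [div_eq_mul_inv, mul_add, Real.exp_add]
  exact (emon_ht1 hq a ha).mul (emon_ht1 hp b hb).inv

lemma emon_ne (hp : 0 < p) (hq : 0 < q) (a b : ℕ → ℤ) :
    ((fun n : ℕ => (q : ℚ) ^ a n / (p : ℚ) ^ b n : ℕ → ℚ) : FF U) ≠ 0 := by
  intro h
  have h1 : (fun n : ℕ => (q : ℚ) ^ a n / (p : ℚ) ^ b n) =ᶠ[(U : Filter ℕ)] fun _ => 0 :=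
    Germ.coe_eq.mp h
  obtain ⟨n, hn⟩ := h1.exists
  have : (0 : ℚ) < (q : ℚ) ^ a n / (p : ℚ) ^ b n := by positivity
  exact this.ne' hn

lemma emon_floor (x : ℝ) : |((⌊x⌋ : ℤ) : ℝ) - x| ≤ 1 := by
  have h1 := Int.floor_le x
  have h2 := Int.lt_floor_add_one x
  rw [abs_le]
  constructor <;> linarith

lemma emon_close (hU : (U : Filter ℕ) ≤ atTop) (a : ℕ → ℕ) {α : ℝ}
    (ha : Tendsto (fun n : ℕ => (a n : ℝ) / n) (U : Filter ℕ) (𝓝 α)) {ε : ℝ} (hε : 0 < ε) :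
    ∀ᶠ n : ℕ in (U : Filter ℕ), |(((a n : ℤ) - ⌊α * n⌋ : ℤ) : ℝ)| ≤ ε * n := by
  filter_upwards [(Metric.tendsto_nhds.1 ha) (ε / 2) (by linarith),
    emon_ev hU 1 (ε := ε / 2) (by linarith)] with n h1 h2
  have n0 : (0 : ℝ) < n := by
    rcases Nat.eq_zero_or_pos n with rfl | h
    · norm_num at h2
    · exact_mod_cast h
  rw [Real.dist_eq, abs_lt] at h1
  have h3 := abs_le.1 (emon_floor (α * n))
  have h4 : (a n : ℝ) = (a n : ℝ) / n * n := by field_simp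
  have h5 := mul_lt_mul_of_pos_right h1.1 n0
  have h6 := mul_lt_mul_of_pos_right h1.2 n0
  push_cast
  rw [abs_le]
  constructor <;> nlinarith

lemma emon_add (hU : (U : Filter ℕ) ≤ atTop) (α β : ℝ) {ε : ℝ} (hε : 0 < ε) :
    ∀ᶠ n : ℕ in (U : Filter ℕ),
      |((⌊α * n⌋ + ⌊β * n⌋ - ⌊(α + β) * n⌋ : ℤ) : ℝ)| ≤ ε * n := by
  filter_upwards [emon_ev hU 3 hε] with n h
  have h1 := abs_le.1 (emon_floor (α * n))
  have h2 := abs_le.1 (emon_floor (β * n))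
  have h3 := abs_le.1 (emon_floor ((α + β) * n))
  push_cast
  rw [abs_le]
  constructor <;> linarith

lemma emon_vLe (hU : (U : Filter ℕ) ≤ atTop) (v : AbsoluteValue ℚ ℝ) {x y : ℝ}
    (hx : v (q : ℚ) = Real.exp x) (hy : v (p : ℚ) = Real.exp y) (γ : ℝ × ℝ) :
    VLe v (γ.1 * x - γ.2 * y) (E U p q γ) := by
  refine ⟨_, rfl, fun ε hε => ?_⟩
  filter_upwards [emon_ev hU (|x| + |y|) hε] with n h
  rw [map_div₀, map_zpow₀, map_zpow₀, hx, hy, ← Real.rpow_intCast, ← Real.rpow_intCast,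
    ← Real.exp_mul, ← Real.exp_mul, ← Real.exp_sub]
  refine Real.exp_le_exp.2 ?_
  have h1 : ∀ s t : ℝ, |s * (((⌊t⌋ : ℤ) : ℝ) - t)| ≤ |s| := fun s t => by
    rw [abs_mul]
    exact mul_le_of_le_one_right (abs_nonneg _) (emon_floor t)
  have h2 := (abs_le.1 (h1 x (γ.1 * n))).2
  have h3 := (abs_le.1 (h1 y (γ.2 * n))).1
  linarith

lemma emon_sum (hp : 0 < p) (hq : 0 < q) {m : ℕ} (hm : m ∣ p * q) :
    ∑ ℓ ∈ PP p q, (m.factorization ℓ.1 : ℝ) * Real.log ℓ.1 = Real.log m := by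
  have h1 : ∑ ℓ ∈ PP p q, (m.factorization ℓ.1 : ℝ) * Real.log ℓ.1 =
      ∑ ℓ ∈ (p * q).primeFactors, (m.factorization ℓ : ℝ) * Real.log ℓ :=
    Finset.sum_subtype_of_mem (fun ℓ : ℕ => (m.factorization ℓ : ℝ) * Real.log ℓ)
      fun ℓ hℓ => Nat.prime_of_mem_primeFactors hℓ
  rw [h1, Real.log_nat_eq_sum_factorization m]
  symm
  refine Finsupp.sum_of_support_subset _ ?_ (fun (ℓ t : ℕ) => (t : ℝ) * Real.log ℓ) (by simp)
  rw [Nat.support_factorization]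
  exact Nat.primeFactors_mono hm (Nat.mul_pos hp hq).ne'

lemma unit_k0 (hU : (U : Filter ℕ) ≤ atTop) (hp : 0 < p) (hq : 0 < q) (a b : ℕ → ℤ)
    (h : ∀ ε : ℝ, 0 < ε → ∀ᶠ n : ℕ in (U : Filter ℕ), |(a n : ℝ)| ≤ ε * n ∧ |(b n : ℝ)| ≤ ε * n) :
    ((fun n : ℕ => (q : ℚ) ^ a n / (p : ℚ) ^ b n : ℕ → ℚ) : FF U) ∈ k0 hU := by
  have hL : 0 ≤ Real.log q + Real.log p := add_nonneg (emon_log hq) (emon_log hp)
  refine ⟨_, rfl, fun ε hε => ?_⟩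
  filter_upwards [h (ε / (Real.log q + Real.log p + 1)) (by positivity)] with n hn
  refine (emon_ht hp hq _ _ hn.1 hn.2).mono (Real.exp_le_exp.2 ?_)
  have h1 : ε / (Real.log q + Real.log p + 1) * (Real.log q + Real.log p) ≤ ε := by
    rw [div_mul_eq_mul_div, div_le_iff₀ (by positivity)]
    nlinarith
  have h2 := mul_le_mul_of_nonneg_right h1 (Nat.cast_nonneg n : (0 : ℝ) ≤ n)
  linarith

lemma germ_eq_E (hU : (U : Filter ℕ) ≤ atTop) (hp : 0 < p) (hq : 0 < q) (a b : ℕ → ℕ)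
    (γ : ℝ × ℝ) (ha : Tendsto (fun n : ℕ => (a n : ℝ) / n) (U : Filter ℕ) (𝓝 γ.1))
    (hb : Tendsto (fun n : ℕ => (b n : ℝ) / n) (U : Filter ℕ) (𝓝 γ.2)) :
    ∃ κ : k0 hU, κ ≠ 0 ∧
      ((fun n : ℕ => (q : ℚ) ^ a n / (p : ℚ) ^ b n : ℕ → ℚ) : FF U) = (κ : FF U) * E U p q γ := by
  have hq0 : (q : ℚ) ≠ 0 := by positivity
  have hp0 : (p : ℚ) ≠ 0 := by positivity
  refine ⟨⟨_, unit_k0 hU hp hq (fun n => (a n : ℤ) - ⌊γ.1 * n⌋) (fun n => (b n : ℤ) - ⌊γ.2 * n⌋)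
    fun ε hε => (emon_close hU a ha hε).and (emon_close hU b hb hε)⟩, ?_, ?_⟩
  · exact fun h => emon_ne hp hq _ _ (congrArg Subtype.val h)
  · unfold E
    rw [← Germ.coe_mul]
    congr 1
    ext n
    simp only [Pi.mul_apply, zpow_sub₀ hq0, zpow_sub₀ hp0, zpow_natCast]
    field_simp

lemma E_ne_zero (hp : 0 < p) (hq : 0 < q) (γ : ℝ × ℝ) : E U p q γ ≠ 0 := by
  exact emon_ne hp hq _ _

lemma E_zero : E U p q 0 = 1 := by
  unfold E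
  rw [← Germ.coe_one]
  congr 1
  ext n
  simp

lemma E_mul (hU : (U : Filter ℕ) ≤ atTop) (hp : 0 < p) (hq : 0 < q) (γ γ' : ℝ × ℝ) :
    ∃ κ : k0 hU, κ ≠ 0 ∧ E U p q γ * E U p q γ' = (κ : FF U) * E U p q (γ + γ') := by
  have hq0 : (q : ℚ) ≠ 0 := by positivity
  have hp0 : (p : ℚ) ≠ 0 := by positivity
  refine ⟨⟨_, unit_k0 hU hp hq (fun n => ⌊γ.1 * n⌋ + ⌊γ'.1 * n⌋ - ⌊(γ.1 + γ'.1) * n⌋)
    (fun n => ⌊γ.2 * n⌋ + ⌊γ'.2 * n⌋ - ⌊(γ.2 + γ'.2) * n⌋)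
    fun ε hε => (emon_add hU _ _ hε).and (emon_add hU _ _ hε)⟩, ?_, ?_⟩
  · exact fun h => emon_ne hp hq _ _ (congrArg Subtype.val h)
  · unfold E
    rw [← Germ.coe_mul, ← Germ.coe_mul]
    congr 1
    ext n
    simp only [Pi.mul_apply, zpow_sub₀ hq0, zpow_sub₀ hp0, zpow_add₀ hq0, zpow_add₀ hp0,
      Prod.fst_add, Prod.snd_add]
    field_simp

lemma vLe_E_arch (hU : (U : Filter ℕ) ≤ atTop) (hp : 0 < p) (hq : 0 < q) (γ : ℝ × ℝ) :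
    VLe arch (asz p q γ) (E U p q γ) := by
  have key : ∀ m : ℕ, 0 < m → arch (m : ℚ) = Real.exp (Real.log m) := fun m hm => by
    rw [Real.exp_log (by exact_mod_cast hm), arch_apply]
    simp
  exact emon_vLe hU arch (key q hq) (key p hp) γ

lemma vLe_E_pad (hU : (U : Filter ℕ) ≤ atTop) (hp : 0 < p) (hq : 0 < q) (ℓ : Nat.Primes)
    (γ : ℝ × ℝ) : VLe (pad ℓ) (esz p q ℓ γ) (E U p q γ) := by
  refine (emon_vLe hU (pad ℓ) (pad_natCast ℓ q hq.ne') (pad_natCast ℓ p hp.ne') γ).mono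
    (le_of_eq ?_)
  unfold esz
  ring

lemma htLe_E (hU : (U : Filter ℕ) ≤ atTop) (hp : 0 < p) (hq : 0 < q) (γ : ℝ × ℝ) :
    ∃ c, HtLe c (E U p q γ) := by
  have hL : 0 ≤ Real.log q + Real.log p := add_nonneg (emon_log hq) (emon_log hp)
  refine ⟨(|γ.1| + |γ.2| + 1) * (Real.log q + Real.log p), _, rfl, fun ε hε => ?_⟩
  filter_upwards [emon_ev hU 1 one_pos] with n hn
  have n0 : (0 : ℝ) ≤ n := Nat.cast_nonneg n
  have key : ∀ x : ℝ, |x| ≤ |γ.1| + |γ.2| →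
      |((⌊x * n⌋ : ℤ) : ℝ)| ≤ (|γ.1| + |γ.2| + 1) * n := by
    intro x hx
    have h1 := abs_le.1 (emon_floor (x * n))
    have h2 := mul_le_mul_of_nonneg_right (abs_le.1 hx).1 n0
    have h3 := mul_le_mul_of_nonneg_right (abs_le.1 hx).2 n0
    rw [abs_le]
    constructor <;> linarith
  refine (emon_ht hp hq _ _ (key γ.1 (by linarith [abs_nonneg γ.2]))
    (key γ.2 (by linarith [abs_nonneg γ.1]))).mono (Real.exp_le_exp.2 ?_)
  have := mul_nonneg hε.le n0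
  linarith

lemma isInt_E_mul (hU : (U : Filter ℕ) ≤ atTop) (hp : 0 < p) (hq : 0 < q) (γ γ' : ℝ × ℝ)
    (h1 : 1 ≤ γ.1 + γ'.1) (h2 : γ.2 + γ'.2 ≤ 0) : IsInt (E U p q γ * E U p q γ') := by
  have hq0 : (q : ℚ) ≠ 0 := by positivity
  have hp0 : (p : ℚ) ≠ 0 := by positivity
  unfold E
  rw [← Germ.coe_mul]
  refine isInt_of_eventually ?_
  filter_upwards [emon_ev hU 2 one_pos] with n hn
  have n0 : (0 : ℝ) ≤ n := Nat.cast_nonneg n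
  have hA : 0 ≤ ⌊γ.1 * n⌋ + ⌊γ'.1 * n⌋ := by
    have h3 := (abs_le.1 (emon_floor (γ.1 * n))).1
    have h4 := (abs_le.1 (emon_floor (γ'.1 * n))).1
    have h5 := mul_le_mul_of_nonneg_right h1 n0
    have : (0 : ℝ) ≤ ((⌊γ.1 * n⌋ + ⌊γ'.1 * n⌋ : ℤ) : ℝ) := by
      push_cast
      linarith
    exact_mod_cast this
  have hB : 0 ≤ -(⌊γ.2 * n⌋ + ⌊γ'.2 * n⌋) := by
    have h3 := Int.floor_le (γ.2 * n)
    have h4 := Int.floor_le (γ'.2 * n)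
    have h5 := mul_le_mul_of_nonneg_right h2 n0
    have : (0 : ℝ) ≤ ((-(⌊γ.2 * n⌋ + ⌊γ'.2 * n⌋) : ℤ) : ℝ) := by
      push_cast
      linarith
    exact_mod_cast this
  obtain ⟨A, hA'⟩ := Int.eq_ofNat_of_zero_le hA
  obtain ⟨B, hB'⟩ := Int.eq_ofNat_of_zero_le hB
  refine ⟨(q : ℤ) ^ A * (p : ℤ) ^ B, ?_⟩
  push_cast
  rw [← zpow_natCast, ← zpow_natCast, ← hA', ← hB']
  simp only [Pi.mul_apply, zpow_neg, zpow_add₀ hq0, zpow_add₀ hp0]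
  field_simp

lemma mem_PP (hp : 0 < p) (hq : 0 < q) (ℓ : Nat.Primes) : ℓ ∈ PP p q ↔ ℓ.1 ∣ p * q := by
  refine (Finset.mem_subtype (p := Nat.Prime) (s := (p * q).primeFactors) (a := ℓ)).trans ?_
  rw [Nat.mem_primeFactors]
  exact ⟨fun h => h.2.1, fun h => ⟨ℓ.2, h, (Nat.mul_pos hp hq).ne'⟩⟩

lemma sum_sz (hp : 0 < p) (hq : 0 < q) (γ : ℝ × ℝ) :
    asz p q γ + ∑ ℓ ∈ PP p q, esz p q ℓ γ = 0 := by
  have h : ∀ ℓ : Nat.Primes, esz p q ℓ γ = γ.2 * ((p.factorization ℓ.1 : ℝ) * Real.log ℓ.1) -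
      γ.1 * ((q.factorization ℓ.1 : ℝ) * Real.log ℓ.1) := fun ℓ => by
    unfold esz
    ring
  simp only [h, Finset.sum_sub_distrib, ← Finset.mul_sum, emon_sum hp hq (dvd_mul_right p q),
    emon_sum hp hq (dvd_mul_left q p), asz]
  ring

end Pool.Agent.Work.MP_baf0bc_nt
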