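import Pool.Agent.Lib.Subspace.CoreG
import Pool.Agent.Work.MP_baf0bc_nt.EMon

/-! The Subspace Theorem for integers times S-unit monomials, and independence of the monomials.

`coreE`: choose `γ*` with `1 ≤ (γ j).1 + γ*.1` and `(γ j).2 + γ*.2 ≤ 0` for all `j`; apply
`coreG` with `P = PP p q` to `x j = y j * E (γ j) * E γ*` (integral by `isInt_E_mul`;
independent over `k0` together with the unscaled family since `E γ* ≠ 0`), matrices `A` at `ℓ0`
and `1` elsewhere, `c0 j = C' + asz (γ j) + asz γ*`,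
`c ℓ j = esz ℓ (γ j) + esz ℓ γ* - (if ℓ = ℓ0 then g j else 0)`; the total is
`card J * C' - ∑ g` by `sum_sz`.

`E_indep`: otherwise take a finset `T` of minimal cardinality carrying a relation
`∑ γ ∈ T, c γ • E γ = 0` with some, hence (minimality) all, `c γ ≠ 0`; `T` has two elements
`γ1 ≠ γ2` (`E_ne_zero`). After swapping them either `γ1.1 < γ2.1` (take a prime `ℓ0 ∣ q`; then
`p.factorization ℓ0 = 0`) or `γ1.1 = γ2.1`, `γ2.2 < γ1.2` (take `ℓ0 ∣ p`); in both cases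
`esz ℓ0 γ2 < esz ℓ0 γ1`. Apply `coreE` on `J = T.erase γ2` (independent by minimality) with
`y = 1`, `C' = 0`, the matrix `updateRow 1 γ1 c` (determinant `c γ1`), `g = 0` except
`g γ1 = esz ℓ0 γ1 - esz ℓ0 γ2`; the row `γ1` gives `- c γ2 * E γ2`. -/

set_option autoImplicit false

open Filter Topology

namespace Pool.Agent.Work.MP_baf0bc_nt

open Pool.Agent.Lib.Subspace

variable {U : Ultrafilter ℕ} {p q : ℕ}

lemma coree_row_one {hU : (U : Filter ℕ) ≤ atTop} {J : Type*} [Fintype J] [DecidableEq J]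
    (j : J) (x : J → FF U) : ∑ k, (((1 : Matrix J J (k0 hU)) j k : k0 hU) : FF U) * x k = x j := by
  rw [Finset.sum_eq_single j]
  · simp
  · intro k _ hk
    simp [Matrix.one_apply_ne (Ne.symm hk)]
  · intro h
    exact absurd (Finset.mem_univ j) h

lemma coree_sep (hp : 2 ≤ p) (hq : 2 ≤ q) (hpq : p.Coprime q) {γ1 γ2 : ℝ × ℝ} (h : γ1 ≠ γ2) :
    ∃ ℓ0 : Nat.Primes, ℓ0.1 ∣ p * q ∧ esz p q ℓ0 γ1 ≠ esz p q ℓ0 γ2 := by
  have hlog : ∀ ℓ : Nat.Primes, Real.log ℓ.1 ≠ 0 := fun ℓ =>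
    (Real.log_pos (by exact_mod_cast ℓ.2.one_lt)).ne'
  by_cases h1 : γ1.1 = γ2.1
  · have h2 : γ1.2 ≠ γ2.2 := fun h2 => h (Prod.ext h1 h2)
    obtain ⟨ℓ, hℓ, hd⟩ := Nat.exists_prime_and_dvd (n := p) (by omega)
    refine ⟨⟨ℓ, hℓ⟩, hd.mul_right q, fun he => h2 ?_⟩
    have hf : (p.factorization ℓ : ℝ) ≠ 0 := by
      exact_mod_cast (hℓ.factorization_pos_of_dvd (by omega) hd).ne'
    simp only [esz] at he
    have he' := mul_right_cancel₀ (hlog ⟨ℓ, hℓ⟩) he
    rw [h1] at he'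
    exact mul_right_cancel₀ hf (by linarith)
  · obtain ⟨ℓ, hℓ, hd⟩ := Nat.exists_prime_and_dvd (n := q) (by omega)
    refine ⟨⟨ℓ, hℓ⟩, hd.mul_left p, fun he => h1 ?_⟩
    have hf : (q.factorization ℓ : ℝ) ≠ 0 := by
      exact_mod_cast (hℓ.factorization_pos_of_dvd (by omega) hd).ne'
    have hnd : ¬ ℓ ∣ p := fun hd' =>
      hℓ.one_lt.ne' (Nat.eq_one_of_dvd_coprimes hpq hd' hd)
    have h0 : p.factorization ℓ = 0 := Nat.factorization_eq_zero_of_not_dvd hnd
    simp only [esz] at he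
    have he' := mul_right_cancel₀ (hlog ⟨ℓ, hℓ⟩) he
    rw [h0] at he'
    exact mul_right_cancel₀ hf (by simpa using he')

theorem coreE (hU : (U : Filter ℕ) ≤ atTop) (hp : 0 < p) (hq : 0 < q) {J : Type*} [Fintype J]
    [DecidableEq J] (y : J → FF U) (hy : ∀ j, IsInt (y j)) (C' : ℝ)
    (hyC : ∀ j, VLe arch C' (y j)) (γ : J → ℝ × ℝ) (ℓ0 : Nat.Primes) (hℓ : ℓ0.1 ∣ p * q)
    (A : Matrix J J (k0 hU)) (hA : A.det ≠ 0) (g : J → ℝ)
    (hg : ∀ j, VLe (pad ℓ0) (esz p q ℓ0 (γ j) - g j)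
      (∑ k, (A j k : FF U) * (y k * E U p q (γ k))))
    (hsum : (Fintype.card J : ℝ) * C' < ∑ j, g j) :
    ¬ LinearIndependent (k0 hU) (fun j => y j * E U p q (γ j)) := by
  classical
  intro hli
  obtain ⟨γs, h1, h2⟩ : ∃ γs : ℝ × ℝ, (∀ j, 1 ≤ (γ j).1 + γs.1) ∧ ∀ j, (γ j).2 + γs.2 ≤ 0 := by
    refine ⟨(1 + ∑ j, |(γ j).1|, -∑ j, |(γ j).2|), fun j => ?_, fun j => ?_⟩
    · have e1 : |(γ j).1| ≤ ∑ j, |(γ j).1| :=
        Finset.single_le_sum (f := fun j => |(γ j).1|) (fun i _ => abs_nonneg _)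
          (Finset.mem_univ j)
      have e2 := neg_abs_le (γ j).1
      simp only
      linarith
    · have e1 : |(γ j).2| ≤ ∑ j, |(γ j).2| :=
        Finset.single_le_sum (f := fun j => |(γ j).2|) (fun i _ => abs_nonneg _)
          (Finset.mem_univ j)
      have e2 := le_abs_self (γ j).2
      simp only
      linarith
  have hEs : E U p q γs ≠ 0 := E_ne_zero hp hq γs
  have hmem : ℓ0 ∈ PP p q := (mem_PP hp hq ℓ0).mpr hℓ
  refine coreG hU (PP p q) (fun j => y j * E U p q (γ j) * E U p q γs) ?_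
    (fun ℓ => if ℓ = ℓ0 then A else 1) ?_ (fun j => C' + asz p q (γ j) + asz p q γs)
    (fun ℓ j => esz p q ℓ (γ j) + esz p q ℓ γs - if ℓ = ℓ0 then g j else 0) ?_ ?_ ?_ ?_
  · intro j
    rw [mul_assoc]
    exact (hy j).mul (isInt_E_mul hU hp hq _ _ (h1 j) (h2 j))
  · intro ℓ _
    by_cases h : ℓ = ℓ0
    · simpa [h] using hA
    · simp [h]
  · intro j
    exact ((hyC j).mul (vLe_E_arch hU hp hq _)).mul (vLe_E_arch hU hp hq _)
  · intro ℓ _ j
    by_cases h : ℓ = ℓ0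
    · subst h
      simp only [if_true]
      have e : ∑ k, (A j k : FF U) * (y k * E U p q (γ k) * E U p q γs) =
          (∑ k, (A j k : FF U) * (y k * E U p q (γ k))) * E U p q γs := by
        rw [Finset.sum_mul]
        exact Finset.sum_congr rfl fun k _ => by ring
      rw [e]
      refine ((hg j).mul (vLe_E_pad hU hp hq ℓ γs)).mono (le_of_eq ?_)
      ring
    · simp only [if_neg h]
      rw [coree_row_one]
      refine ((((hy j).vLe_pad ℓ).mul (vLe_E_pad hU hp hq ℓ (γ j))).mul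
        (vLe_E_pad hU hp hq ℓ γs)).mono (le_of_eq ?_)
      ring
  · rw [Finset.sum_comm, ← Finset.sum_add_distrib]
    have e : ∀ j, C' + asz p q (γ j) + asz p q γs +
        ∑ ℓ ∈ PP p q, (esz p q ℓ (γ j) + esz p q ℓ γs - if ℓ = ℓ0 then g j else 0) =
        C' - g j := by
      intro j
      rw [Finset.sum_sub_distrib, Finset.sum_add_distrib, Finset.sum_ite_eq', if_pos hmem]
      have s1 := sum_sz hp hq (γ j)
      have s2 := sum_sz hp hq γs
      linarith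
    rw [Finset.sum_congr rfl fun j _ => e j, Finset.sum_sub_distrib, Finset.sum_const,
      Finset.card_univ, nsmul_eq_mul]
    linarith
  · have hk : LinearMap.ker (LinearMap.mulRight (k0 hU) (E U p q γs)) = ⊥ := by
      rw [LinearMap.ker_eq_bot]
      exact mul_left_injective₀ hEs
    exact hli.map' _ hk

lemma coree_step (hU : (U : Filter ℕ) ≤ atTop) (hp : 0 < p) (hq : 0 < q) [DecidableEq (ℝ × ℝ)]
    (T : Finset (ℝ × ℝ)) (c : ℝ × ℝ → k0 hU) (hc : ∑ γ ∈ T, c γ • E U p q γ = 0)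
    {γ1 γ2 : ℝ × ℝ} (h1 : γ1 ∈ T) (h2 : γ2 ∈ T) (hc1 : c γ1 ≠ 0) (ℓ0 : Nat.Primes)
    (hℓ : ℓ0.1 ∣ p * q) (hlt : esz p q ℓ0 γ2 < esz p q ℓ0 γ1) :
    ¬ LinearIndependent (k0 hU) (fun j : ↥(T.erase γ2) => E U p q j.1) := by
  have hne : γ1 ≠ γ2 := fun h => by rw [h] at hlt; exact lt_irrefl _ hlt
  obtain ⟨j1, hj1⟩ : ∃ j1 : ↥(T.erase γ2), j1.1 = γ1 := ⟨⟨γ1, Finset.mem_erase.mpr ⟨hne, h1⟩⟩, rfl⟩
  have key := coreE hU hp hq (J := ↥(T.erase γ2)) (fun _ => 1) (fun _ => isInt_one) 0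
    (fun _ => vLe_one arch) (fun j => j.1) ℓ0 hℓ
    ((1 : Matrix _ _ (k0 hU)).updateRow j1 fun k => c k.1) ?_
    (fun j => if j = j1 then esz p q ℓ0 γ1 - esz p q ℓ0 γ2 else 0) ?_ ?_
  · simpa using key
  · rw [← Matrix.cramer_transpose_apply, Matrix.transpose_one, Matrix.cramer_one]
    simpa [hj1] using hc1
  · intro j
    by_cases hj : j = j1
    · subst hj
      simp only [Matrix.updateRow_self, if_true, one_mul]
      have e : ∑ k : ↥(T.erase γ2), (c k.1 : FF U) * E U p q k.1 =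
          -((c γ2 : FF U) * E U p q γ2) := by
        rw [Finset.sum_coe_sort (T.erase γ2) (fun k => (c k : FF U) * E U p q k)]
        rw [← Finset.add_sum_erase T _ h2] at hc
        exact eq_neg_of_add_eq_zero_right hc
      rw [e, hj1]
      refine ((vLe_E_pad hU hp hq ℓ0 γ2).k0_mul (good_pad ℓ0) (c γ2)).neg.mono (le_of_eq ?_)
      ring
    · simp only [Matrix.updateRow_ne hj, if_neg hj, sub_zero]
      rw [coree_row_one j (fun k => 1 * E U p q k.1), one_mul]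
      exact vLe_E_pad hU hp hq ℓ0 _
  · rw [Finset.sum_ite_eq', if_pos (Finset.mem_univ _)]
    linarith

theorem E_indep (hU : (U : Filter ℕ) ≤ atTop) (hp : 2 ≤ p) (hq : 2 ≤ q) (hpq : p.Coprime q) :
    LinearIndependent (k0 hU) (E U p q) := by
  classical
  have hp0 : 0 < p := by omega
  have hq0 : 0 < q := by omega
  rw [linearIndependent_iff']
  intro T
  induction T using Finset.strongInduction with
  | H T ih =>
  intro c hc γ0 h0
  by_contra hc0
  have hall : ∀ γ ∈ T, c γ ≠ 0 := by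
    intro γ hγ hz
    have hne : γ0 ≠ γ := fun h => hc0 (h ▸ hz)
    refine hc0 (ih (T.erase γ) (Finset.erase_ssubset hγ) c ?_ γ0 (Finset.mem_erase.mpr ⟨hne, h0⟩))
    rw [← Finset.add_sum_erase T _ hγ, hz, zero_smul, zero_add] at hc
    exact hc
  have hind : ∀ γ ∈ T, LinearIndependent (k0 hU) (fun j : ↥(T.erase γ) => E U p q j.1) := by
    intro γ hγ
    rw [Fintype.linearIndependent_iff]
    intro d hd j
    have h := ih (T.erase γ) (Finset.erase_ssubset hγ)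
      (fun x => if hx : x ∈ T.erase γ then d ⟨x, hx⟩ else 0) ?_ j.1 j.2
    · simpa only [dif_pos j.2] using h
    · rw [← Finset.sum_coe_sort (T.erase γ), ← hd]
      exact Finset.sum_congr rfl fun k _ => by rw [dif_pos k.2]
  obtain ⟨γ', h', hne⟩ : ∃ γ' ∈ T, γ0 ≠ γ' := by
    by_contra hn
    push Not at hn
    rw [Finset.sum_eq_single γ0 (fun b hb hb' => absurd (hn b hb).symm hb')
      (fun h => absurd h0 h)] at hc
    rcases smul_eq_zero.mp hc with h | h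
    · exact hc0 h
    · exact E_ne_zero hp0 hq0 γ0 h
  obtain ⟨ℓ0, hℓ, hs⟩ := coree_sep hp hq hpq hne
  rcases lt_or_gt_of_ne hs with h | h
  · exact coree_step hU hp0 hq0 T c hc h' h0 (hall _ h') ℓ0 hℓ h (hind _ h0)
  · exact coree_step hU hp0 hq0 T c hc h0 h' hc0 ℓ0 hℓ h (hind _ h')

end Pool.Agent.Work.MP_baf0bc_nt
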