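import Pool.Agent.Work.MP_baf0bc_nt.FormalA

/-! The case where the relation does not hold formally contradicts the Subspace Theorem.

Plan. `G T i = ∑ t ∈ range (T+1), ρ t i`. Since supports of `ρ t i` have first coordinate at
least `(γ t).1` (`0 ≤ g.1` on `Γ`), `G T i g = G T0 i g` for `T0 ≤ T`, `g.1 < (γ (T0+1)).1`.
Let `β0` be the minimum for the lexicographic order (`toLex`, `Prod.Lex`) of the nonempty finset
`{g ∈ (G T0 i0).support | g.1 < (γ (T0+1)).1}`; for all `T ≥ T0` it lies in the support of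
`G T i0` and is `≤` every element of it. `β0 ∈ Γ`. Let `c0 = q.factorization ℓ0 * log ℓ0 > 0`,
so `esz ℓ0 g = - c0 * g.1` (`p.factorization ℓ0 = 0`). Choose `D0 ≥ β0.1` with
`c0 (D0 - β0.1) > 2 card I * C'`, `D` from `hdbl`, `T ≥ T0` with `D ≤ (γ (T+1)).1`.
`B`, `B'` = the sublevel finsets `D`, `D - D0`; index type `I × B`. For `b ∈ B'` the row
`(i0, b + β0)` of `A` is `(i, g) ↦ G T i (g - b) * κ b (g - b)` where
`E b * E h = κ b h * E (b + h)`; all other rows are those of the identity. `det A ≠ 0`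
(`Matrix.exists_mulVec_eq_zero_iff`): if `A v = 0`, then `v` vanishes off the replaced indices;
take the lexicographically largest `b ∈ B'` with `v (i0, b + β0) ≠ 0` and look at its row.
The row gives `E b * ∑ i, y i * ∑ h ∈ supp (G T i), (b+h).1 ≤ D, G T i h * E h`
`= E b * (Q m X - ∑ i, y i * ∑ h with D < (b+h).1 ..)` (supports lie in `Γ`), of `ℓ0`-size
at most `- c0 D`. So `g (i0, b+β0) = c0 (D - b.1 - β0.1) ≥ c0 (D0 - β0.1)`, other `g = 0`, and
`coreE` contradicts the independence of the subfamily (`LinearIndependent.comp`). -/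

set_option autoImplicit false

open Filter Topology

namespace Pool.Agent.Work.MP_baf0bc_nt

open Pool.Agent.Lib.Subspace

variable {U : Ultrafilter ℕ} {p q : ℕ}

lemma formalc_det {k : Type*} [Field k] {J : Type*} [Fintype J] [DecidableEq J] {L : Type*}
    [LinearOrder L] (A : Matrix J J k) (R : J → Prop) (w : J → L)
    (h1 : ∀ x, ¬ R x → ∀ z, A x z = if x = z then 1 else 0) (h2 : ∀ x, R x → A x x ≠ 0)
    (h3 : ∀ x z, R x → R z → A x z ≠ 0 → w z ≤ w x → z = x) : A.det ≠ 0 := by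
  classical
  intro h
  obtain ⟨v, hv, h0⟩ := Matrix.exists_mulVec_eq_zero_iff.2 h
  have hR : ∀ x, v x ≠ 0 → R x := fun x hx => by
    by_contra hc
    have := congrFun h0 x
    simp only [Matrix.mulVec, dotProduct, h1 x hc, ite_mul, one_mul, zero_mul,
      Finset.sum_ite_eq, Finset.mem_univ, if_true, Pi.zero_apply] at this
    exact hx this
  obtain ⟨x, hx, hm⟩ := Finset.exists_max_image (Finset.univ.filter fun x => v x ≠ 0) w (by
    obtain ⟨x, hx⟩ := Function.ne_iff.1 hv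
    exact ⟨x, Finset.mem_filter.2 ⟨Finset.mem_univ _, hx⟩⟩)
  have hx' := (Finset.mem_filter.1 hx).2
  have := congrFun h0 x
  rw [Matrix.mulVec, dotProduct, Finset.sum_eq_single x (fun z _ hz => ?_) (by simp)] at this
  · exact mul_ne_zero (h2 x (hR x hx')) hx' this
  · by_contra hc
    have hz' := right_ne_zero_of_mul hc
    exact hz (h3 x z (hR x hx') (hR z hz') (left_ne_zero_of_mul hc)
      (hm z (Finset.mem_filter.2 ⟨Finset.mem_univ _, hz'⟩)))

lemma formalc_sum {M : Type*} [AddCommGroup M] (B S : Finset (ℝ × ℝ)) (F : ℝ × ℝ → M) (b : ℝ × ℝ)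
    (D : ℝ) (hF : ∀ h ∉ S, F h = 0) (h1 : ∀ h ∈ B, h.1 ≤ D)
    (h2 : ∀ h ∈ S, (b + h).1 ≤ D → b + h ∈ B) :
    ∑ h ∈ B, F (h - b) = ∑ h ∈ S, F h - ∑ h ∈ S.filter fun h => ¬ (b + h).1 ≤ D, F h := by
  classical
  rw [← Finset.sum_filter_add_sum_filter_not S fun h => (b + h).1 ≤ D, add_sub_cancel_right,
    ← Finset.sum_image (s := B) (g := fun h => h - b) (f := F) fun _ _ _ _ h => sub_left_inj.1 h]
  refine (Finset.sum_subset (fun h hh => ?_) fun h hh hn => hF h fun hS => hn ?_).symm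
  · obtain ⟨a1, a2⟩ := Finset.mem_filter.1 hh
    exact Finset.mem_image.2 ⟨b + h, h2 h a1 a2, add_sub_cancel_left _ _⟩
  · obtain ⟨g, hg, rfl⟩ := Finset.mem_image.1 hh
    exact Finset.mem_filter.2 ⟨hS, by simpa using h1 g hg⟩

lemma formalc_prime (hq : 2 ≤ q) (hpq : p.Coprime q) : ∃ (ℓ : Nat.Primes) (c : ℝ), 0 < c ∧
    ℓ.1 ∣ p * q ∧ ∀ g, esz p q ℓ g = -(c * g.1) := by
  obtain ⟨l, hl, hd⟩ := Nat.exists_prime_and_dvd (show q ≠ 1 by omega)
  have h1 : p.factorization l = 0 := Nat.factorization_eq_zero_of_not_dvd fun h =>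
    hl.one_lt.ne' (Nat.eq_one_of_dvd_coprimes hpq h hd)
  have h2 : 0 < q.factorization l := hl.factorization_pos_of_dvd (by omega) hd
  refine ⟨⟨l, hl⟩, q.factorization l * Real.log l, mul_pos (by exact_mod_cast h2)
    (Real.log_pos (by exact_mod_cast hl.one_lt)), hd.mul_left p, fun g => ?_⟩
  simp only [esz, h1]
  push_cast
  ring

theorem nonformal_case (hU : (U : Filter ℕ) ≤ atTop) (hp : 2 ≤ p) (hq : 2 ≤ q)
    (hpq : p.Coprime q) {I : Type} [Fintype I] (y : I → FF U) (hy : ∀ i, IsInt (y i)) (C' : ℝ)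
    (hC' : 0 ≤ C') (hyC : ∀ i, VLe arch C' (y i)) (Γ : AddSubmonoid (ℝ × ℝ))
    (hΓ0 : ∀ g ∈ Γ, 0 ≤ g.1) (hfin : ∀ D : ℝ, {g | g ∈ Γ ∧ g.1 ≤ D}.Finite)
    (hdbl : ∀ D0 : ℝ, 0 ≤ D0 → ∃ D : ℝ, D0 ≤ D ∧
      {g | g ∈ Γ ∧ g.1 ≤ D}.ncard ≤ 2 * {g | g ∈ Γ ∧ g.1 ≤ D - D0}.ncard)
    (γ : ℕ → ℝ × ℝ) (hγΓ : ∀ t, γ t ∈ Γ) (hγ1 : ∀ t, (γ t).1 ≤ (γ (t + 1)).1)
    (hγu : ∀ D : ℝ, ∃ t, D ≤ (γ t).1)
    (m : ℕ → FF U) (hm : ∀ t, ∃ κ : k0 hU, κ ≠ 0 ∧ m t = (κ : FF U) * E U p q (γ t))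
    (X : ℕ → FF U) (hX : ∀ T, IsInt (X T)) (ρQ : ℝ × ℝ →₀ k0 hU) (hρQ : ∀ g ∈ ρQ.support, g ∈ Γ)
    (ρ : ℕ → I → ℝ × ℝ →₀ k0 hU) (hρ : ∀ t i, ∀ g ∈ (ρ t i).support, g - γ t ∈ Γ)
    (hrel : ∀ T, ev hU p q ρQ * (m (T + 1) * X T) =
      ∑ i, y i * ev hU p q (∑ t ∈ Finset.range (T + 1), ρ t i))
    (hind : LinearIndependent (k0 hU) (fun x : I × Γ => y x.1 * E U p q x.2.1))
    (T0 : ℕ) (i0 : I) (g0 : ℝ × ℝ) (hg0 : g0.1 < (γ (T0 + 1)).1) :
    (∑ t ∈ Finset.range (T0 + 1), ρ t i0) g0 = 0 := by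
  classical
  by_contra h0
  have hp0 : 0 < p := by omega
  have hq0 : 0 < q := by omega
  obtain ⟨ℓ, c, hc, hℓ, he⟩ := formalc_prime hq hpq
  have hE : ∀ g, VLe (pad ℓ) (-(c * g.1)) (E U p q g) := fun g => he g ▸ vLe_E_pad hU hp0 hq0 ℓ g
  have hmono : Monotone fun t => (γ t).1 := monotone_nat_of_le_succ hγ1
  have hG : ∀ T i, ∀ g ∈ (∑ t ∈ Finset.range (T + 1), ρ t i).support, g ∈ Γ := fun T i g hg => by
    obtain ⟨t, -, ht⟩ := Finsupp.mem_support_finsetSum g hg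
    simpa using Γ.add_mem (hρ t i g ht) (hγΓ t)
  have hg00 : 0 ≤ g0.1 := hΓ0 _ (hG T0 i0 g0 (Finsupp.mem_support_iff.2 h0))
  obtain ⟨w, hw0, hw⟩ : ∃ w : ℝ, 0 ≤ w ∧ 2 * (Fintype.card I * C') < c * w :=
    ⟨2 * (Fintype.card I * C') / c + 1, by positivity, by
      rw [mul_add, mul_div_cancel₀ _ hc.ne']; linarith⟩
  obtain ⟨D, hD, hcard⟩ := hdbl (g0.1 + w) (by linarith)
  obtain ⟨t1, ht1⟩ := hγu D
  obtain ⟨T, hT, hDT⟩ : ∃ T, T0 ≤ T ∧ D ≤ (γ (T + 1)).1 :=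
    ⟨T0 + t1, Nat.le_add_right _ _, ht1.trans (hmono (by omega))⟩
  obtain ⟨G, hGe⟩ : ∃ G : I → ℝ × ℝ →₀ k0 hU, ∀ i, G i = ∑ t ∈ Finset.range (T + 1), ρ t i :=
    ⟨_, fun _ => rfl⟩
  have hG0 : g0 ∈ (G i0).support := by
    rw [Finsupp.mem_support_iff, hGe, ← Finset.sum_range_add_sum_Ico _ (Nat.succ_le_succ hT),
      Finsupp.add_apply, Finsupp.finsetSum_apply (Finset.Ico _ _),
      Finset.sum_eq_zero (s := Finset.Ico _ _) fun t ht => ?_, add_zero]
    · exact h0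
    · by_contra hn
      have h1 := hΓ0 _ (hρ t i0 g0 (Finsupp.mem_support_iff.2 hn))
      have h2 := hmono (Finset.mem_Ico.1 ht).1
      simp only [Prod.fst_sub] at h1 h2
      linarith
  replace hG : ∀ i, ∀ g ∈ (G i).support, g ∈ Γ := fun i => hGe i ▸ hG T i
  have hrel' := hrel T
  simp only [← hGe] at hrel'
  obtain ⟨β, hβ, hβm⟩ := Finset.exists_min_image (G i0).support (fun g => toLex g) ⟨g0, hG0⟩
  have hβ0 : β.1 ≤ g0.1 := by
    rcases Prod.Lex.toLex_le_toLex.1 (hβm g0 hG0) with h | h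
    exacts [h.le, h.1.le]
  rw [Set.ncard_eq_toFinset_card _ (hfin D), Set.ncard_eq_toFinset_card _ (hfin _)] at hcard
  obtain ⟨B, hBe⟩ : ∃ B, B = (hfin D).toFinset := ⟨_, rfl⟩
  obtain ⟨B', hBe'⟩ : ∃ B, B = (hfin (D - (g0.1 + w))).toFinset := ⟨_, rfl⟩
  rw [← hBe, ← hBe'] at hcard
  have hB : ∀ g, g ∈ B ↔ g ∈ Γ ∧ g.1 ≤ D := fun g => by rw [hBe, Set.Finite.mem_toFinset]; rfl
  have hB' : ∀ g, g ∈ B' ↔ g ∈ Γ ∧ g.1 ≤ D - (g0.1 + w) := fun g => by
    rw [hBe', Set.Finite.mem_toFinset]; rfl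
  choose κ hκ0 hκ using E_mul hU hp0 hq0
  let R : I × B → Prop := fun x => x.1 = i0 ∧ x.2.1 - β ∈ B'
  let A : Matrix (I × B) (I × B) (k0 hU) := fun x z =>
    if R x then G z.1 (z.2.1 - (x.2.1 - β)) * κ (x.2.1 - β) (z.2.1 - (x.2.1 - β))
    else if x = z then 1 else 0
  refine coreE hU hp0 hq0 (fun x : I × B => y x.1) (fun x => hy _) C' (fun x => hyC _)
    (fun x => x.2.1) ℓ hℓ A ?_ (fun x => if R x then c * w else 0) (fun x => ?_) ?_
    (hind.comp (fun x : I × B => (x.1, ⟨x.2.1, ((hB _).1 x.2.2).1⟩)) fun x z h => ?_)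
  · refine formalc_det A R (fun x => toLex x.2.1) (fun x hx z => if_neg hx) (fun x hx => ?_)
      fun x z hx hz h1 h2 => ?_
    · simp only [A, if_pos hx, sub_sub_cancel, hx.1]
      exact mul_ne_zero (Finsupp.mem_support_iff.1 hβ) (hκ0 _ _)
    · simp only [A, if_pos hx, hz.1] at h1
      have h3 := Prod.Lex.toLex_le_toLex.1
        (hβm _ (Finsupp.mem_support_iff.2 (left_ne_zero_of_mul h1)))
      have h4 := Prod.Lex.toLex_le_toLex.1 h2
      simp only [Prod.fst_sub, Prod.snd_sub] at h3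
      refine Prod.ext (hz.1.trans hx.1.symm) (Subtype.ext ?_)
      rcases h3 with h3 | h3 <;> rcases h4 with h4 | h4
      · linarith
      · linarith [h4.1]
      · linarith [h3.1]
      · exact Prod.ext h4.1 (by linarith [h3.2, h4.2])
  · rw [he]
    by_cases hx : R x
    · obtain ⟨b, hb⟩ : ∃ b, b = x.2.1 - β := ⟨_, rfl⟩
      obtain ⟨b1, b2⟩ := (hB' b).1 (hb ▸ hx.2)
      have e1 : ∑ z : I × B, (A x z : FF U) * (y z.1 * E U p q z.2.1) =
          E U p q b * (ev hU p q ρQ * (m (T + 1) * X T)) - ∑ i, y i *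
            ∑ h ∈ (G i).support.filter fun h => ¬ (b + h).1 ≤ D,
              (G i h : FF U) * (E U p q b * E U p q h) := by
        rw [hrel', Finset.mul_sum, ← Finset.sum_sub_distrib, Fintype.sum_prod_type]
        refine Finset.sum_congr rfl fun i _ => ?_
        have e2 := formalc_sum B (G i).support (fun h => (G i h : FF U) * (E U p q b * E U p q h))
          b D (fun h hh => by simp [Finsupp.notMem_support_iff.1 hh]) (fun h hh => ((hB h).1 hh).2)
          fun h hh h2 => (hB _).2 ⟨Γ.add_mem b1 (hG i h hh), h2⟩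
        rw [mul_left_comm, ← mul_sub, ev, Finset.mul_sum (G i).support,
          Finset.sum_congr rfl fun h _ => mul_left_comm (E U p q b) (G i h : FF U) (E U p q h),
          ← e2, ← Finset.sum_coe_sort B, Finset.mul_sum]
        refine Finset.sum_congr rfl fun h _ => ?_
        simp only [A, if_pos hx, ← hb, hκ, add_sub_cancel]
        push_cast
        ring
      rw [e1, if_pos hx]
      have hb1 : b.1 = x.2.1.1 - β.1 := by rw [hb]; rfl
      refine VLe.mono (c := -(c * D)) (VLe.sub hU ?_ (vLe_sum hU _ _ fun i _ => ?_)) (by nlinarith)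
      · obtain ⟨k, -, hk⟩ := hm (T + 1)
        have a1 : VLe (pad ℓ) 0 (ev hU p q ρQ) := vLe_sum hU _ _ fun g hg =>
          ((hE g).k0_mul (good_pad ℓ) _).mono (by nlinarith [hΓ0 g (hρQ g hg)])
        rw [hk]
        exact ((hE b).mul (a1.mul (((hE _).k0_mul (good_pad ℓ) k).mul ((hX T).vLe_pad ℓ)))).mono
          (by nlinarith [hΓ0 b b1])
      · refine (((hy i).vLe_pad ℓ).mul (vLe_sum hU (c := -(c * D)) _ _ fun h hh => ?_)).mono (by simp)
        have a1 := not_le.1 (Finset.mem_filter.1 hh).2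
        rw [Prod.fst_add] at a1
        exact (((hE b).mul (hE h)).k0_mul (good_pad ℓ) _).mono (by nlinarith)
    · simp only [A, if_neg hx]
      rw [Finset.sum_eq_single x (fun z _ hz => by simp [hz.symm]) (by simp)]
      simpa using ((hy x.1).vLe_pad ℓ).mul (hE x.2.1)
  · have a1 : B'.card ≤ (Finset.univ.filter R).card := by
      refine Finset.card_le_card_of_surjOn (fun x => x.2.1 - β) fun b hb => ?_
      obtain ⟨b1, b2⟩ := (hB' b).1 hb
      refine ⟨(i0, ⟨b + β, (hB _).2 ⟨Γ.add_mem b1 (hG i0 β hβ), ?_⟩⟩), ?_, add_sub_cancel_right _ _⟩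
      · rw [Prod.fst_add]; linarith
      · simpa [R] using hb
    have a2 : 0 < B'.card := Finset.card_pos.2 ⟨0, (hB' 0).2 ⟨Γ.zero_mem, by simpa using hD⟩⟩
    rw [← Finset.sum_filter, Finset.sum_const, nsmul_eq_mul, Fintype.card_prod, Fintype.card_coe]
    have a3 : (B.card : ℝ) ≤ 2 * B'.card := by exact_mod_cast hcard
    have a4 : (B'.card : ℝ) ≤ (Finset.univ.filter R).card := by exact_mod_cast a1
    have a5 : (0 : ℝ) < B'.card := by exact_mod_cast a2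
    have a6 : (0 : ℝ) ≤ Fintype.card I * C' := by positivity
    push_cast
    nlinarith [mul_le_mul_of_nonneg_right a3 a6, mul_lt_mul_of_pos_left hw a5,
      mul_le_mul_of_nonneg_right a4 (mul_nonneg hc.le hw0)]
  · exact Prod.ext (Prod.ext_iff.1 h).1 (Subtype.ext (congrArg (fun u : I × Γ => u.2.1) h))

end Pool.Agent.Work.MP_baf0bc_nt
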