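import Pool.Agent.Work.MP_baf0bc_nt.FormalA
import Mathlib
import Pool.Agent.Work.MP_baf0bc_nt.FormalC
import Pool.Agent.Work.MP_baf0bc_nt.Defs

-- merged part: Pool.Agent.Work.MP_baf0bc_nt.FormalB
section
/-! The case where the relation holds formally: the orbit points have bounded size.

Plan. Fix `T`, `G i = ∑ t ∈ range (T+1), ρ t i`, `m (T+1) = κ * E (γ (T+1))`. Then
`X T = Q⁻¹ * κ⁻¹ * ∑ i, ∑ g ∈ (G i).support, y i * (G i g) * (E g / E (γ (T+1)))`.
For `g` in the support: `(γ (T+1)).1 ≤ g.1` by `hform`, and `g - γ t = g' ∈ S0` for some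
`t ≤ T` (`Finsupp.support_finset_sum`/`mem_support_finset_sum`). `E_mul` for `g - γ (T+1)` and
`γ (T+1)` gives `E g / E (γ (T+1)) = κ'⁻¹ * E (g - γ (T+1))`, whose real size
`asz (g - γ (T+1))` is at most `W log q + u W log p`, because with `Δ = γ (T+1) - γ t` in the
cone (`0 ≤ Δ.2 ≤ u Δ.1`, `0 ≤ Δ.1`, induction) we have `g - γ (T+1) = g' - Δ`, `Δ.1 ≤ g'.1 ≤ W`,
`0 ≤ g'.2`. `HtLe.inv`, `HtLe.vLe good_arch`, `VLe.k0_mul`, `vLe_sum`. -/

set_option autoImplicit false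

open Filter Topology

namespace Pool.Agent.Work.MP_baf0bc_nt

open Pool.Agent.Lib.Subspace

variable {U : Ultrafilter ℕ} {p q : ℕ}

lemma formalb_cone (u : ℝ) (γ : ℕ → ℝ × ℝ) (hγ1 : ∀ t, (γ t).1 ≤ (γ (t + 1)).1)
    (hγ3 : ∀ t, (γ (t + 1)).2 - (γ t).2 ≤ u * ((γ (t + 1)).1 - (γ t).1)) {t s : ℕ} (h : t ≤ s) :
    (γ t).1 ≤ (γ s).1 ∧ (γ s).2 - (γ t).2 ≤ u * ((γ s).1 - (γ t).1) := by
  induction s, h using Nat.le_induction with
  | base => simp
  | succ s _ ih => exact ⟨ih.1.trans (hγ1 s), by linarith [ih.2, hγ3 s]⟩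

theorem formal_case (hU : (U : Filter ℕ) ≤ atTop) (hp : 2 ≤ p) (hq : 2 ≤ q)
    {I : Type} [Fintype I] (y : I → FF U) (C' : ℝ) (hyC : ∀ i, VLe arch C' (y i))
    (u : ℝ) (hu : 0 ≤ u) (γ : ℕ → ℝ × ℝ) (hγ1 : ∀ t, (γ t).1 ≤ (γ (t + 1)).1)
    (hγ2 : ∀ t, (γ t).2 ≤ (γ (t + 1)).2)
    (hγ3 : ∀ t, (γ (t + 1)).2 - (γ t).2 ≤ u * ((γ (t + 1)).1 - (γ t).1))
    (m : ℕ → FF U) (hm : ∀ t, ∃ κ : k0 hU, κ ≠ 0 ∧ m t = (κ : FF U) * E U p q (γ t))
    (X : ℕ → FF U) (Q : FF U) (hQ0 : Q ≠ 0) (cQ : ℝ) (hQ : HtLe cQ Q)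
    (S0 : Finset (ℝ × ℝ)) (W : ℝ) (hW : ∀ g ∈ S0, g.1 ≤ W ∧ 0 ≤ g.2)
    (ρ : ℕ → I → ℝ × ℝ →₀ k0 hU) (hρ : ∀ t i, ∀ g ∈ (ρ t i).support, g - γ t ∈ S0)
    (hrel : ∀ T, Q * (m (T + 1) * X T) =
      ∑ i, y i * ev hU p q (∑ t ∈ Finset.range (T + 1), ρ t i))
    (hform : ∀ T i (g : ℝ × ℝ), g.1 < (γ (T + 1)).1 → (∑ t ∈ Finset.range (T + 1), ρ t i) g = 0) :
    ∀ T, VLe arch (2 * cQ + C' + W * Real.log q + u * W * Real.log p) (X T) := by
  classical
  intro T
  have hp0 : 0 < p := by omega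
  have hq0 : 0 < q := by omega
  obtain ⟨κ, hκ, hmT⟩ := hm (T + 1)
  choose κ' hκ' hE using fun g : ℝ × ℝ => E_mul hU hp0 hq0 (g - γ (T + 1)) (γ (T + 1))
  simp only [sub_add_cancel] at hE
  obtain ⟨G, hG⟩ : ∃ G : I → ℝ × ℝ →₀ k0 hU, ∀ i, G i = ∑ t ∈ Finset.range (T + 1), ρ t i :=
    ⟨_, fun _ => rfl⟩
  obtain ⟨S, hS⟩ : ∃ S : FF U, S = ∑ i, y i * ∑ g ∈ (G i).support,
      ((G i g * (κ' g)⁻¹ : k0 hU) : FF U) * E U p q (g - γ (T + 1)) := ⟨_, rfl⟩
  have h1 : S * E U p q (γ (T + 1)) = ∑ i, y i * ev hU p q (G i) := by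
    rw [hS, Finset.sum_mul]
    refine Finset.sum_congr rfl fun i _ => ?_
    rw [mul_assoc, Finset.sum_mul, ev]
    refine congrArg _ (Finset.sum_congr rfl fun g _ => ?_)
    rw [mul_assoc, hE, ← mul_assoc, ← Subfield.coe_mul, inv_mul_cancel_right₀ (hκ' g)]
  have h2 : X T = Q⁻¹ * (((κ⁻¹ : k0 hU) : FF U) * S) := by
    have h3 := hrel T
    simp only [← hG] at h3
    rw [← h1, hmT] at h3
    have h4 : Q * ((κ : FF U) * X T) = S :=
      mul_right_cancel₀ (E_ne_zero (U := U) hp0 hq0 (γ (T + 1))) (by rw [← h3]; ring)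
    rw [← h4, mul_left_comm, inv_mul_cancel_left₀ hQ0, ← mul_assoc, ← Subfield.coe_mul,
      inv_mul_cancel₀ hκ, Subfield.coe_one, one_mul]
  have h5 : VLe arch (C' + (W * Real.log q + u * W * Real.log p)) S := by
    rw [hS]
    refine vLe_sum hU _ _ fun i _ => (hyC i).mul (vLe_sum hU _ _ fun g hg => ?_)
    refine VLe.k0_mul good_arch _ ((vLe_E_arch hU hp0 hq0 _).mono ?_)
    rw [hG] at hg
    have h6 : (γ (T + 1)).1 ≤ g.1 :=
      not_lt.1 fun h => Finsupp.mem_support_iff.1 hg (hform T i g h)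
    obtain ⟨t, ht, h7⟩ := Finsupp.mem_support_finsetSum g hg
    obtain ⟨h8, h9⟩ := hW _ (hρ t i g h7)
    obtain ⟨h10, h11⟩ := formalb_cone u γ hγ1 hγ3 (Finset.mem_range.1 ht).le
    rw [Prod.fst_sub] at h8
    rw [Prod.snd_sub] at h9
    have h12 : u * ((γ (T + 1)).1 - (γ t).1) ≤ u * W :=
      mul_le_mul_of_nonneg_left (by linarith) hu
    have h13 := mul_le_mul_of_nonneg_right (show g.1 - (γ (T + 1)).1 ≤ W by linarith)
      (Real.log_natCast_nonneg q)
    have h14 := mul_le_mul_of_nonneg_right (show (γ (T + 1)).2 - g.2 ≤ u * W by linarith)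
      (Real.log_natCast_nonneg p)
    rw [asz, Prod.fst_sub, Prod.snd_sub]
    linarith
  rw [h2]
  exact ((hQ.inv.vLe good_arch).mul (VLe.k0_mul good_arch _ h5)).mono (le_of_eq (by ring))

end Pool.Agent.Work.MP_baf0bc_nt
end

-- merged part: Pool.Agent.Work.MP_baf0bc_nt.Count
section
/-! Subexponential growth of a monoid whose generators have linearly growing weights.

Plan. `w (g t) ≥ t / lam` (natural division) by induction, so there is `ω > 0` with
`w (g t) = 0 ∨ ω ≤ w (g t)`. For `τ > 0` and a finset `T` of indices with positive weight, every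
finite `Φ ⊆ closure (g '' T)` has `∑ γ ∈ Φ, exp (-τ w γ) ≤ ∏ t ∈ T, (1 - exp (-τ w (g t)))⁻¹`
(induction on `T`: write `γ = k • g t + γ'`, inject `Φ` into a product, geometric series).
`(1 - r)⁻¹ ≤ exp (r / (1 - r))`, and `∑ t, exp (-τ (t / lam))` over any finset is at most
`lam / (1 - exp (-τ))`. So every finite `Φ` in the sublevel set `D` has at most
`K τ * exp (τ D)` elements (a finite subset of the closure lies in the closure of finitely many
generators; the generators of weight `0` are `0`). Hence finiteness; and if the doubling failed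
for all `D = j * D0`, `j ≥ 1`, the cardinalities would be at least `2 ^ j` (the level `0` contains
`0`), which is absurd for `τ D0 < log 2`. -/

set_option autoImplicit false

namespace Pool.Agent.Work.MP_baf0bc_nt

theorem count_fin {G : Type*} [AddCommMonoid G] (w : G →+ ℝ) (g : ℕ → G) {τ : ℝ} (hτ : 0 < τ)
    (T : Finset ℕ) (hT : ∀ t ∈ T, 0 < w (g t)) :
    ∀ Φ : Finset G, (∀ γ ∈ Φ, γ ∈ AddSubmonoid.closure (g '' T)) →
      ∑ γ ∈ Φ, Real.exp (-τ * w γ) ≤ ∏ t ∈ T, (1 - Real.exp (-τ * w (g t)))⁻¹ := by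
  classical
  induction T using Finset.induction_on with
  | empty =>
    intro Φ hΦ
    have : Φ ⊆ {0} := fun γ hγ => by simpa using hΦ γ hγ
    refine (Finset.sum_le_sum_of_subset_of_nonneg this fun _ _ _ => (Real.exp_pos _).le).trans ?_
    simp
  | insert t T ht ih =>
    intro Φ hΦ
    have h1 : ∀ γ ∈ Φ, ∃ (k : ℕ) (δ : G), δ ∈ AddSubmonoid.closure (g '' T) ∧
        k • g t + δ = γ := by
      intro γ hγ
      have := hΦ γ hγ
      rw [Finset.coe_insert, Set.image_insert_eq, Set.insert_eq, AddSubmonoid.closure_union,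
        AddSubmonoid.mem_sup] at this
      obtain ⟨a, ha, b, hb, e⟩ := this
      obtain ⟨k, rfl⟩ := AddSubmonoid.mem_closure_singleton.1 ha
      exact ⟨k, b, hb, e⟩
    choose! k δ hδ he using h1
    have hr0 : 0 ≤ Real.exp (-τ * w (g t)) := (Real.exp_pos _).le
    have hr1 : Real.exp (-τ * w (g t)) < 1 := by
      rw [Real.exp_lt_one_iff]
      nlinarith [hT t (Finset.mem_insert_self _ _)]
    have hsub : Φ ⊆ (Φ.image k ×ˢ Φ.image δ).image fun p => p.1 • g t + p.2 := fun γ hγ =>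
      Finset.mem_image.2 ⟨(k γ, δ γ), Finset.mem_product.2
        ⟨Finset.mem_image_of_mem _ hγ, Finset.mem_image_of_mem _ hγ⟩, he γ hγ⟩
    refine (Finset.sum_le_sum_of_subset_of_nonneg hsub fun _ _ _ => (Real.exp_pos _).le).trans ?_
    refine (Finset.sum_image_le_of_nonneg fun _ _ => (Real.exp_pos _).le).trans ?_
    have e : ∀ p : ℕ × G, Real.exp (-τ * w (p.1 • g t + p.2)) =
        Real.exp (-τ * w (g t)) ^ p.1 * Real.exp (-τ * w p.2) := by
      intro p
      rw [← Real.exp_nat_mul, ← Real.exp_add, map_add, map_nsmul, nsmul_eq_mul]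
      congr 1
      ring
    simp only [e]
    rw [Finset.sum_product' _ _ fun a b => Real.exp (-τ * w (g t)) ^ a * Real.exp (-τ * w b),
      ← Finset.sum_mul_sum, Finset.prod_insert ht]
    refine mul_le_mul ?_ (ih (fun s hs => hT s (Finset.mem_insert_of_mem hs)) _ fun γ hγ => ?_)
      (Finset.sum_nonneg fun _ _ => (Real.exp_pos _).le) (inv_nonneg.2 (by linarith))
    · rw [← tsum_geometric_of_lt_one hr0 hr1]
      exact (summable_geometric_of_lt_one hr0 hr1).sum_le_tsum _ fun _ _ => pow_nonneg hr0 _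
    · obtain ⟨γ', h, rfl⟩ := Finset.mem_image.1 hγ
      exact hδ γ' h

theorem count_min (a : ℕ → ℝ) (N : ℕ) : ∃ ω, 0 < ω ∧ ω ≤ 1 ∧ ∀ t < N, 0 < a t → ω ≤ a t := by
  induction N with
  | zero => exact ⟨1, one_pos, le_rfl, fun t ht => absurd ht (Nat.not_lt_zero t)⟩
  | succ N ih =>
    obtain ⟨ω, h0, h1, h⟩ := ih
    by_cases hN : 0 < a N
    · refine ⟨min ω (a N), lt_min h0 hN, (min_le_left _ _).trans h1, fun t ht h' => ?_⟩
      rcases Nat.lt_succ_iff_lt_or_eq.1 ht with h2 | rfl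
      · exact (min_le_left _ _).trans (h t h2 h')
      · exact min_le_right _ _
    · refine ⟨ω, h0, h1, fun t ht h' => ?_⟩
      rcases Nat.lt_succ_iff_lt_or_eq.1 ht with h2 | rfl
      · exact h t h2 h'
      · exact absurd h' hN

theorem count_prod (a : ℕ → ℝ) (lam : ℕ) (hlam : 0 < lam) (h0 : ∀ t, 0 ≤ a t)
    (hstep : ∀ t, a t + 1 ≤ a (t + lam)) {τ : ℝ} (hτ : 0 < τ) :
    ∃ K : ℝ, ∀ T : Finset ℕ, (∀ t ∈ T, 0 < a t) → ∏ t ∈ T, (1 - Real.exp (-τ * a t))⁻¹ ≤ K := by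
  have hl : (0 : ℝ) < lam := Nat.cast_pos.2 hlam
  obtain ⟨ω, hω, hω1, h⟩ := count_min a lam
  have h1 : ∀ t, 0 < a t → ω ≤ a t := by
    intro t ht
    by_cases h2 : t < lam
    · exact h t h2 ht
    · obtain ⟨s, rfl⟩ := Nat.exists_eq_add_of_le' (not_lt.1 h2)
      linarith [hstep s, h0 s]
  have h2 : ∀ t : ℕ, (t : ℝ) / lam - 1 ≤ a t := by
    intro t
    induction t using Nat.strong_induction_on with
    | _ t ih =>
      by_cases h2 : t < lam
      · have : (t : ℝ) / lam ≤ 1 := (div_le_one hl).2 (Nat.cast_le.2 h2.le)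
        linarith [h0 t]
      · obtain ⟨s, rfl⟩ := Nat.exists_eq_add_of_le' (not_lt.1 h2)
        have := ih s (by omega)
        rw [Nat.cast_add, add_div, div_self hl.ne']
        linarith [hstep s]
  have hρ0 : 0 ≤ Real.exp (-τ / lam) := (Real.exp_pos _).le
  have hρ1 : Real.exp (-τ / lam) < 1 := by
    rw [Real.exp_lt_one_iff]
    exact div_neg_of_neg_of_pos (neg_neg_of_pos hτ) hl
  have h3 : ∀ t : ℕ, Real.exp (-τ * a t) ≤ Real.exp τ * Real.exp (-τ / lam) ^ t := by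
    intro t
    rw [← Real.exp_nat_mul, ← Real.exp_add, Real.exp_le_exp]
    have : τ + t * (-τ / lam) = -τ * (t / lam - 1) := by ring
    rw [this]
    nlinarith [h2 t]
  have hr1 : Real.exp (-τ * ω) < 1 := by
    rw [Real.exp_lt_one_iff]
    nlinarith
  have hc : 0 < 1 - Real.exp (-τ * ω) := by linarith
  refine ⟨Real.exp ((1 - Real.exp (-τ * ω))⁻¹ * (Real.exp τ * (1 - Real.exp (-τ / lam))⁻¹)),
    fun T hT => ?_⟩
  have h4 : ∀ t ∈ T, Real.exp (-τ * a t) ≤ Real.exp (-τ * ω) := fun t ht =>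
    Real.exp_le_exp.2 (by nlinarith [h1 t (hT t ht)])
  calc ∏ t ∈ T, (1 - Real.exp (-τ * a t))⁻¹
      ≤ ∏ t ∈ T, Real.exp ((1 - Real.exp (-τ * ω))⁻¹ * (Real.exp τ * Real.exp (-τ / lam) ^ t)) := by
        refine Finset.prod_le_prod (fun t ht => inv_nonneg.2 (by linarith [h4 t ht]))
          fun t ht => ?_
        have h5 : 0 < 1 - Real.exp (-τ * a t) := by linarith [h4 t ht]
        have h6 : (1 - Real.exp (-τ * a t))⁻¹ =
            (1 - Real.exp (-τ * a t))⁻¹ * Real.exp (-τ * a t) + 1 := by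
          linear_combination inv_mul_cancel₀ h5.ne'
        rw [h6]
        refine le_trans (add_le_add_left ?_ 1) (Real.add_one_le_exp _)
        exact mul_le_mul (inv_anti₀ hc (by linarith [h4 t ht])) (h3 t) (Real.exp_pos _).le
          (inv_pos.2 hc).le
    _ ≤ _ := by
        rw [← Real.exp_sum, ← Finset.mul_sum, ← Finset.mul_sum, Real.exp_le_exp]
        refine mul_le_mul_of_nonneg_left (mul_le_mul_of_nonneg_left ?_ (Real.exp_pos _).le)
          (inv_pos.2 hc).le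
        rw [← tsum_geometric_of_lt_one hρ0 hρ1]
        exact (summable_geometric_of_lt_one hρ0 hρ1).sum_le_tsum _ fun _ _ => pow_nonneg hρ0 _

theorem count_card {G : Type*} [AddCommMonoid G] (w : G →+ ℝ) (g : ℕ → G) (lam : ℕ)
    (hlam : 0 < lam) (h0 : ∀ t, 0 ≤ w (g t)) (hz : ∀ t, w (g t) = 0 → g t = 0)
    (hstep : ∀ t, w (g t) + 1 ≤ w (g (t + lam))) {τ : ℝ} (hτ : 0 < τ) :
    ∃ K : ℝ, ∀ (D : ℝ) (Φ : Finset G),
      (∀ γ ∈ Φ, γ ∈ AddSubmonoid.closure (Set.range g) ∧ w γ ≤ D) →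
        (Φ.card : ℝ) ≤ K * Real.exp (τ * D) := by
  classical
  obtain ⟨K, hK⟩ := count_prod (fun t => w (g t)) lam hlam h0 hstep hτ
  refine ⟨K, fun D Φ hΦ => ?_⟩
  have h1 : ∀ γ ∈ AddSubmonoid.closure (Set.range g), ∃ T : Finset ℕ, (∀ t ∈ T, 0 < w (g t)) ∧
      γ ∈ AddSubmonoid.closure (g '' T) := by
    intro γ hγ
    induction hγ using AddSubmonoid.closure_induction with
    | mem x hx =>
      obtain ⟨t, rfl⟩ := hx
      rcases (h0 t).eq_or_lt with h | h
      · exact ⟨∅, by simp, by rw [hz t h.symm]; exact zero_mem _⟩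
      · exact ⟨{t}, by simpa using h, AddSubmonoid.subset_closure ⟨t, by simp, rfl⟩⟩
    | zero => exact ⟨∅, by simp, zero_mem _⟩
    | add x y _ _ hx hy =>
      obtain ⟨T, hT, hx⟩ := hx
      obtain ⟨T', hT', hy⟩ := hy
      refine ⟨T ∪ T', fun t ht => (Finset.mem_union.1 ht).elim (hT t) (hT' t), add_mem ?_ ?_⟩
      · exact AddSubmonoid.closure_mono (Set.image_mono (by simp)) hx
      · exact AddSubmonoid.closure_mono (Set.image_mono (by simp)) hy
  choose! T hT hT' using h1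
  have h2 : ∀ t ∈ Φ.biUnion T, 0 < w (g t) := fun t ht => by
    obtain ⟨γ, hγ, h⟩ := Finset.mem_biUnion.1 ht
    exact hT γ (hΦ γ hγ).1 t h
  have h3 := (count_fin w g hτ _ h2 Φ fun γ hγ => AddSubmonoid.closure_mono
    (Set.image_mono (Finset.coe_subset.2 (Finset.subset_biUnion_of_mem T hγ)))
    (hT' γ (hΦ γ hγ).1)).trans (hK _ h2)
  have h4 := Finset.card_nsmul_le_sum Φ (fun γ => Real.exp (-τ * w γ)) (Real.exp (-(τ * D)))
    fun γ hγ => Real.exp_le_exp.2 (by nlinarith [(hΦ γ hγ).2])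
  rw [nsmul_eq_mul, Real.exp_neg, ← div_eq_mul_inv] at h4
  exact (div_le_iff₀ (Real.exp_pos _)).1 (h4.trans h3)

theorem count {G : Type*} [AddCommMonoid G] (w : G →+ ℝ) (g : ℕ → G) (lam : ℕ) (hlam : 0 < lam)
    (h0 : ∀ t, 0 ≤ w (g t)) (hz : ∀ t, w (g t) = 0 → g t = 0)
    (hstep : ∀ t, w (g t) + 1 ≤ w (g (t + lam))) :
    (∀ D : ℝ, {γ | γ ∈ AddSubmonoid.closure (Set.range g) ∧ w γ ≤ D}.Finite) ∧
    ∀ D0 : ℝ, 0 ≤ D0 → ∃ D : ℝ, D0 ≤ D ∧
      {γ | γ ∈ AddSubmonoid.closure (Set.range g) ∧ w γ ≤ D}.ncard ≤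
        2 * {γ | γ ∈ AddSubmonoid.closure (Set.range g) ∧ w γ ≤ D - D0}.ncard := by
  have hfin : ∀ D : ℝ, {γ | γ ∈ AddSubmonoid.closure (Set.range g) ∧ w γ ≤ D}.Finite := by
    intro D
    obtain ⟨K, hK⟩ := count_card w g lam hlam h0 hz hstep one_pos
    by_contra hinf
    obtain ⟨n, hn⟩ := exists_nat_gt (K * Real.exp (1 * D))
    obtain ⟨Φ, h1, h2⟩ := Set.Infinite.exists_subset_card_eq hinf n
    have := hK D Φ fun γ hγ => h1 hγ
    rw [h2] at this
    exact absurd hn (not_lt.2 this)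
  refine ⟨hfin, fun D0 hD0 => ?_⟩
  by_contra hc
  push Not at hc
  have hl : 0 < Real.log (3 / 2) := Real.log_pos (by norm_num)
  have hτ : 0 < Real.log (3 / 2) / (D0 + 1) := div_pos hl (by linarith)
  obtain ⟨K, hK⟩ := count_card w g lam hlam h0 hz hstep hτ
  have h1 : ∀ j : ℕ,
      2 ^ j ≤ {γ | γ ∈ AddSubmonoid.closure (Set.range g) ∧ w γ ≤ j * D0}.ncard := by
    intro j
    induction j with
    | zero =>
      exact (Set.ncard_pos (hfin _)).2 ⟨0, zero_mem _, by simp⟩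
    | succ j ih =>
      have h2 := hc (((j + 1 : ℕ) : ℝ) * D0) (by
        push_cast
        nlinarith [Nat.cast_nonneg (α := ℝ) j])
      have e : ((j + 1 : ℕ) : ℝ) * D0 - D0 = j * D0 := by
        push_cast
        ring
      rw [e] at h2
      omega
  obtain ⟨j, hj⟩ := pow_unbounded_of_one_lt K (show (1 : ℝ) < 4 / 3 by norm_num)
  have h2 := hK (j * D0) (hfin (j * D0)).toFinset fun γ hγ => (hfin _).mem_toFinset.1 hγ
  rw [← Set.ncard_eq_toFinset_card _ (hfin _)] at h2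
  have h3 : (2 : ℝ) ^ j ≤ K * Real.exp (Real.log (3 / 2) / (D0 + 1) * (j * D0)) :=
    le_trans (by exact_mod_cast h1 j) h2
  have h4 : Real.exp (Real.log (3 / 2) / (D0 + 1) * (j * D0)) ≤ (3 / 2) ^ j := by
    rw [← Real.exp_log (show (0 : ℝ) < (3 / 2) ^ j by positivity), Real.exp_le_exp, Real.log_pow,
      div_mul_eq_mul_div, div_le_iff₀ (by linarith)]
    nlinarith [mul_nonneg (Nat.cast_nonneg (α := ℝ) j) hl.le]
  have h5 : K * Real.exp (Real.log (3 / 2) / (D0 + 1) * (j * D0)) < (4 / 3) ^ j * (3 / 2) ^ j :=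
    (mul_lt_mul_of_pos_right hj (Real.exp_pos _)).trans_le
      (mul_le_mul_of_nonneg_left h4 (by positivity))
  rw [← mul_pow] at h5
  norm_num at h5
  linarith

end Pool.Agent.Work.MP_baf0bc_nt
end

-- merged part: Pool.Agent.Work.MP_baf0bc_nt.Formal
section
/-! The abstract theorem: the integers `X T` have uniformly bounded size. -/

set_option autoImplicit false

open Filter Topology

namespace Pool.Agent.Work.MP_baf0bc_nt

open Pool.Agent.Lib.Subspace

variable {U : Ultrafilter ℕ} {p q : ℕ}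

theorem formal (hU : (U : Filter ℕ) ≤ atTop) (hp : 2 ≤ p) (hq : 2 ≤ q) (hpq : p.Coprime q)
    {J : Type} [Fintype J] (z : J → FF U) (hz : ∀ j, IsInt (z j)) (C' : ℝ) (hC' : 0 ≤ C')
    (hzC : ∀ j, VLe arch C' (z j)) (u : ℝ) (hu : 0 ≤ u) (γ : ℕ → ℝ × ℝ) (hγ0 : γ 0 = 0)
    (hγ1 : ∀ t, (γ t).1 ≤ (γ (t + 1)).1) (hγ2 : ∀ t, (γ t).2 ≤ (γ (t + 1)).2)
    (hγ3 : ∀ t, (γ (t + 1)).2 - (γ t).2 ≤ u * ((γ (t + 1)).1 - (γ t).1))
    (lam : ℕ) (hlam : 0 < lam) (hstep : ∀ t, (γ t).1 + 1 ≤ (γ (t + lam)).1)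
    (m : ℕ → FF U) (hm : ∀ t, ∃ κ : k0 hU, κ ≠ 0 ∧ m t = (κ : FF U) * E U p q (γ t))
    (s : ℕ → J) (X : ℕ → FF U) (hX : ∀ T, IsInt (X T))
    (hrel : ∀ T, ∑ t ∈ Finset.range (T + 1), m t * z (s t) = m (T + 1) * X T) :
    ∃ C3 : ℝ, ∀ T, VLe arch C3 (X T) := by
  have hp0 : 0 < p := by omega
  have hq0 : 0 < q := by omega
  have hcone : ∀ t, 0 ≤ (γ t).1 ∧ 0 ≤ (γ t).2 ∧ (γ t).2 ≤ u * (γ t).1 := by
    intro t
    induction t with
    | zero => simp [hγ0]
    | succ t ih =>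
      obtain ⟨h1, h2, h3⟩ := ih
      refine ⟨h1.trans (hγ1 t), h2.trans (hγ2 t), ?_⟩
      have := hγ3 t
      linarith
  set Γ := AddSubmonoid.closure (Set.range γ) with hΓ
  have hΓc : ∀ g ∈ Γ, 0 ≤ g.1 ∧ 0 ≤ g.2 := by
    intro g hg
    induction hg using AddSubmonoid.closure_induction with
    | mem g hg => obtain ⟨t, rfl⟩ := hg; exact ⟨(hcone t).1, (hcone t).2.1⟩
    | zero => simp
    | add a b _ _ ha hb =>
      exact ⟨by simpa using add_nonneg ha.1 hb.1, by simpa using add_nonneg ha.2 hb.2⟩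
  obtain ⟨hfin, hdbl⟩ := count (AddMonoidHom.fst ℝ ℝ) γ lam hlam (fun t => (hcone t).1)
    (fun t ht => by
      have h1 : (γ t).1 = 0 := ht
      have h2 := hcone t
      rw [h1, mul_zero] at h2
      exact Prod.ext h1 (le_antisymm h2.2.2 h2.2.1)) hstep
  have hγu : ∀ D : ℝ, ∃ t, D ≤ (γ t).1 := by
    intro D
    have : ∀ k : ℕ, (k : ℝ) ≤ (γ (k * lam)).1 := by
      intro k
      induction k with
      | zero => simp [hγ0]
      | succ k ih =>
        have := hstep (k * lam)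
        rw [Nat.succ_mul]; push_cast; linarith
    obtain ⟨k, hk⟩ := exists_nat_ge D
    exact ⟨_, hk.trans (this k)⟩
  obtain ⟨I, ρQ, S0, ρ, hQ0, hρQ, hS0, hind, hρ, hQ⟩ := setup hU hp hq hpq z Γ γ m hm s
  have hrel' : ∀ T, ev hU p q ρQ * (m (T + 1) * X T) =
      ∑ i : I, z i.1 * ev hU p q (∑ t ∈ Finset.range (T + 1), ρ t i) := by
    intro T
    rw [← hrel T, Finset.mul_sum]
    simp only [hQ, ev_sum, Finset.mul_sum]
    rw [Finset.sum_comm]
  have hform := nonformal_case hU hp hq hpq (fun i : I => z i.1) (fun i => hz _) C' hC'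
    (fun i => hzC _) Γ (fun g hg => (hΓc g hg).1) hfin hdbl γ
    (fun t => AddSubmonoid.subset_closure ⟨t, rfl⟩) hγ1 hγu m hm X hX ρQ hρQ ρ
    (fun t i g hg => hS0 _ (hρ t i g hg)) hrel' hind
  obtain ⟨cQ, hcQ⟩ : ∃ c, HtLe c (ev hU p q ρQ) := by
    refine htLe_sum hU _ _ fun g _ => ?_
    obtain ⟨c, hc⟩ := htLe_E hU hp0 hq0 g
    exact ⟨_, (mem_k0.mp (ρQ g).2).mul hc⟩
  obtain ⟨W, hW⟩ : ∃ W : ℝ, ∀ g ∈ S0, g.1 ≤ W := by
    obtain ⟨W, hW⟩ := (S0.image Prod.fst).bddAbove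
    exact ⟨W, fun g hg => hW (Finset.mem_coe.mpr (Finset.mem_image_of_mem _ hg))⟩
  exact ⟨_, formal_case hU hp hq (fun i : I => z i.1) C' (fun i => hzC _) u hu γ hγ1 hγ2 hγ3 m hm
    X _ hQ0 cQ hcQ S0 W (fun g hg => ⟨hW g hg, (hΓc g (hS0 g hg)).2⟩) ρ hρ hrel' hform⟩

end Pool.Agent.Work.MP_baf0bc_nt
end

-- merged part: Pool.Agent.Work.MP_baf0bc_nt.RauzyA
section
/-! A good scale for the factor complexity, and the marked factors. -/

set_option autoImplicit false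

namespace Pool.Agent.Work.MP_baf0bc_nt

lemma rauzya_fin {α : Type*} (e : ℕ → α) (he : (Set.range e).Finite) (m : ℕ) :
    (Set.range fun i : ℕ => fun j : Fin m => e (i + j.val)).Finite :=
  (Set.Finite.pi' fun _ : Fin m => he).subset (by
    rintro _ ⟨i, rfl⟩ j
    exact ⟨_, rfl⟩)

lemma rauzya_mono {α : Type*} (e : ℕ → α) (he : (Set.range e).Finite) : Monotone (cpx e) := by
  refine monotone_nat_of_le_succ fun m => ?_
  refine le_trans (le_of_eq ?_)
    (Set.ncard_image_le (f := fun u : Fin (m + 1) → α => fun j : Fin m => u j.castSucc)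
      (rauzya_fin e he (m + 1)))
  rw [← Set.range_comp]
  rfl

lemma exists_scale_pf {α : Type*} (e : ℕ → α) (he : (Set.range e).Finite) (C n : ℕ) (hn : 2 ≤ n)
    (h : cpx e n ≤ C * n) :
    ∃ m, n ≤ 2 * m ∧ m ≤ n ∧ cpx e m ≤ C * n ∧ cpx e (m + 1) ≤ cpx e m + 3 * C := by
  by_contra H
  push Not at H
  have key : ∀ j ≤ n / 2, j * (3 * C + 1) ≤ cpx e (n - n / 2 + j) := by
    intro j
    induction j with
    | zero => simp
    | succ j ih =>
      intro hj
      have h1 := ih (by omega)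
      have h2 := H (n - n / 2 + j) (by omega) (by omega) ((rauzya_mono e he (by omega)).trans h)
      rw [← add_assoc, add_mul]
      omega
  have h1 := key _ le_rfl
  rw [Nat.sub_add_cancel (Nat.div_le_self n 2)] at h1
  have h2 := Nat.mul_le_mul_left C (show n ≤ 3 * (n / 2) by omega)
  have h3 : 1 ≤ n / 2 := by omega
  nlinarith

lemma marked_pf {α : Type*} (e : ℕ → α) (he : (Set.range e).Finite) (m s : ℕ)
    (h : cpx e (m + 1) ≤ cpx e m + s) :
    ∃ Mk : (Fin m → α) → Prop,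
      (∀ i, ∃ i', i < i' ∧ Mk (fun j : Fin m => e (i' + j.val))) ∧
      (∀ i i', (fun j : Fin m => e (i + j.val)) = (fun j : Fin m => e (i' + j.val)) →
        ¬ Mk (fun j : Fin m => e (i + j.val)) → e (i + m) = e (i' + m)) ∧
      ∃ F : Finset ((Fin m → α) × α), F.card ≤ 2 * s + 1 ∧
        ∀ i, Mk (fun j : Fin m => e (i + j.val)) →
          ((fun j : Fin m => e (i + j.val)), e (i + m)) ∈ F := by
  classical
  obtain ⟨w, hw⟩ : ∃ w : ℕ → Fin m → α, w = fun i => fun j : Fin m => e (i + j.val) := ⟨_, rfl⟩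
  have hw' : ∀ i, (fun j : Fin m => e (i + j.val)) = w i := fun i => by rw [hw]
  simp only [hw']
  have hV : (Set.range w).Finite := hw ▸ rauzya_fin e he m
  obtain ⟨v0, hv0⟩ : ∃ v0, ∀ i, ∃ i', i < i' ∧ w i' = v0 := by
    by_contra H
    push Not at H
    obtain ⟨i, hi⟩ := ((Filter.eventually_all_finite hV).2 fun v _ =>
      (Filter.eventually_gt_atTop (H v).choose).mono (H v).choose_spec).exists
    exact hi _ ⟨i, rfl⟩ rfl
  have hP0 : (Set.range fun i => (w i, e (i + m))) =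
      (fun u : Fin (m + 1) → α => (fun j : Fin m => u j.castSucc, u (Fin.last m))) ''
        Set.range fun i : ℕ => fun j : Fin (m + 1) => e (i + j.val) := by
    rw [← Set.range_comp, hw]
    rfl
  have hP : (Set.range fun i => (w i, e (i + m))).Finite :=
    hP0 ▸ (rauzya_fin e he (m + 1)).image _
  have c1 : hP.toFinset.card ≤ cpx e (m + 1) := by
    rw [← Set.ncard_eq_toFinset_card _ hP, hP0]
    exact Set.ncard_image_le (rauzya_fin e he (m + 1))
  have c2 : hV.toFinset.card = cpx e m := by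
    rw [← Set.ncard_eq_toFinset_card _ hV, hw, cpx]
  let σ : (Fin m → α) → (Fin m → α) × α := fun v => (v, e (Function.invFun w v + m))
  have c3 : (hV.toFinset.image σ).card = cpx e m := by
    rw [Finset.card_image_of_injective _ fun _ _ e => congrArg Prod.fst e, c2]
  have c4 : hV.toFinset.image σ ⊆ hP.toFinset := fun q hq => by
    obtain ⟨v, hv, rfl⟩ := Finset.mem_image.1 hq
    exact hP.mem_toFinset.2 ⟨Function.invFun w v,
      Prod.ext (Function.invFun_eq (hV.mem_toFinset.1 hv)) rfl⟩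
  have c5 := Finset.card_sdiff_add_card_eq_card c4
  have c6 : ∀ i, (w i, e (i + m)) ≠ σ (w i) →
      (w i, e (i + m)) ∈ hP.toFinset \ hV.toFinset.image σ := fun i hi =>
    Finset.mem_sdiff.2 ⟨hP.mem_toFinset.2 ⟨i, rfl⟩, fun hq => by
      obtain ⟨v, -, hv⟩ := Finset.mem_image.1 hq
      obtain rfl : v = w i := congrArg Prod.fst hv
      exact hi hv.symm⟩
  refine ⟨fun v => v = v0 ∨ ∃ i, w i = v ∧ (w i, e (i + m)) ≠ σ (w i),
    fun i => (hv0 i).imp fun i' h' => ⟨h'.1, Or.inl h'.2⟩, fun i i' e1 hM => ?_,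
    insert (σ v0) ((hP.toFinset \ hV.toFinset.image σ) ∪
      (hP.toFinset \ hV.toFinset.image σ).image fun q => σ q.1), ?_, fun i hi => ?_⟩
  · push Not at hM
    have a1 := hM.2 i rfl
    have a2 := hM.2 i' e1.symm
    rw [← e1] at a2
    exact congrArg Prod.snd (a1.trans a2.symm)
  · refine (Finset.card_insert_le _ _).trans (Nat.succ_le_succ
      ((Finset.card_union_le _ _).trans ((add_le_add_right Finset.card_image_le _).trans ?_)))
    omega
  · by_cases h1 : (w i, e (i + m)) = σ (w i)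
    · rw [h1]
      rcases hi with hi | ⟨i', e1, hi⟩
      · exact hi ▸ Finset.mem_insert_self _ _
      · exact Finset.mem_insert_of_mem (Finset.mem_union_right _
          (Finset.mem_image.2 ⟨_, c6 i' hi, congrArg σ e1⟩))
    · exact Finset.mem_insert_of_mem (Finset.mem_union_left _ (c6 i h1))

end Pool.Agent.Work.MP_baf0bc_nt
end

-- merged part: Pool.Agent.Work.MP_baf0bc_nt.Rauzy
section
/-! A word with at most `C n` factors of length `n` is a concatenation of powers of boundedly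
many words of length `O(n)`, with boundedly many cuts in each window of length `n`.

`exists_scale`: `cpx e` is monotone (restriction is onto), telescoping over `m ∈ [n - n/2, n)`.
`marked`: `w i = fun j : Fin m => e (i + j)`. A factor `v` is special if two occurrences are
followed by different letters; `Mk v` means special or equal to one fixed factor that occurs
infinitely often. Factors of length `m+1` are the pairs `(w i, e (i+m))`; summing (number of
extensions - 1) over the factors gives `cpx (m+1) - cpx m`, so there are at most `2 s + 1` pairs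
`(w i, e (i+m))` with `Mk (w i)`.
`rauzy_m`: `nextM i` = least `i' > i` with `Mk (w i')`. Determinism: an unmarked `w i`
determines `w (i+1)`; so the pair `(w i, e (i+m))` determines `nextM i - i` and the letters on
`[i, nextM i)`; unmarked positions strictly between are pairwise different factors, so the gap is
at most `cpx e m + 1` (same for the first marked position). Loops: `per v` = least `d ≥ 1` with
`w i = v = w (i+d)` for some `i`; if `w (i+d) = w i`, `1 ≤ d`, `2 d ≤ m` (call it `HasRet i`) then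
`w (i + per (w i)) = w i` (the block `[i, i+m+d)` is covered by two occurrences of `v`, which has
period `per v`, overlapping in at least `per v` places). `N 0 = 0`, `N 1` = first marked position,
`N (t+2) = nxt (N (t+1))` where `nxt i = i + k * per (w i)` with the largest `k` such that
`k * per ≤ m` and `w (i + j * per) = w i` for all `j ≤ k` if `HasRet i`, and `nextM i` otherwise.
`T` collects `(0, max 1 (N 1))`, one `(a, nextM a - a)` per pair and one `(a, per)` per marked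
factor with `2 per ≤ m`. In a window of total length at most `m / 2` the steps without return
start at different marked factors and a loop step is followed by a step without return; so
`2 K0 + 2` consecutive steps after the first have total length more than `m / 2`. -/

set_option autoImplicit false

namespace Pool.Agent.Work.MP_baf0bc_nt

lemma exists_scale {α : Type*} (e : ℕ → α) (he : (Set.range e).Finite) (C n : ℕ) (hn : 2 ≤ n)
    (h : cpx e n ≤ C * n) :
    ∃ m, n ≤ 2 * m ∧ m ≤ n ∧ cpx e m ≤ C * n ∧ cpx e (m + 1) ≤ cpx e m + 3 * C := by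
  exact exists_scale_pf e he C n hn h

lemma marked {α : Type*} (e : ℕ → α) (he : (Set.range e).Finite) (m s : ℕ)
    (h : cpx e (m + 1) ≤ cpx e m + s) :
    ∃ Mk : (Fin m → α) → Prop,
      (∀ i, ∃ i', i < i' ∧ Mk (fun j : Fin m => e (i' + j.val))) ∧
      (∀ i i', (fun j : Fin m => e (i + j.val)) = (fun j : Fin m => e (i' + j.val)) →
        ¬ Mk (fun j : Fin m => e (i + j.val)) → e (i + m) = e (i' + m)) ∧
      ∃ F : Finset ((Fin m → α) × α), F.card ≤ 2 * s + 1 ∧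
        ∀ i, Mk (fun j : Fin m => e (i + j.val)) →
          ((fun j : Fin m => e (i + j.val)), e (i + m)) ∈ F := by
  exact marked_pf e he m s h

/-- the factor of length `m` at position `i` -/
def rauzyb_w {α : Type*} (e : ℕ → α) (m i : ℕ) : Fin m → α := fun j => e (i + j.val)

lemma rauzyb_iff {α : Type*} {e : ℕ → α} {m i i' : ℕ} :
    rauzyb_w e m i = rauzyb_w e m i' ↔ ∀ j < m, e (i + j) = e (i' + j) :=
  ⟨fun h j hj => congrFun h ⟨j, hj⟩, fun h => funext fun j => h j j.2⟩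

lemma rauzyb_succ {α : Type*} {e : ℕ → α} {m i i' : ℕ} (h : rauzyb_w e m i = rauzyb_w e m i')
    (h' : e (i + m) = e (i' + m)) : rauzyb_w e m (i + 1) = rauzyb_w e m (i' + 1) := by
  rw [rauzyb_iff] at h ⊢
  intro j hj
  rw [add_assoc, add_assoc, add_comm 1]
  rcases Nat.lt_or_eq_of_le (Nat.succ_le_of_lt hj) with h1 | h1
  · exact h _ h1
  · rwa [show j + 1 = m from h1]

section
variable {α : Type*} {e : ℕ → α} {m : ℕ} {Mk : (Fin m → α) → Prop}
  (hdet : ∀ i i', rauzyb_w e m i = rauzyb_w e m i' → ¬ Mk (rauzyb_w e m i) →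
    e (i + m) = e (i' + m))
include hdet

lemma rauzyb_det {i i' : ℕ} (h : rauzyb_w e m i = rauzyb_w e m i') (j : ℕ)
    (hj : ∀ l < j, ¬ Mk (rauzyb_w e m (i + l))) :
    rauzyb_w e m (i + j) = rauzyb_w e m (i' + j) := by
  induction j with
  | zero => exact h
  | succ j ih =>
    have h1 := ih fun l hl => hj l (by omega)
    exact rauzyb_succ h1 (hdet _ _ h1 (hj j (by omega)))

lemma rauzyb_gap (he : (Set.range e).Finite) {lo hi : ℕ} (h1 : Mk (rauzyb_w e m hi))
    (h2 : ∀ l, lo ≤ l → l < hi → ¬ Mk (rauzyb_w e m l)) : hi ≤ lo + cpx e m := by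
  have key : ∀ a b, lo ≤ a → a < b → b < hi → rauzyb_w e m a ≠ rauzyb_w e m b :=
    fun a b ha hab hb h => by
      have h3 := rauzyb_det hdet h (hi - b) fun l hl => h2 _ (by omega) (by omega)
      rw [Nat.add_sub_cancel' hb.le] at h3
      exact h2 _ (by omega) (by omega) (h3 ▸ h1)
  have h3 := Set.ncard_le_ncard_of_injOn (s := Set.Ico lo hi) (rauzyb_w e m)
    (fun a _ => Set.mem_range_self a) (fun a ha b hb h => by
      rcases lt_trichotomy a b with h4 | h4 | h4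
      · exact absurd h (key a b ha.1 h4 hb.2)
      · exact h4
      · exact absurd h.symm (key b a hb.1 h4 ha.2)) (rauzya_fin e he m)
  rw [Set.ncard_Ico_nat] at h3
  exact Nat.sub_le_iff_le_add'.1 h3

lemma rauzyb_next (he : (Set.range e).Finite) (hm : 1 ≤ m)
    (hinf : ∀ i, ∃ i', i < i' ∧ Mk (rauzyb_w e m i')) :
    ∃ g : ℕ → ℕ, ∀ i, 1 ≤ g i ∧ g i ≤ cpx e m + 1 ∧ Mk (rauzyb_w e m (i + g i)) ∧
      ∀ i', rauzyb_w e m i = rauzyb_w e m i' → e (i + m) = e (i' + m) →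
        g i = g i' ∧ ∀ j < g i, e (i + j) = e (i' + j) := by
  classical
  have hex : ∀ i, ∃ d, Mk (rauzyb_w e m (i + 1 + d)) := fun i => by
    obtain ⟨i', h1, h2⟩ := hinf i
    exact ⟨i' - (i + 1), by rwa [Nat.add_sub_cancel' h1]⟩
  have key : ∀ i i', rauzyb_w e m i = rauzyb_w e m i' → e (i + m) = e (i' + m) →
      ∀ j ≤ Nat.find (hex i), rauzyb_w e m (i + 1 + j) = rauzyb_w e m (i' + 1 + j) :=
    fun i i' h h' j hj => rauzyb_det hdet (rauzyb_succ h h') j fun l hl =>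
      Nat.find_min (hex i) (hl.trans_le hj)
  refine ⟨fun i => 1 + Nat.find (hex i), fun i => ⟨Nat.le_add_right _ _, ?_,
    by rw [← add_assoc]; exact Nat.find_spec (hex i), fun i' h h' => ⟨?_, fun j hj => ?_⟩⟩⟩
  · have := rauzyb_gap hdet he (lo := i + 1) (Nat.find_spec (hex i)) fun l h1 h2 h3 =>
      Nat.find_min (hex i) (m := l - (i + 1)) (by omega) (by rwa [Nat.add_sub_cancel' h1])
    beta_reduce
    omega
  · have h1 := Nat.find_min' (hex i') (key i i' h h' _ le_rfl ▸ Nat.find_spec (hex i))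
    have h2 := Nat.find_min' (hex i) (key i' i h.symm h'.symm _ le_rfl ▸ Nat.find_spec (hex i'))
    beta_reduce
    omega
  · beta_reduce at hj
    rcases j with _ | j
    · exact rauzyb_iff.1 h 0 hm
    · have := rauzyb_iff.1 (key i i' h h' j (by omega)) 0 hm
      rwa [add_zero, add_zero, add_assoc, add_assoc, add_comm 1] at this

end

/-- a short return to the factor at position `i` -/
def rauzyb_ret {α : Type*} (e : ℕ → α) (m i : ℕ) : Prop :=
  ∃ d, 1 ≤ d ∧ 2 * d ≤ m ∧ rauzyb_w e m (i + d) = rauzyb_w e m i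

lemma rauzyb_per {α : Type*} (e : ℕ → α) {m : ℕ} (hm : 1 ≤ m) :
    ∃ p : (Fin m → α) → ℕ, (∀ v, 1 ≤ p v ∧ p v ≤ m) ∧
      (∀ i, ∀ j < m, e (i + j) = e (i + j % p (rauzyb_w e m i))) ∧
      ∀ i, rauzyb_ret e m i → 2 * p (rauzyb_w e m i) ≤ m ∧
        rauzyb_w e m (i + p (rauzyb_w e m i)) = rauzyb_w e m i := by
  classical
  have hex : ∀ v : Fin m → α, ∃ p, 1 ≤ p ∧
      ∀ j, ∀ h : j + p < m, v ⟨j + p, h⟩ = v ⟨j, by omega⟩ :=
    fun v => ⟨m, hm, fun j h => absurd h (by omega)⟩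
  have h1 : ∀ i j, j + Nat.find (hex (rauzyb_w e m i)) < m →
      e (i + (j + Nat.find (hex (rauzyb_w e m i)))) = e (i + j) :=
    fun i => (Nat.find_spec (hex (rauzyb_w e m i))).2
  refine ⟨fun v => Nat.find (hex v), fun v => ⟨(Nat.find_spec (hex v)).1,
    Nat.find_min' _ ⟨hm, fun j h => absurd h (by omega)⟩⟩, fun i j => ?_, fun i hi => ?_⟩
  · have h0 := (Nat.find_spec (hex (rauzyb_w e m i))).1
    have h2 := h1 i
    beta_reduce
    generalize Nat.find (hex (rauzyb_w e m i)) = p at h0 h2 ⊢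
    induction j using Nat.strong_induction_on with
    | _ j ih =>
      intro hj
      rcases lt_or_ge j p with h3 | h3
      · rw [Nat.mod_eq_of_lt h3]
      · obtain ⟨j, rfl⟩ := Nat.exists_eq_add_of_le' h3
        rw [h2 j hj, Nat.add_mod_right]
        exact ih j (by omega) (by omega)
  · obtain ⟨d, hd1, hd2, hd⟩ := hi
    rw [rauzyb_iff] at hd
    have h0 : Nat.find (hex (rauzyb_w e m i)) ≤ d := Nat.find_min' _ ⟨hd1, fun j h => by
      have := hd j (by omega)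
      rwa [add_assoc, add_comm d] at this⟩
    have h2 := h1 i
    beta_reduce
    generalize Nat.find (hex (rauzyb_w e m i)) = p at h0 h2 ⊢
    refine ⟨by omega, rauzyb_iff.2 fun j hj => ?_⟩
    rcases lt_or_ge (j + p) m with h3 | h3
    · rw [add_assoc, add_comm p, h2 j h3]
    · obtain ⟨l, rfl⟩ := Nat.exists_eq_add_of_le (show d ≤ j by omega)
      rw [show i + p + (d + l) = i + d + (l + p) by omega, hd _ (by omega), h2 _ (by omega),
        ← hd l (by omega), add_assoc]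

lemma rauzyb_step {α : Type*} {e : ℕ → α} (he : (Set.range e).Finite) {m K : ℕ} (hm : 1 ≤ m)
    {Mk : (Fin m → α) → Prop} (hinf : ∀ i, ∃ i', i < i' ∧ Mk (rauzyb_w e m i'))
    (hdet : ∀ i i', rauzyb_w e m i = rauzyb_w e m i' → ¬ Mk (rauzyb_w e m i) →
      e (i + m) = e (i' + m))
    (F : Finset ((Fin m → α) × α)) (hF : F.card ≤ K)
    (hF' : ∀ i, Mk (rauzyb_w e m i) → (rauzyb_w e m i, e (i + m)) ∈ F) :
    ∃ T : Finset (ℕ × ℕ), T.card ≤ 2 * K ∧ (∀ x ∈ T, 1 ≤ x.2 ∧ x.2 ≤ cpx e m + m + 1) ∧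
      ∀ i, ∃ i', Mk (rauzyb_w e m i) → i < i' ∧ i' ≤ i + (cpx e m + m + 1) ∧
        Mk (rauzyb_w e m i') ∧ (rauzyb_ret e m i → rauzyb_ret e m i' → 2 * i + m < 2 * i') ∧
        ∃ x ∈ T, ∃ k, i' = i + k * x.2 ∧ ∀ j < k * x.2, e (i + j) = e (x.1 + j % x.2) := by
  classical
  obtain ⟨g, hg⟩ := rauzyb_next hdet he hm hinf
  obtain ⟨p, hp1, hp2, hp3⟩ := rauzyb_per e hm
  let a := Function.invFun fun i => (rauzyb_w e m i, e (i + m))
  have ha : ∀ i, (rauzyb_w e m (a (rauzyb_w e m i, e (i + m))),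
      e (a (rauzyb_w e m i, e (i + m)) + m)) = (rauzyb_w e m i, e (i + m)) := fun i =>
    Function.invFun_eq (f := fun i => (rauzyb_w e m i, e (i + m))) ⟨i, rfl⟩
  refine ⟨F.image (fun q => (a q, g (a q))) ∪ F.image fun q => (a q, p q.1),
    (Finset.card_union_le _ _).trans
      ((add_le_add Finset.card_image_le Finset.card_image_le).trans (by omega)),
    fun x hx => ?_, fun i => ?_⟩
  · rcases Finset.mem_union.1 hx with hx | hx
    · obtain ⟨q, -, rfl⟩ := Finset.mem_image.1 hx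
      exact ⟨(hg _).1, (hg _).2.1.trans (by omega)⟩
    · obtain ⟨q, -, rfl⟩ := Finset.mem_image.1 hx
      exact ⟨(hp1 _).1, (hp1 _).2.trans (by omega)⟩
  obtain ⟨a1, a2⟩ := Prod.ext_iff.1 (ha i)
  by_cases hr : rauzyb_ret e m i
  · obtain ⟨b1, b2⟩ := hp3 i hr
    have b0 := (hp1 (rauzyb_w e m i)).1
    have b3 : 1 * p (rauzyb_w e m i) ≤ m ∧
        rauzyb_w e m (i + 1 * p (rauzyb_w e m i)) = rauzyb_w e m i :=
      ⟨by omega, by rwa [one_mul]⟩
    obtain ⟨k, hk, hk1, hk2⟩ : ∃ k, 1 ≤ k ∧ (k * p (rauzyb_w e m i) ≤ m ∧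
        rauzyb_w e m (i + k * p (rauzyb_w e m i)) = rauzyb_w e m i) ∧
        (k + 1 ≤ m → ¬((k + 1) * p (rauzyb_w e m i) ≤ m ∧
          rauzyb_w e m (i + (k + 1) * p (rauzyb_w e m i)) = rauzyb_w e m i)) :=
      ⟨Nat.findGreatest (fun k => k * p (rauzyb_w e m i) ≤ m ∧
        rauzyb_w e m (i + k * p (rauzyb_w e m i)) = rauzyb_w e m i) m,
        Nat.le_findGreatest hm b3, Nat.findGreatest_spec (P := fun k => k * p (rauzyb_w e m i) ≤ m ∧
          rauzyb_w e m (i + k * p (rauzyb_w e m i)) = rauzyb_w e m i) hm b3,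
        fun h => Nat.findGreatest_is_greatest (Nat.lt_succ_self _) h⟩
    refine ⟨i + k * p (rauzyb_w e m i), fun hM => ⟨Nat.lt_add_of_pos_right (Nat.mul_pos hk b0),
      by omega, hk1.2.symm ▸ hM, fun _ hr' => ?_, _, Finset.mem_union_right _
        (Finset.mem_image_of_mem _ (hF' i hM)), k, rfl, fun j hj => ?_⟩⟩
    · have c1 := (hp3 _ hr').2
      rw [hk1.2, add_assoc, ← Nat.succ_mul] at c1
      have c2 : m < (k + 1) * p (rauzyb_w e m i) := not_le.1 fun h =>
        hk2 ((Nat.le_mul_of_pos_right _ b0).trans h) ⟨h, c1⟩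
      rw [add_mul, one_mul] at c2
      omega
    · exact (hp2 i j (hj.trans_le hk1.1)).trans (rauzyb_iff.1 a1 _
        ((Nat.mod_lt _ b0).trans_le (hp1 _).2)).symm
  · obtain ⟨b1, b2, b3, b4⟩ := hg i
    obtain ⟨c1, c2⟩ := b4 _ a1.symm a2.symm
    refine ⟨i + g i, fun hM => ⟨by omega, by omega, b3, fun h => absurd h hr, _,
      Finset.mem_union_left _ (Finset.mem_image_of_mem _ (hF' i hM)), 1, by rw [one_mul, c1],
      fun j hj => ?_⟩⟩
    rw [one_mul] at hj
    rw [Nat.mod_eq_of_lt hj]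
    exact c2 j (c1 ▸ hj)

lemma rauzyb_window {α : Type*} {e : ℕ → α} {m K : ℕ} (M : ℕ → ℕ) (hM : StrictMono M)
    (V : Finset (Fin m → α)) (hV : V.card ≤ K) (hV' : ∀ t, rauzyb_w e m (M t) ∈ V)
    (hret : ∀ t, rauzyb_ret e m (M t) → rauzyb_ret e m (M (t + 1)) → 2 * M t + m < 2 * M (t + 1))
    (t : ℕ) : 2 * M t + m < 2 * M (t + (2 * K + 1)) := by
  by_contra H
  have key : ∀ u, ∃ c, c ≤ 1 ∧ (u ≤ K → ¬rauzyb_ret e m (M (t + 2 * u + c))) := fun u => by
    by_cases h : rauzyb_ret e m (M (t + 2 * u))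
    · refine ⟨1, le_rfl, fun hu h' => ?_⟩
      have h1 := hret _ h h'
      have h2 := hM.monotone (show t ≤ t + 2 * u by omega)
      have h3 := hM.monotone (show t + 2 * u + 1 ≤ t + (2 * K + 1) by omega)
      omega
    · exact ⟨0, zero_le_one, fun _ => h⟩
  choose c hc hc' using key
  have main : ∀ u u', u < u' → u' ≤ K →
      rauzyb_w e m (M (t + 2 * u + c u)) ≠ rauzyb_w e m (M (t + 2 * u' + c u')) :=
    fun u u' h hu' e1 => by
      have h0 := hc u
      have h0' := hc u'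
      have h1 := hM (show t + 2 * u + c u < t + 2 * u' + c u' by omega)
      have h2 := hM.monotone (show t ≤ t + 2 * u + c u by omega)
      have h3 := hM.monotone (show t + 2 * u' + c u' ≤ t + (2 * K + 1) by omega)
      exact hc' u (by omega) ⟨M (t + 2 * u' + c u') - M (t + 2 * u + c u), by omega, by omega,
        by rw [Nat.add_sub_cancel' h1.le, e1]⟩
  obtain ⟨u, hu, u', hu', hne, h⟩ := Finset.exists_ne_map_eq_of_card_lt_of_maps_to
    (s := Finset.range (K + 1)) (t := V) (by rw [Finset.card_range]; omega)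
    (f := fun u => rauzyb_w e m (M (t + 2 * u + c u))) fun u _ => hV' _
  rw [Finset.mem_range] at hu hu'
  rcases lt_or_gt_of_ne hne with h1 | h1
  · exact main u u' h1 (by omega) h
  · exact main u' u h1 (by omega) h.symm

lemma rauzy_m {α : Type*} (e : ℕ → α) (he : (Set.range e).Finite) (m s : ℕ) (hm : 1 ≤ m)
    (h : cpx e (m + 1) ≤ cpx e m + s) :
    ∃ (N : ℕ → ℕ) (T : Finset (ℕ × ℕ)), T.card ≤ 4 * s + 3 ∧ N 0 = 0 ∧
      (∀ x ∈ T, 1 ≤ x.2 ∧ x.2 ≤ cpx e m + m + 1) ∧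
      (∀ t, N (t + 1) ≤ N t + (cpx e m + m + 1)) ∧
      (∀ t, 2 * N t + m < 2 * N (t + (4 * s + 5))) ∧
      ∀ t, ∃ x ∈ T, ∃ k, N (t + 1) = N t + k * x.2 ∧
        ∀ j < k * x.2, e (N t + j) = e (x.1 + j % x.2) := by
  classical
  obtain ⟨Mk, hinf, hdet, F, hF, hF'⟩ := marked e he m s h
  obtain ⟨T, hT, hT', hstep⟩ := rauzyb_step he hm hinf hdet F hF hF'
  choose nxt hnxt using hstep
  have hex : ∃ i, Mk (rauzyb_w e m i) := (hinf 0).imp fun _ h => h.2
  have h0 := rauzyb_gap hdet he (lo := 0) (Nat.find_spec hex) fun l _ hl => Nat.find_min hex hl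
  obtain ⟨M, hM0, hM⟩ : ∃ M : ℕ → ℕ, M 0 = Nat.find hex ∧ ∀ t, M (t + 1) = nxt (M t) :=
    ⟨fun t => Nat.rec (Nat.find hex) (fun _ => nxt) t, rfl, fun _ => rfl⟩
  have hMk : ∀ t, Mk (rauzyb_w e m (M t)) := fun t => by
    induction t with
    | zero => exact hM0 ▸ Nat.find_spec hex
    | succ t ih => exact hM t ▸ (hnxt _ ih).2.2.1
  have hmono : StrictMono M := strictMono_nat_of_lt_succ fun t => hM t ▸ (hnxt _ (hMk t)).1
  have hwin := rauzyb_window M hmono (F.image Prod.fst) (Finset.card_image_le.trans hF)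
    (fun t => Finset.mem_image.2 ⟨_, hF' _ (hMk t), rfl⟩)
    fun t => hM t ▸ (hnxt _ (hMk t)).2.2.2.1
  rw [← hM0] at h0
  refine ⟨fun t => Nat.casesOn t 0 M, insert (0, max 1 (M 0)) T,
    (Finset.card_insert_le _ _).trans (by omega), rfl, fun x hx => ?_, fun t => ?_, fun t => ?_,
    fun t => ?_⟩
  · rcases Finset.mem_insert.1 hx with rfl | hx
    · exact ⟨le_max_left _ _, max_le (by omega) (by omega)⟩
    · exact hT' x hx
  · rcases t with _ | t
    · exact h0.trans (by omega)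
    · exact (hM t).trans_le (hnxt _ (hMk t)).2.1
  · rcases t with _ | t
    · have h1 := hwin 0
      have h2 := hmono.monotone (show 0 + (2 * (2 * s + 1) + 1) ≤ 0 + (4 * s + 4) by omega)
      change 2 * 0 + m < 2 * M (0 + (4 * s + 4))
      omega
    · have h1 := hwin t
      have h2 := hmono.monotone (show t + (2 * (2 * s + 1) + 1) ≤ t + 1 + (4 * s + 4) by omega)
      change 2 * M t + m < 2 * M (t + 1 + (4 * s + 4))
      omega
  · rcases t with _ | t
    · refine ⟨_, Finset.mem_insert_self _ _, min 1 (M 0), ?_, fun j hj => ?_⟩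
      · change M 0 = 0 + min 1 (M 0) * max 1 (M 0)
        rw [min_mul_max, one_mul, zero_add]
      · rw [min_mul_max, one_mul] at hj
        rw [Nat.mod_eq_of_lt (hj.trans_le (le_max_right _ _))]
        rfl
    · obtain ⟨x, hx, k, h1, h2⟩ := (hnxt _ (hMk t)).2.2.2.2
      exact ⟨x, Finset.mem_insert_of_mem hx, k, (hM t).trans h1, h2⟩

theorem rauzy {α : Type*} (e : ℕ → α) (he : (Set.range e).Finite) (C : ℕ) :
    ∃ K lam C' : ℕ, 0 < lam ∧ ∀ n, 2 ≤ n → cpx e n ≤ C * n →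
      ∃ (N : ℕ → ℕ) (T : Finset (ℕ × ℕ)), T.card ≤ K ∧ N 0 = 0 ∧
        (∀ x ∈ T, 1 ≤ x.2 ∧ x.2 ≤ C' * n) ∧ (∀ t, N (t + 1) ≤ N t + C' * n) ∧
        (∀ t, N t + n ≤ N (t + lam)) ∧
        ∀ t, ∃ x ∈ T, ∃ k, N (t + 1) = N t + k * x.2 ∧
          ∀ j < k * x.2, e (N t + j) = e (x.1 + j % x.2) := by
  refine ⟨4 * (3 * C) + 3, 4 * (4 * (3 * C) + 5), C + 2, by omega, fun n hn h => ?_⟩
  obtain ⟨m, h1, h2, h3, h4⟩ := exists_scale e he C n hn h
  obtain ⟨N, T, hT, hN0, hx, hN, hl, hseg⟩ := rauzy_m e he m (3 * C) (by omega) h4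
  have hb : cpx e m + m + 1 ≤ (C + 2) * n := by nlinarith
  refine ⟨N, T, hT, hN0, fun x hxT => ⟨(hx x hxT).1, (hx x hxT).2.trans hb⟩,
    fun t => (hN t).trans (by omega), fun t => ?_, hseg⟩
  set L := 4 * (3 * C) + 5
  have a1 := hl t
  have a2 := hl (t + L)
  have a3 := hl (t + L + L)
  have a4 := hl (t + L + L + L)
  have e1 : t + 4 * L = t + L + L + L + L := by ring
  rw [e1]
  omega

end Pool.Agent.Work.MP_baf0bc_nt
end

-- merged part: Pool.Agent.Work.MP_baf0bc_nt.Scale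
section
/-! Arithmetic form of the decomposition at one scale.

Plan. Let `um`, `rm` bound `u (e k)` and `|r (e k)|`. For a position `a` and length `d` put
`O a d = ∑ l ∈ range d, u (e (a + l))`, `R a d = q^d * x (a+d) - p^(O a d) * x a`; then
`R a (d+1) = p^(u (e (a+d))) * R a d + q^d * r (e (a+d))`, so `R` depends only on the letters
and `|R a d| ≤ d * rm * (q * p^um)^d`. `den a d = q^d - p^(O a d) ≠ 0` for `d ≥ 1` (coprime,
`q ≥ 2`). Enumerate the finset `T` of `rauzy` by `Fin K` (pad with a default; `K ≥ 1` may be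
arranged by taking `K + 1`), `Δ = ∏ j, den j`, `ζ j = R j * ∏ j' ≠ j, den j'`. If the letters on
`[i, i+d)` agree with those on `[a, a+d)` then `q^d * (Δ x (i+d) - ζ) = p^O * (Δ x i - ζ)` and
`oo (i+d) = oo i + O`, so `mu (i+d) * (Δ x (i+d) - ζ) = mu i * (Δ x i - ζ)`; induct on the
number `k` of repetitions. `growth`: induction on `j`. -/

set_option autoImplicit false

namespace Pool.Agent.Work.MP_baf0bc_nt

/-- Total exponent of `p` used up to time `N`. -/
def oo {α : Type*} (e : ℕ → α) (u : α → ℕ) (N : ℕ) : ℕ := ∑ k ∈ Finset.range N, u (e k)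

/-- The monomial `q ^ N / p ^ (oo N)`. -/
def mu {α : Type*} (p q : ℕ) (e : ℕ → α) (u : α → ℕ) (N : ℕ) : ℚ :=
  (q : ℚ) ^ N / (p : ℚ) ^ oo e u N

/-- Exponent of `p` used on the block of length `d` starting at `a`. -/
def scale_O {α : Type*} (e : ℕ → α) (u : α → ℕ) (a d : ℕ) : ℕ :=
  ∑ l ∈ Finset.range d, u (e (a + l))

/-- The inhomogeneous term of a block. -/
def scale_R {α : Type*} (p q : ℕ) (e : ℕ → α) (u : α → ℕ) (x : ℕ → ℤ) (a d : ℕ) : ℤ :=
  (q : ℤ) ^ d * x (a + d) - (p : ℤ) ^ scale_O e u a d * x a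

/-- The denominator of a block. -/
def scale_den {α : Type*} (p q : ℕ) (e : ℕ → α) (u : α → ℕ) (a d : ℕ) : ℤ :=
  (q : ℤ) ^ d - (p : ℤ) ^ scale_O e u a d

lemma scale_bdd {α : Type*} (e : ℕ → α) (he : (Set.range e).Finite) (f : α → ℕ) :
    ∃ m : ℕ, ∀ k, f (e k) ≤ m := by
  obtain ⟨m, hm⟩ := (he.image f).bddAbove
  exact ⟨m, fun k => hm ⟨e k, ⟨k, rfl⟩, rfl⟩⟩

lemma scale_O_succ {α : Type*} (e : ℕ → α) (u : α → ℕ) (a d : ℕ) :
    scale_O e u a (d + 1) = scale_O e u a d + u (e (a + d)) := Finset.sum_range_succ _ _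

lemma scale_R_succ {α : Type*} (p q : ℕ) (e : ℕ → α) (u : α → ℕ) (r : α → ℤ) (x : ℕ → ℤ)
    (hrec : ∀ k, (q : ℤ) * x (k + 1) = (p : ℤ) ^ u (e k) * x k + r (e k)) (a d : ℕ) :
    scale_R p q e u x a (d + 1) =
      (p : ℤ) ^ u (e (a + d)) * scale_R p q e u x a d + (q : ℤ) ^ d * r (e (a + d)) := by
  unfold scale_R
  rw [scale_O_succ, pow_add (p : ℤ), pow_succ (q : ℤ), mul_assoc ((q : ℤ) ^ d), ← add_assoc a,
    hrec]
  ring

lemma scale_O_congr {α : Type*} (e : ℕ → α) (u : α → ℕ) (i a d : ℕ)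
    (h : ∀ l < d, e (i + l) = e (a + l)) : scale_O e u i d = scale_O e u a d :=
  Finset.sum_congr rfl fun l hl => by rw [h l (Finset.mem_range.mp hl)]

lemma scale_R_congr {α : Type*} (p q : ℕ) (e : ℕ → α) (u : α → ℕ) (r : α → ℤ) (x : ℕ → ℤ)
    (hrec : ∀ k, (q : ℤ) * x (k + 1) = (p : ℤ) ^ u (e k) * x k + r (e k)) (i a d : ℕ)
    (h : ∀ l < d, e (i + l) = e (a + l)) : scale_R p q e u x i d = scale_R p q e u x a d := by
  induction d with
  | zero => simp [scale_R, scale_O]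
  | succ d ih =>
    rw [scale_R_succ p q e u r x hrec, scale_R_succ p q e u r x hrec,
      ih fun l hl => h l (by omega), h d (by omega)]

lemma scale_R_le {α : Type*} (p q : ℕ) (hp : 2 ≤ p) (e : ℕ → α) (u : α → ℕ) (r : α → ℤ)
    (x : ℕ → ℤ) (hrec : ∀ k, (q : ℤ) * x (k + 1) = (p : ℤ) ^ u (e k) * x k + r (e k))
    (um rm : ℕ) (hu : ∀ k, u (e k) ≤ um) (hr : ∀ k, (r (e k)).natAbs ≤ rm) (a d : ℕ) :
    (scale_R p q e u x a d).natAbs ≤ (p ^ um + rm + q) ^ d := by
  induction d with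
  | zero => simp [scale_R, scale_O]
  | succ d ih =>
    rw [scale_R_succ p q e u r x hrec]
    refine (Int.natAbs_add_le _ _).trans ?_
    rw [Int.natAbs_mul, Int.natAbs_mul, Int.natAbs_pow, Int.natAbs_pow, Int.natAbs_natCast,
      Int.natAbs_natCast]
    have h1 : p ^ u (e (a + d)) ≤ p ^ um := Nat.pow_le_pow_right (by omega) (hu _)
    have h2 : q ^ d ≤ (p ^ um + rm + q) ^ d := Nat.pow_le_pow_left (by omega) _
    calc _ ≤ p ^ um * (p ^ um + rm + q) ^ d + (p ^ um + rm + q) ^ d * rm :=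
          Nat.add_le_add (Nat.mul_le_mul h1 ih) (Nat.mul_le_mul h2 (hr _))
      _ = (p ^ um + rm + q) ^ d * (p ^ um + rm) := by ring
      _ ≤ (p ^ um + rm + q) ^ d * (p ^ um + rm + q) := Nat.mul_le_mul_left _ (by omega)
      _ = _ := (pow_succ _ _).symm

lemma scale_den_le {α : Type*} (p q : ℕ) (hp : 2 ≤ p) (e : ℕ → α) (u : α → ℕ)
    (um rm : ℕ) (hu : ∀ k, u (e k) ≤ um) (a d : ℕ) :
    (scale_den p q e u a d).natAbs ≤ (p ^ um + rm + q) ^ d := by
  have h1 : q ^ d ≤ (p ^ um + rm + q) ^ d := Nat.pow_le_pow_left (by omega) _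
  have h2 : scale_O e u a d ≤ um * d := by
    have := Finset.sum_le_card_nsmul (Finset.range d) (fun l => u (e (a + l))) um
      fun l _ => hu _
    simpa [scale_O, mul_comm] using this
  have h3 : p ^ scale_O e u a d ≤ (p ^ um + rm + q) ^ d :=
    calc p ^ scale_O e u a d ≤ p ^ (um * d) := Nat.pow_le_pow_right (by omega) h2
      _ = (p ^ um) ^ d := pow_mul _ _ _
      _ ≤ _ := Nat.pow_le_pow_left (by omega) _
  unfold scale_den
  rw [← Nat.cast_pow, ← Nat.cast_pow]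
  omega

lemma scale_den_ne {α : Type*} (p q : ℕ) (hq : 2 ≤ q) (hpq : p.Coprime q) (e : ℕ → α)
    (u : α → ℕ) (a d : ℕ) (hd : 1 ≤ d) : scale_den p q e u a d ≠ 0 := by
  unfold scale_den
  intro h
  have h1 : q ^ d = p ^ scale_O e u a d := by exact_mod_cast sub_eq_zero.mp h
  have h2 : (p ^ scale_O e u a d).Coprime (q ^ d) := Nat.Coprime.pow _ _ hpq
  rw [← h1, Nat.coprime_self] at h2
  have h3 : 1 < q ^ d := Nat.one_lt_pow (by omega) (by omega)
  omega

lemma scale_step {α : Type*} (p q : ℕ) (hp : 2 ≤ p) (e : ℕ → α) (u : α → ℕ) (r : α → ℤ)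
    (x : ℕ → ℤ) (hrec : ∀ k, (q : ℤ) * x (k + 1) = (p : ℤ) ^ u (e k) * x k + r (e k))
    (Δ ζ : ℤ) (i a d : ℕ) (h : ∀ l < d, e (i + l) = e (a + l))
    (hζ : Δ * scale_R p q e u x a d = ζ * scale_den p q e u a d) :
    mu p q e u (i + d) * ((Δ * x (i + d) - ζ : ℤ) : ℚ) =
      mu p q e u i * ((Δ * x i - ζ : ℤ) : ℚ) := by
  have h1 : oo e u (i + d) = oo e u i + scale_O e u i d := Finset.sum_range_add _ _ _
  have h2 : (q : ℤ) ^ d * (Δ * x (i + d) - ζ) = (p : ℤ) ^ scale_O e u i d * (Δ * x i - ζ) := by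
    rw [← scale_R_congr p q e u r x hrec i a d h, scale_den, ← scale_O_congr e u i a d h,
      scale_R] at hζ
    linear_combination hζ
  have h3 : (q : ℚ) ^ d * ((Δ * x (i + d) - ζ : ℤ) : ℚ) =
      (p : ℚ) ^ scale_O e u i d * ((Δ * x i - ζ : ℤ) : ℚ) := by exact_mod_cast h2
  have hp0 : (p : ℚ) ≠ 0 := by positivity
  unfold mu
  rw [h1, pow_add, pow_add, mul_div_mul_comm, mul_assoc, div_mul_eq_mul_div ((q : ℚ) ^ d), h3,
    mul_div_cancel_left₀ _ (pow_ne_zero _ hp0)]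

lemma scale_rep {α : Type*} (p q : ℕ) (hp : 2 ≤ p) (e : ℕ → α) (u : α → ℕ) (r : α → ℤ)
    (x : ℕ → ℤ) (hrec : ∀ k, (q : ℤ) * x (k + 1) = (p : ℤ) ^ u (e k) * x k + r (e k))
    (Δ ζ : ℤ) (i a d k : ℕ) (h : ∀ j < k * d, e (i + j) = e (a + j % d))
    (hζ : Δ * scale_R p q e u x a d = ζ * scale_den p q e u a d) :
    mu p q e u (i + k * d) * ((Δ * x (i + k * d) - ζ : ℤ) : ℚ) =
      mu p q e u i * ((Δ * x i - ζ : ℤ) : ℚ) := by
  induction k with
  | zero => simp
  | succ k ih =>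
    have e1 : (k + 1) * d = k * d + d := by ring
    rw [e1] at h ⊢
    rw [← add_assoc, scale_step p q hp e u r x hrec Δ ζ (i + k * d) a d ?_ hζ,
      ih fun j hj => h j (by omega)]
    intro l hl
    rw [add_assoc, h _ (by omega), Nat.mul_add_mod_self_right, Nat.mod_eq_of_lt hl]

lemma scale_exp (z : ℤ) (B m : ℕ) (h : z.natAbs ≤ B ^ m) : |(z : ℝ)| ≤ Real.exp (B * m) := by
  have h1 : |(z : ℝ)| = (z.natAbs : ℝ) := by rw [Nat.cast_natAbs, Int.cast_abs]
  have h2 : (B : ℝ) ≤ Real.exp B := by linarith [Real.add_one_le_exp (B : ℝ)]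
  calc |(z : ℝ)| = (z.natAbs : ℝ) := h1
    _ ≤ (B : ℝ) ^ m := by exact_mod_cast h
    _ ≤ Real.exp B ^ m := by gcongr
    _ = _ := by rw [← Real.exp_nat_mul, mul_comm]

theorem scale {α : Type*} (p q : ℕ) (hp : 2 ≤ p) (hq : 2 ≤ q) (hpq : p.Coprime q) (e : ℕ → α)
    (he : (Set.range e).Finite) (u : α → ℕ) (r : α → ℤ) (x : ℕ → ℤ)
    (hrec : ∀ k, (q : ℤ) * x (k + 1) = (p : ℤ) ^ u (e k) * x k + r (e k)) (C : ℕ) :
    ∃ (K lam C' : ℕ) (C2 : ℝ), 0 < lam ∧ 0 ≤ C2 ∧ ∀ n, 2 ≤ n → cpx e n ≤ C * n →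
      ∃ (N : ℕ → ℕ) (s : ℕ → Fin K) (Δ : ℤ) (ζ : Fin K → ℤ), Δ ≠ 0 ∧ N 0 = 0 ∧
        (∀ t, N t ≤ N (t + 1)) ∧ (∀ t, N (t + 1) ≤ N t + C' * n) ∧
        (∀ t, N t + n ≤ N (t + lam)) ∧ |(Δ : ℝ)| ≤ Real.exp (C2 * n) ∧
        (∀ j, |(ζ j : ℝ)| ≤ Real.exp (C2 * n)) ∧
        ∀ t, mu p q e u (N (t + 1)) * ((Δ * x (N (t + 1)) - ζ (s t) : ℤ) : ℚ) =
          mu p q e u (N t) * ((Δ * x (N t) - ζ (s t) : ℤ) : ℚ) := by
  classical
  obtain ⟨um, hu⟩ := scale_bdd e he u
  obtain ⟨rm, hr⟩ := scale_bdd e he fun a => (r a).natAbs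
  obtain ⟨K, lam, C', hlam, hK⟩ := rauzy e he C
  set B := p ^ um + rm + q with hB
  have hB1 : 1 ≤ B := by omega
  refine ⟨K, lam, C', B * (C' * K), hlam, by positivity, fun n hn hc => ?_⟩
  obtain ⟨N, T, hT, hN0, hx, hN, hl, hseg⟩ := hK n hn hc
  choose y hy k hk1 hk2 using hseg
  obtain ⟨f⟩ : Nonempty (T ↪ Fin K) :=
    Function.Embedding.nonempty_of_card_le (by simpa using hT)
  set den : ℕ × ℕ → ℤ := fun z => scale_den p q e u z.1 z.2 with hden
  set ζ0 : T → ℤ := fun z => scale_R p q e u x z.1.1 z.1.2 * ∏ z' ∈ T.erase z.1, den z' with hζ0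
  have hb1 : ∀ z ∈ T, (den z).natAbs ≤ B ^ (C' * n) := fun z hz =>
    (scale_den_le p q hp e u um rm hu z.1 z.2).trans (Nat.pow_le_pow_right hB1 (hx z hz).2)
  have hb2 : ∀ z ∈ T, (scale_R p q e u x z.1 z.2).natAbs ≤ B ^ (C' * n) := fun z hz =>
    (scale_R_le p q hp e u r x hrec um rm hu hr z.1 z.2).trans
      (Nat.pow_le_pow_right hB1 (hx z hz).2)
  have hb3 : ∀ S ⊆ T, (∏ z ∈ S, den z).natAbs ≤ (B ^ (C' * n)) ^ S.card := by
    intro S hS
    rw [show (∏ z ∈ S, den z).natAbs = ∏ z ∈ S, (den z).natAbs from map_prod Int.natAbsHom _ _]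
    exact Finset.prod_le_pow_card _ _ _ fun z hz => hb1 z (hS hz)
  have hb4 : (B ^ (C' * n)) ^ T.card ≤ B ^ (C' * K * n) := by
    rw [← pow_mul]
    refine Nat.pow_le_pow_right hB1 ?_
    calc C' * n * T.card ≤ C' * n * K := Nat.mul_le_mul_left _ hT
      _ = _ := by ring
  have hexp : ∀ z : ℤ, z.natAbs ≤ (B ^ (C' * n)) ^ T.card →
      |(z : ℝ)| ≤ Real.exp (B * (C' * K) * n) := by
    intro z hz
    refine (scale_exp z B _ (hz.trans hb4)).trans_eq ?_
    congr 1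
    push_cast
    ring
  refine ⟨N, fun t => f ⟨y t, hy t⟩, ∏ z ∈ T, den z, Function.extend f ζ0 0, ?_, hN0,
    fun t => by rw [hk1]; omega, hN, hl, hexp _ (hb3 T le_rfl), fun j => ?_, fun t => ?_⟩
  · exact Finset.prod_ne_zero_iff.mpr fun z hz => scale_den_ne p q hq hpq e u _ _ (hx z hz).1
  · by_cases hj : ∃ z, f z = j
    · obtain ⟨z, rfl⟩ := hj
      rw [f.injective.extend_apply]
      refine hexp _ ?_
      rw [hζ0, Int.natAbs_mul, ← Finset.card_erase_add_one z.2, pow_succ']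
      exact Nat.mul_le_mul (hb2 _ z.2) (hb3 _ (Finset.erase_subset _ _))
    · rw [Function.extend_apply' _ _ _ hj]
      simpa using (Real.exp_pos _).le
  · rw [f.injective.extend_apply, hk1]
    refine scale_rep p q hp e u r x hrec _ _ _ (y t).1 _ _ (hk2 t) ?_
    rw [← Finset.mul_prod_erase T den (hy t)]
    simp only [hζ0, hden]
    ring

lemma growth {α : Type*} (p q : ℕ) (hp : 2 ≤ p) (hq : 2 ≤ q) (e : ℕ → α)
    (he : (Set.range e).Finite) (u : α → ℕ) (r : α → ℤ) (x : ℕ → ℤ)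
    (hrec : ∀ k, (q : ℤ) * x (k + 1) = (p : ℤ) ^ u (e k) * x k + r (e k)) :
    ∃ c : ℝ, 0 ≤ c ∧ ∀ i j : ℕ,
      |(x (i + j) : ℝ)| + 1 ≤ Real.exp (c * j) * (|(x i : ℝ)| + 1) := by
  obtain ⟨um, hu⟩ := scale_bdd e he u
  obtain ⟨rm, hr⟩ := scale_bdd e he fun a => (r a).natAbs
  have h1 : ∀ k, (x (k + 1)).natAbs + 1 ≤ (p ^ um + rm + 1) * ((x k).natAbs + 1) := by
    intro k
    have e1 := congrArg Int.natAbs (hrec k)
    have e2 := Int.natAbs_add_le ((p : ℤ) ^ u (e k) * x k) (r (e k))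
    rw [← e1, Int.natAbs_mul, Int.natAbs_mul, Int.natAbs_pow, Int.natAbs_natCast,
      Int.natAbs_natCast] at e2
    have e3 : p ^ u (e k) * (x k).natAbs ≤ p ^ um * (x k).natAbs :=
      Nat.mul_le_mul_right _ (Nat.pow_le_pow_right (by omega) (hu _))
    have e4 : (x (k + 1)).natAbs ≤ q * (x (k + 1)).natAbs := Nat.le_mul_of_pos_left _ (by omega)
    have e5 := hr k
    have e6 : (p ^ um + rm + 1) * ((x k).natAbs + 1) =
      p ^ um * (x k).natAbs + rm + 1 + (p ^ um + (rm + 1) * (x k).natAbs) := by ring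
    omega
  set B := p ^ um + rm + 1 with hB
  have h2 : ∀ k, |(x (k + 1) : ℝ)| + 1 ≤ Real.exp B * (|(x k : ℝ)| + 1) := by
    intro k
    have e1 : ∀ z : ℤ, |(z : ℝ)| = (z.natAbs : ℝ) := fun z => by rw [Nat.cast_natAbs, Int.cast_abs]
    have e2 : (B : ℝ) ≤ Real.exp B := by linarith [Real.add_one_le_exp (B : ℝ)]
    rw [e1, e1]
    calc ((x (k + 1)).natAbs : ℝ) + 1 ≤ B * (((x k).natAbs : ℝ) + 1) := by exact_mod_cast h1 k
      _ ≤ _ := by gcongr
  refine ⟨B, by positivity, fun i j => ?_⟩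
  induction j with
  | zero => simp
  | succ j ih =>
    rw [← add_assoc]
    calc _ ≤ Real.exp B * (|(x (i + j) : ℝ)| + 1) := h2 _
      _ ≤ Real.exp B * (Real.exp (B * j) * (|(x i : ℝ)| + 1)) := by gcongr
      _ = _ := by
        rw [← mul_assoc, ← Real.exp_add]
        congr 2
        push_cast
        ring

end Pool.Agent.Work.MP_baf0bc_nt
end

-- merged part: Pool.Agent.Work.MP_baf0bc_nt.Main
section
/-! Low complexity at infinitely many scales forces slow growth of the orbit.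

Plan. `U = Ultrafilter.of (atTop ⊓ 𝓟 {n | cpx e n ≤ C n})` (nontrivial by `hC`). By `scale` and
choice get `N n`, `s n`, `Δ n`, `ζ n` with the properties for `U`-most `n`. For each `t` there is
`s0 t` with `s n t = s0 t` eventually (`Ultrafilter.eventually_exists_iff`); `N n t / n` and
`oo (N n t) / n` are bounded (by `t C'`, `um t C'`), so they converge along `U` to `γ t`
(`isCompact_Icc.ultrafilter_le_nhds` for `U.map`); the inequalities pass to the limit
(`le_of_tendsto_of_tendsto`, `oo` is monotone with increments at most `um` times the increments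
of `N`). `m t` = germ of `mu (N n t)` (`germ_eq_E`), `J = Option (Fin K × Fin K)`,
`z none` = germ of `Δ n * x 0 - ζ n (s0 0)`, `z (some (j, j'))` = germ of `ζ n j - ζ n j'`,
index `0 ↦ none`, `t+1 ↦ some (s0 t, s0 (t+1))`, `X T` = germ of
`Δ n * x (N n (T+1)) - ζ n (s0 T)`; `hrel` by induction on `T`. `formal` bounds `X T`, hence
`|x (N n t)| ≤ exp ((max C3 C2 + 2) n)` eventually for each `t` (`1 ≤ |Δ n|`). Given `D`, use
all `t ≤ lam * (D + 1)`: every `N' ≤ D n` lies in `[N n t, N n (t+1))` for such a `t`, and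
`growth` finishes. `Eventually.frequently` and `Frequently.filter_mono` return to `atTop`. -/

set_option autoImplicit false

open Filter Topology

namespace Pool.Agent.Work.MP_baf0bc_nt

open Pool.Agent.Lib.Subspace

lemma main_lim (U : Ultrafilter ℕ) (a : ℕ → ℝ) (B : ℝ)
    (h : ∀ᶠ n in (U : Filter ℕ), 0 ≤ a n ∧ a n ≤ B) :
    ∃ g, Tendsto a (U : Filter ℕ) (𝓝 g) := by
  obtain ⟨g, -, hg⟩ := (isCompact_Icc (a := (0 : ℝ)) (b := B)).ultrafilter_le_nhds (U.map a)
    (by rw [Ultrafilter.coe_map, le_principal_iff]; exact h)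
  exact ⟨g, hg⟩

lemma main_vle {U : Ultrafilter ℕ} (hU : (U : Filter ℕ) ≤ atTop) (f : ℕ → ℤ) (K c : ℝ)
    (h : ∀ᶠ n : ℕ in (U : Filter ℕ), |(f n : ℝ)| ≤ K * Real.exp (c * n)) :
    VLe arch c ((fun n => (f n : ℚ) : ℕ → ℚ) : FF U) := by
  rw [vLe_coe]
  intro ε hε
  filter_upwards [h, ev_const_le hU K hε] with n h1 h2
  rw [arch_apply, Rat.cast_intCast]
  refine h1.trans ((mul_le_mul_of_nonneg_right h2 (Real.exp_pos _).le).trans (le_of_eq ?_))
  rw [← Real.exp_add]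
  congr 1
  ring

lemma main_oo_add {α : Type*} (e : ℕ → α) (u : α → ℕ) (um : ℕ) (hum : ∀ k, u (e k) ≤ um)
    {a b : ℕ} (hab : a ≤ b) : oo e u a ≤ oo e u b ∧ oo e u b + um * a ≤ oo e u a + um * b := by
  induction b, hab using Nat.le_induction with
  | base => exact ⟨le_rfl, le_rfl⟩
  | succ b _ ih =>
    have h1 : oo e u (b + 1) = oo e u b + u (e b) := Finset.sum_range_succ _ _
    have h2 := hum b
    rw [h1, Nat.mul_succ]
    omega

lemma main_between (f : ℕ → ℕ) (a : ℕ) (h0 : f 0 ≤ a) (L : ℕ) (hL : a < f L) :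
    ∃ t < L, f t ≤ a ∧ a < f (t + 1) := by
  induction L with
  | zero => omega
  | succ L ih =>
    by_cases h : a < f L
    · obtain ⟨t, ht, h'⟩ := ih h
      exact ⟨t, by omega, h'⟩
    · exact ⟨L, by omega, by omega, hL⟩

theorem main {α : Type*} (p q : ℕ) (hp : 2 ≤ p) (hq : 2 ≤ q) (hpq : p.Coprime q) (e : ℕ → α)
    (he : (Set.range e).Finite) (u : α → ℕ) (r : α → ℤ) (x : ℕ → ℤ)
    (hrec : ∀ k, (q : ℤ) * x (k + 1) = (p : ℤ) ^ u (e k) * x k + r (e k)) (C : ℕ)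
    (hC : ∃ᶠ n in atTop, cpx e n ≤ C * n) :
    ∃ C4 : ℝ, ∀ D : ℕ, ∃ᶠ n : ℕ in atTop, ∀ N ≤ D * n, |(x N : ℝ)| ≤ Real.exp (C4 * n) := by
  have hp0 : 0 < p := by omega
  have hq0 : 0 < q := by omega
  obtain ⟨K, lam, C', C2, hlam, hC2, hsc⟩ := scale p q hp hq hpq e he u r x hrec C
  obtain ⟨c, hc0, hgr⟩ := growth p q hp hq e he u r x hrec
  obtain ⟨um, hum⟩ : ∃ um : ℕ, ∀ k, u (e k) ≤ um := by
    obtain ⟨um, h⟩ := (he.image u).bddAbove
    exact ⟨um, fun k => h ⟨e k, ⟨k, rfl⟩, rfl⟩⟩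
  have hS : ∃ᶠ n in atTop, 2 ≤ n ∧ cpx e n ≤ C * n :=
    (eventually_ge_atTop 2).and_frequently hC
  have : Nonempty (Fin K) := by
    obtain ⟨n, h1, h2⟩ := hS.exists
    obtain ⟨_, s, _⟩ := hsc n h1 h2
    exact ⟨s 0⟩
  have hne : NeBot (atTop ⊓ 𝓟 {n : ℕ | 2 ≤ n ∧ cpx e n ≤ C * n}) := frequently_iff_neBot.mp hS
  obtain ⟨U, hUle⟩ : ∃ U : Ultrafilter ℕ,
      (U : Filter ℕ) ≤ atTop ⊓ 𝓟 {n : ℕ | 2 ≤ n ∧ cpx e n ≤ C * n} :=
    ⟨Ultrafilter.of _, Ultrafilter.of_le _⟩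
  have hU : (U : Filter ℕ) ≤ atTop := hUle.trans inf_le_left
  have hUS : ∀ᶠ n in (U : Filter ℕ), 2 ≤ n ∧ cpx e n ≤ C * n :=
    le_principal_iff.mp (hUle.trans inf_le_right)
  choose! N s Δ ζ hΔ hN0 hN1 hN2 hN3 hΔle hζle hmu using hsc
  have hs0 : ∀ t, ∃ j, ∀ᶠ n in (U : Filter ℕ), s n t = j := fun t =>
    Ultrafilter.eventually_exists_iff.mp (Eventually.of_forall fun n => ⟨s n t, rfl⟩)
  choose s0 hs0 using hs0
  have hNle : ∀ n, 2 ≤ n → cpx e n ≤ C * n → ∀ t, N n t ≤ t * C' * n := by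
    intro n h1 h2 t
    induction t with
    | zero => rw [hN0 n h1 h2]; exact Nat.zero_le _
    | succ t ih =>
      have := hN2 n h1 h2 t
      rw [Nat.succ_mul, Nat.add_mul]
      omega
  have hoo0 : oo e u 0 = 0 := by simp [oo]
  have hl1 : ∀ t, ∃ g, Tendsto (fun n : ℕ => (N n t : ℝ) / n) (U : Filter ℕ) (𝓝 g) := by
    intro t
    refine main_lim U _ (t * C') ?_
    filter_upwards [hUS] with n ⟨h1, h2⟩
    have hn : (0 : ℝ) < n := by exact_mod_cast (by omega : 0 < n)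
    refine ⟨by positivity, ?_⟩
    rw [div_le_iff₀ hn]
    exact_mod_cast hNle n h1 h2 t
  have hl2 : ∀ t, ∃ g, Tendsto (fun n : ℕ => (oo e u (N n t) : ℝ) / n) (U : Filter ℕ) (𝓝 g) := by
    intro t
    refine main_lim U _ (um * (t * C')) ?_
    filter_upwards [hUS] with n ⟨h1, h2⟩
    have hn : (0 : ℝ) < n := by exact_mod_cast (by omega : 0 < n)
    refine ⟨by positivity, ?_⟩
    rw [div_le_iff₀ hn]
    have h3 := (main_oo_add e u um hum (Nat.zero_le (N n t))).2
    rw [hoo0, mul_zero, add_zero, zero_add] at h3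
    have h4 : oo e u (N n t) ≤ um * (t * C') * n := by
      rw [mul_assoc um]
      exact h3.trans (Nat.mul_le_mul_left _ (hNle n h1 h2 t))
    exact_mod_cast h4
  choose γ1 hγ1 using hl1
  choose γ2 hγ2 using hl2
  let zz : Option (Fin K × Fin K) → ℕ → ℤ := fun j n =>
    j.elim (Δ n * x 0 - ζ n (s0 0)) fun j => ζ n j.1 - ζ n j.2
  let ix : ℕ → Option (Fin K × Fin K) := fun t =>
    Nat.casesOn t none fun t => some (s0 t, s0 (t + 1))
  let XX : ℕ → ℕ → ℤ := fun T n => Δ n * x (N n (T + 1)) - ζ n (s0 T)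
  obtain ⟨C3, hC3⟩ := formal hU hp hq hpq
    (fun j => ((fun n => (zz j n : ℚ) : ℕ → ℚ) : FF U)) (fun j => ⟨zz j, rfl⟩) C2 hC2
    (by
      intro j
      cases j with
      | none =>
        refine main_vle hU _ (|(x 0 : ℝ)| + 1) _ ?_
        filter_upwards [hUS] with n ⟨h1, h2⟩
        have h3 := hΔle n h1 h2
        have h4 := hζle n h1 h2 (s0 0)
        simp only [zz, Option.elim]
        push_cast
        refine (abs_sub _ _).trans ?_
        rw [abs_mul]
        have := mul_le_mul_of_nonneg_right h3 (abs_nonneg (x 0 : ℝ))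
        linarith
      | some j =>
        refine main_vle hU _ 2 _ ?_
        filter_upwards [hUS] with n ⟨h1, h2⟩
        have h3 := hζle n h1 h2 j.1
        have h4 := hζle n h1 h2 j.2
        simp only [zz, Option.elim]
        push_cast
        refine (abs_sub _ _).trans ?_
        linarith)
    (um : ℝ) (Nat.cast_nonneg _) (fun t => (γ1 t, γ2 t))
    (by
      refine Prod.ext ?_ ?_
      · refine tendsto_nhds_unique (hγ1 0) (tendsto_const_nhds.congr' ?_)
        filter_upwards [hUS] with n ⟨h1, h2⟩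
        simp [hN0 n h1 h2]
      · refine tendsto_nhds_unique (hγ2 0) (tendsto_const_nhds.congr' ?_)
        filter_upwards [hUS] with n ⟨h1, h2⟩
        simp [hN0 n h1 h2, hoo0])
    (by
      intro t
      refine le_of_tendsto_of_tendsto (hγ1 t) (hγ1 (t + 1)) ?_
      filter_upwards [hUS] with n ⟨h1, h2⟩
      exact div_le_div_of_nonneg_right (by exact_mod_cast hN1 n h1 h2 t) (Nat.cast_nonneg _))
    (by
      intro t
      refine le_of_tendsto_of_tendsto (hγ2 t) (hγ2 (t + 1)) ?_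
      filter_upwards [hUS] with n ⟨h1, h2⟩
      exact div_le_div_of_nonneg_right
        (by exact_mod_cast (main_oo_add e u um hum (hN1 n h1 h2 t)).1) (Nat.cast_nonneg _))
    (by
      intro t
      refine le_of_tendsto_of_tendsto ((hγ2 (t + 1)).sub (hγ2 t))
        (((hγ1 (t + 1)).sub (hγ1 t)).const_mul (um : ℝ)) ?_
      filter_upwards [hUS] with n ⟨h1, h2⟩
      have h3 : (oo e u (N n (t + 1)) : ℝ) + um * N n t ≤ oo e u (N n t) + um * N n (t + 1) := by
        exact_mod_cast (main_oo_add e u um hum (hN1 n h1 h2 t)).2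
      rw [← sub_div, ← sub_div, ← mul_div_assoc]
      exact div_le_div_of_nonneg_right (by linarith) (Nat.cast_nonneg _))
    lam hlam
    (by
      intro t
      refine le_of_tendsto_of_tendsto ((hγ1 t).add_const 1) (hγ1 (t + lam)) ?_
      filter_upwards [hUS] with n ⟨h1, h2⟩
      have hn : (0 : ℝ) < n := by exact_mod_cast (by omega : 0 < n)
      have h3 : (N n t : ℝ) + n ≤ N n (t + lam) := by exact_mod_cast hN3 n h1 h2 t
      rw [div_add_one hn.ne']
      exact div_le_div_of_nonneg_right h3 hn.le)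
    (fun t => ((fun n => mu p q e u (N n t) : ℕ → ℚ) : FF U))
    (fun t => germ_eq_E hU hp0 hq0 (fun n => N n t) (fun n => oo e u (N n t)) (γ1 t, γ2 t)
      (hγ1 t) (hγ2 t))
    ix (fun T => ((fun n => (XX T n : ℚ) : ℕ → ℚ) : FF U)) (fun T => ⟨XX T, rfl⟩)
    (by
      intro T
      induction T with
      | zero =>
        rw [Finset.sum_range_one, ← Germ.coe_mul, ← Germ.coe_mul, Germ.coe_eq]
        filter_upwards [hUS, hs0 0] with n ⟨h1, h2⟩ h3
        have h4 := hmu n h1 h2 0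
        rw [h3] at h4
        simp only [Pi.mul_apply, XX, zz, ix, Option.elim]
        rw [h4, hN0 n h1 h2]
      | succ T ih =>
        rw [Finset.sum_range_succ, ih, ← Germ.coe_mul, ← Germ.coe_mul, ← Germ.coe_mul,
          ← Germ.coe_add, Germ.coe_eq]
        filter_upwards [hUS, hs0 (T + 1)] with n ⟨h1, h2⟩ h3
        have h4 := hmu n h1 h2 (T + 1)
        rw [h3] at h4
        simp only [Pi.mul_apply, Pi.add_apply, XX, zz, ix, Option.elim]
        rw [h4]
        push_cast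
        ring)
  have hM0 : 0 ≤ max C3 C2 := hC2.trans (le_max_right _ _)
  have hx : ∀ t, ∀ᶠ n : ℕ in (U : Filter ℕ),
      |(x (N n t) : ℝ)| + 1 ≤ Real.exp ((max C3 C2 + 2) * n) := by
    intro t
    cases t with
    | zero =>
      filter_upwards [hUS, ev_const_le hU (|(x 0 : ℝ)| + 1) one_pos] with n ⟨h1, h2⟩ h3
      rw [hN0 n h1 h2]
      exact h3.trans (exp_mono_c (by linarith) n)
    | succ T =>
      filter_upwards [hUS, ev_const_le hU 3 one_pos, vLe_coe.mp (hC3 T) 1 one_pos]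
        with n ⟨h1, h2⟩ h3 h4
      rw [arch_apply, Rat.cast_intCast] at h4
      simp only [XX] at h4
      push_cast at h4
      have h5 := hζle n h1 h2 (s0 T)
      have h6 := one_le_abs_int (hΔ n h1 h2)
      have h7 : |(x (N n (T + 1)) : ℝ)| ≤ |(Δ n : ℝ) * x (N n (T + 1))| := by
        rw [abs_mul]
        exact le_mul_of_one_le_left (abs_nonneg _) h6
      have h8 : |(Δ n : ℝ) * x (N n (T + 1))| ≤
          |(Δ n : ℝ) * x (N n (T + 1)) - ζ n (s0 T)| + |(ζ n (s0 T) : ℝ)| := by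
        have := abs_add_le ((Δ n : ℝ) * x (N n (T + 1)) - ζ n (s0 T)) (ζ n (s0 T) : ℝ)
        rwa [sub_add_cancel] at this
      have h9 := exp_mono_c (c := C3 + 1) (c' := max C3 C2 + 1)
        (by linarith [le_max_left C3 C2]) n
      have h10 := exp_mono_c (c := C2) (c' := max C3 C2 + 1)
        (by linarith [le_max_right C3 C2]) n
      have h11 : (1 : ℝ) ≤ Real.exp ((max C3 C2 + 1) * n) := Real.one_le_exp (by positivity)
      have h12 : Real.exp ((max C3 C2 + 2) * n) =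
          Real.exp (1 * n) * Real.exp ((max C3 C2 + 1) * n) := by
        rw [← Real.exp_add]
        congr 1
        ring
      have h13 := mul_le_mul_of_nonneg_right h3 (Real.exp_pos ((max C3 C2 + 1) * n)).le
      rw [h12]
      linarith
  refine ⟨c * C' + (max C3 C2 + 2), fun D => Frequently.filter_mono (Eventually.frequently ?_) hU⟩
  filter_upwards [hUS, (eventually_all_finset (Finset.range ((D + 1) * lam))).mpr
    fun t _ => hx t] with n ⟨h1, h2⟩ h3 N' hN'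
  have h4 : ∀ k, k * n ≤ N n (k * lam) := by
    intro k
    induction k with
    | zero => simp
    | succ k ih =>
      have := hN3 n h1 h2 (k * lam)
      rw [Nat.succ_mul, Nat.succ_mul]
      omega
  have h5 : N' < N n ((D + 1) * lam) := by
    have := h4 (D + 1)
    rw [Nat.succ_mul] at this
    omega
  obtain ⟨t, ht, h6, h7⟩ := main_between (N n) N' (by rw [hN0 n h1 h2]; exact Nat.zero_le _) _ h5
  obtain ⟨j, rfl⟩ := Nat.exists_eq_add_of_le h6
  have h8 : j ≤ C' * n := by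
    have := hN2 n h1 h2 t
    omega
  have h9 : (j : ℝ) ≤ C' * n := by exact_mod_cast h8
  have h10 := hgr (N n t) j
  have h11 := h3 t (Finset.mem_range.mpr ht)
  have h12 : Real.exp (c * j) ≤ Real.exp (c * (C' * n)) :=
    Real.exp_le_exp.mpr (mul_le_mul_of_nonneg_left h9 hc0)
  have h13 := mul_le_mul h12 h11 (by positivity) (Real.exp_pos _).le
  rw [← Real.exp_add] at h13
  have h14 : (c * C' + (max C3 C2 + 2)) * n = c * (C' * n) + (max C3 C2 + 2) * n := by ring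
  rw [h14]
  linarith

end Pool.Agent.Work.MP_baf0bc_nt
end

-- merged part: Pool.Agent.Work.MP_baf0bc_nt.Final
section
/-! Consequences of `main`: rational base digit words and Collatz type itineraries. -/

set_option autoImplicit false

open Filter Topology

namespace Pool.Agent.Work.MP_baf0bc_nt

lemma exists_freq {α : Type*} (a : ℕ → α)
    (h : ¬ Tendsto (fun n : ℕ => (cpx a n : ℝ) / n) atTop atTop) :
    ∃ C : ℕ, ∃ᶠ n in atTop, cpx a n ≤ C * n := by
  rw [tendsto_atTop] at h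
  push Not at h
  obtain ⟨b, hb⟩ := h
  obtain ⟨C, hC⟩ := exists_nat_ge b
  refine ⟨C, (hb.and_eventually (eventually_ge_atTop 1)).mono fun n hn => ?_⟩
  have hn0 : (0 : ℝ) < n := by exact_mod_cast hn.2
  have h1 := hn.1
  rw [div_lt_iff₀ hn0] at h1
  have : (cpx a n : ℝ) ≤ (C : ℝ) * n := h1.le.trans (mul_le_mul_of_nonneg_right hC hn0.le)
  exact_mod_cast this

theorem rational_base (p q : ℕ) (hq : 2 ≤ q) (hpq : q < p) (hc : p.Coprime q) (x a : ℕ → ℤ)
    (ha : (Set.range a).Finite) (hrec : ∀ k, (q : ℤ) * x (k + 1) = (p : ℤ) * x k + a k)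
    (hx : (Set.range x).Infinite) :
    Tendsto (fun n : ℕ => (cpx a n : ℝ) / n) atTop atTop := by
  by_contra hcon
  obtain ⟨C, hC⟩ := exists_freq a hcon
  obtain ⟨C4, hC4⟩ := main p q (by omega) hq hc a ha (fun _ => 1) id x
    (fun k => by simpa using hrec k) C hC
  obtain ⟨A, hA⟩ : ∃ A : ℝ, ∀ k, |(a k : ℝ)| ≤ A := by
    obtain ⟨A, hA⟩ := (ha.image fun z : ℤ => |(z : ℝ)|).bddAbove
    exact ⟨A, fun k => hA ⟨a k, ⟨k, rfl⟩, rfl⟩⟩
  have hA0 : 0 ≤ A := (abs_nonneg _).trans (hA 0)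
  obtain ⟨k0, hk0⟩ : ∃ k0, A + 1 ≤ |(x k0 : ℝ)| := by
    by_contra h
    push Not at h
    refine hx ((Set.finite_Icc (-⌈A + 1⌉) ⌈A + 1⌉).subset ?_)
    rintro _ ⟨k, rfl⟩
    have h1 := (h k).le.trans (Int.le_ceil (A + 1))
    have h2 : |x k| ≤ ⌈A + 1⌉ := by exact_mod_cast h1
    exact abs_le.mp h2
  have hq0 : (0 : ℝ) < q := by positivity
  have hpq' : (q : ℝ) + 1 ≤ p := by exact_mod_cast hpq
  set ρ : ℝ := (p : ℝ) / q with hρ
  have hρ1 : 1 < ρ := by rw [hρ, one_lt_div hq0]; linarith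
  have hgrow : ∀ j : ℕ, ρ ^ j ≤ |(x (k0 + j) : ℝ)| - A := by
    intro j
    induction j with
    | zero => simpa using (by linarith)
    | succ j ih =>
      have h1 : (q : ℝ) * x (k0 + j + 1) = (p : ℝ) * x (k0 + j) + a (k0 + j) := by
        exact_mod_cast hrec (k0 + j)
      have h2 : (p : ℝ) * |(x (k0 + j) : ℝ)| - A ≤ q * |(x (k0 + j + 1) : ℝ)| := by
        have h3 : |(p : ℝ) * x (k0 + j)| ≤ |(q : ℝ) * x (k0 + j + 1)| + |(a (k0 + j) : ℝ)| := by
          have : (p : ℝ) * x (k0 + j) = (q : ℝ) * x (k0 + j + 1) - a (k0 + j) := by linarith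
          rw [this]; exact abs_sub _ _
        rw [abs_mul, abs_mul, Nat.abs_cast, Nat.abs_cast] at h3
        linarith [hA (k0 + j)]
      have h4 : (q : ℝ) * ρ ^ (j + 1) = p * ρ ^ j := by
        rw [pow_succ, hρ]; field_simp
      have h5 : (p : ℝ) * ρ ^ j ≤ p * (|(x (k0 + j) : ℝ)| - A) :=
        mul_le_mul_of_nonneg_left ih (by positivity)
      have h6 : (q : ℝ) * ρ ^ (j + 1) ≤ q * (|(x (k0 + j + 1) : ℝ)| - A) := by
        nlinarith
      rw [← add_assoc]
      exact le_of_mul_le_mul_left h6 hq0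
  have hl : 0 < Real.log ρ := Real.log_pos hρ1
  obtain ⟨D, hD⟩ := exists_nat_ge ((C4 + 1) / Real.log ρ + 1)
  obtain ⟨n, hn, hn1⟩ := ((hC4 (D + 1)).and_eventually
    ((eventually_ge_atTop k0).and (eventually_ge_atTop 1))).exists
  have h1 := hn (k0 + D * n) (by nlinarith [hn1.1])
  have h2 := hgrow (D * n)
  have h3 : ρ ^ (D * n) ≤ Real.exp (C4 * n) := by linarith
  have h4 : ((D * n : ℕ) : ℝ) * Real.log ρ ≤ C4 * n := by
    rw [← Real.log_pow, Real.log_le_iff_le_exp (by positivity)]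
    exact h3
  have h5 : (C4 + 1) / Real.log ρ ≤ D := by linarith
  rw [div_le_iff₀ hl] at h5
  have hn0 : (1 : ℝ) ≤ n := by exact_mod_cast hn1.2
  push_cast at h4
  nlinarith

lemma cpx_pigeon {α : Type*} (e : ℕ → α) (he : (Set.range e).Finite) (m K : ℕ)
    (h : cpx e m ≤ K) : ∃ i j, i < j ∧ j ≤ K ∧ ∀ l < m, e (i + l) = e (j + l) := by
  classical
  have hfin : (Set.range fun i : ℕ => fun j : Fin m => e (i + j.val)).Finite := by
    refine (Set.Finite.pi' (fun _ : Fin m => he)).subset ?_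
    rintro _ ⟨i, rfl⟩ j
    exact ⟨_, rfl⟩
  have hcard : hfin.toFinset.card < (Finset.range (K + 1)).card := by
    rw [Finset.card_range, ← Set.ncard_eq_toFinset_card _ hfin]
    exact Nat.lt_succ_of_le h
  obtain ⟨i, hi, j, hj, hij, hw⟩ := Finset.exists_ne_map_eq_of_card_lt_of_maps_to hcard
    (f := fun i : ℕ => fun j : Fin m => e (i + j.val)) (fun i _ => by simp)
  rw [Finset.mem_range] at hi hj
  rcases lt_or_gt_of_ne hij with h1 | h1
  · exact ⟨i, j, h1, by omega, fun l hl => congrFun hw ⟨l, hl⟩⟩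
  · exact ⟨j, i, h1, by omega, fun l hl => (congrFun hw ⟨l, hl⟩).symm⟩

theorem not_linear {α : Type*} (p q : ℕ) (hp : 2 ≤ p) (hq : 2 ≤ q) (hpq : p.Coprime q)
    (e : ℕ → α) (he : (Set.range e).Finite) (u : α → ℕ) (r : α → ℤ) (x : ℕ → ℤ)
    (hrec : ∀ k, (q : ℤ) * x (k + 1) = (p : ℤ) ^ u (e k) * x k + r (e k))
    (hinj : Function.Injective x) (C : ℕ) : ∃ᶠ m in atTop, C * m < cpx e m := by
  by_contra hcon
  have hev : ∀ᶠ m in atTop, cpx e m ≤ C * m := by
    rw [not_frequently] at hcon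
    exact hcon.mono fun m hm => not_lt.mp hm
  obtain ⟨C4, hC4⟩ := main p q hp hq hpq e he u r x hrec C hev.frequently
  obtain ⟨m0, hm0⟩ := eventually_atTop.mp hev
  have hl2 : 0 < Real.log 2 := Real.log_pos one_lt_two
  obtain ⟨D, hD⟩ := exists_nat_ge (max 1 (C4 / Real.log 2 + 2))
  have hD1 : 1 ≤ D := by exact_mod_cast (le_max_left _ _).trans hD
  obtain ⟨n, hn, hn1⟩ := ((hC4 (C * D)).and_eventually
    ((eventually_ge_atTop m0).and (eventually_ge_atTop 1))).exists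
  obtain ⟨i, j, hij, hj, hw⟩ := cpx_pigeon e he (D * n) (C * (D * n))
    (hm0 _ (by nlinarith [hn1.1]))
  have hdiv : ∀ l ≤ D * n, ∃ s : ℕ,
      (q : ℤ) ^ l * (x (j + l) - x (i + l)) = (p : ℤ) ^ s * (x j - x i) := by
    intro l
    induction l with
    | zero => intro _; exact ⟨0, by simp⟩
    | succ l ih =>
      intro hl
      obtain ⟨s, hs⟩ := ih (by omega)
      refine ⟨u (e (j + l)) + s, ?_⟩
      have h1 := hrec (j + l)
      have h2 := hrec (i + l)
      rw [hw l (by omega)] at h2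
      rw [pow_succ, pow_add, ← add_assoc, ← add_assoc, mul_assoc ((p : ℤ) ^ u (e (j + l))), ← hs]
      linear_combination (q : ℤ) ^ l * h1 - (q : ℤ) ^ l * h2
  obtain ⟨s, hs⟩ := hdiv (D * n) le_rfl
  have hcop : IsCoprime ((q : ℤ) ^ (D * n)) ((p : ℤ) ^ s) :=
    (Nat.isCoprime_iff_coprime.mpr hpq.symm).pow
  have hdvd : (q : ℤ) ^ (D * n) ∣ x j - x i := hcop.dvd_of_dvd_mul_left ⟨_, hs.symm⟩
  have hne : x j - x i ≠ 0 := sub_ne_zero.mpr fun h => hij.ne' (hinj h)
  have hle : (q : ℤ) ^ (D * n) ≤ |x j - x i| :=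
    Int.le_of_dvd (abs_pos.mpr hne) ((dvd_abs _ _).mpr hdvd)
  have hle' : (q : ℝ) ^ (D * n) ≤ |(x j : ℝ) - x i| := by exact_mod_cast hle
  have h1 := hn j (by nlinarith)
  have h2 := hn i (by nlinarith)
  have h3 : (2 : ℝ) ^ (D * n) ≤ 2 * Real.exp (C4 * n) := by
    have : (2 : ℝ) ^ (D * n) ≤ (q : ℝ) ^ (D * n) :=
      pow_le_pow_left₀ (by norm_num) (by exact_mod_cast hq) _
    linarith [abs_sub (x j : ℝ) (x i)]
  have h4 : ((D * n : ℕ) : ℝ) * Real.log 2 ≤ Real.log 2 + C4 * n := by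
    rw [← Real.log_pow, Real.log_le_iff_le_exp (by positivity), Real.exp_add,
      Real.exp_log (by norm_num)]
    exact h3
  have h5 : C4 / Real.log 2 ≤ D - 2 := by linarith [le_max_right 1 (C4 / Real.log 2 + 2)]
  rw [div_le_iff₀ hl2] at h5
  have hn0 : (1 : ℝ) ≤ n := by exact_mod_cast hn1.2
  push_cast at h4
  nlinarith

end Pool.Agent.Work.MP_baf0bc_nt
end
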