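import Pool.Agent.Work.MP_baf0bc_nt.CoreE

/-! Module reduction over the ring spanned by the monomials.

Plan for `setup`. `R` = the `k0`-subalgebra of `FF U` whose carrier is the span of `E '' Γ`
(closed under products by `E_mul`, contains `1 = E 0`); its elements are exactly the `ev ρ` with
`ρ.support ⊆ Γ` (`Finsupp.mem_span_image_iff_linearCombination`). `exists_maximal_linearIndepOn R z`
gives a set `I` with `z` independent over `R` on `I` and for `j ∉ I` some `a j ≠ 0` in `R` with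
`a j • z j` in the span. `Q = ∏ j, a j` (`a j = 1` for `j ∈ I`), `Q * z j = ∑ i : I, Qc j i * z i`
with `Qc j i = ev (r j i)`; `S0` = union of the supports of the `r j i`. For each `t` and `g`
choose `κ' t g` with `E (γ t) * E g = κ' * E (γ t + g)` and put
`ρ t i = ∑ g ∈ (r (s t) i).support, single (γ t + g) (κ t * κ' t g * r (s t) i g)`.
Independence: a relation `∑ c (i,g) • z i * E g = 0` regroups as `∑ i, (ev ..) • z i = 0` over `R`;
then use `E_indep` (or use `linearIndependent_smul` for the tower `k0`, `R`, `FF U`). -/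

set_option autoImplicit false

open Filter Topology

namespace Pool.Agent.Work.MP_baf0bc_nt

open Pool.Agent.Lib.Subspace

variable {U : Ultrafilter ℕ} {p q : ℕ}

/-- Evaluation of a finite formal sum of monomials. -/
noncomputable def ev (hU : (U : Filter ℕ) ≤ atTop) (p q : ℕ) (ρ : ℝ × ℝ →₀ k0 hU) : FF U :=
  ∑ g ∈ ρ.support, (ρ g : FF U) * E U p q g

lemma ev_eq (hU : (U : Filter ℕ) ≤ atTop) (ρ : ℝ × ℝ →₀ k0 hU) :
    ev hU p q ρ = Finsupp.linearCombination (k0 hU) (E U p q) ρ := by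
  rw [Finsupp.linearCombination_apply]; rfl

lemma ev_sum (hU : (U : Filter ℕ) ≤ atTop) {α : Type*} (s : Finset α)
    (ρ : α → ℝ × ℝ →₀ k0 hU) : ev hU p q (∑ t ∈ s, ρ t) = ∑ t ∈ s, ev hU p q (ρ t) := by
  simp only [ev_eq, map_sum]

lemma formala_abs {k F G : Type*} [Field k] [Field F] [Algebra k F] [AddCommGroup G]
    (E : G → F) (hE : LinearIndependent k E) (h0 : E 0 = 1)
    (hmul : ∀ a b, ∃ κ : k, E a * E b = κ • E (a + b))
    {J : Type} [Fintype J] (z : J → F) (Γ : AddSubmonoid G) (γ : ℕ → G)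
    (m : ℕ → F) (hm : ∀ t, ∃ κ : k, m t = κ • E (γ t)) (s : ℕ → J) :
    ∃ (I : Finset J) (ρQ : G →₀ k) (S0 : Finset G) (ρ : ℕ → I → G →₀ k),
      Finsupp.linearCombination k E ρQ ≠ 0 ∧ (∀ g ∈ ρQ.support, g ∈ Γ) ∧ (∀ g ∈ S0, g ∈ Γ) ∧
      LinearIndependent k (fun x : I × Γ => z x.1.1 * E x.2.1) ∧
      (∀ t i, ∀ g ∈ (ρ t i).support, g - γ t ∈ S0) ∧
      ∀ t, Finsupp.linearCombination k E ρQ * (m t * z (s t)) =
        ∑ i : I, z i.1 * Finsupp.linearCombination k E (ρ t i) := by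
  classical
  choose κ' hκ' using hmul
  choose κ hκ using hm
  have hone : (1 : F) ∈ Submodule.span k (E '' (Γ : Set G)) :=
    Submodule.subset_span ⟨0, Γ.zero_mem, h0⟩
  have hprod : ∀ x y : F, x ∈ Submodule.span k (E '' (Γ : Set G)) →
      y ∈ Submodule.span k (E '' (Γ : Set G)) → x * y ∈ Submodule.span k (E '' (Γ : Set G)) := by
    intro x y hx hy
    have h := Submodule.mul_mem_mul hx hy
    rw [Submodule.span_mul_span] at h
    refine Submodule.span_le.2 ?_ h
    rintro _ ⟨_, ⟨a, ha, rfl⟩, _, ⟨b, hb, rfl⟩, rfl⟩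
    change E a * E b ∈ Submodule.span k (E '' (Γ : Set G))
    rw [hκ']
    exact Submodule.smul_mem _ _ (Submodule.subset_span ⟨a + b, Γ.add_mem ha hb, rfl⟩)
  let R : Subalgebra k F := (Submodule.span k (E '' (Γ : Set G))).toSubalgebra hone hprod
  have hR : ∀ x : R, ∃ l : G →₀ k, (∀ g ∈ l.support, g ∈ Γ) ∧
      Finsupp.linearCombination k E l = x := fun x => by
    obtain ⟨l, hl, h⟩ := (Finsupp.mem_span_image_iff_linearCombination k).1
      (show (x : F) ∈ Submodule.span k (E '' (Γ : Set G)) from x.2)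
    exact ⟨l, fun g hg => (Finsupp.mem_supported k l).1 hl hg, h⟩
  choose r hr1 hr2 using hR
  obtain ⟨I, hI, hI'⟩ := exists_maximal_linearIndepOn R z
  lift I to Finset J using I.toFinite
  have ha : ∀ j, ∃ a : R, a ≠ 0 ∧ a • z j ∈ Submodule.span R (z '' (I : Set J)) := by
    intro j
    by_cases hj : j ∈ (I : Set J)
    · exact ⟨1, one_ne_zero, Submodule.smul_mem _ _ (Submodule.subset_span ⟨j, hj, rfl⟩)⟩
    · exact hI' j hj
  choose a ha0 ha using ha
  have hQ0 : ∏ j, a j ≠ 0 := Finset.prod_ne_zero_iff.2 fun j _ => ha0 j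
  have hc : ∀ j, ∃ c : I → R, ∑ i : I, c i • z i.1 = (∏ j, a j) • z j := by
    intro j
    have h : (∏ j, a j) • z j ∈ Submodule.span R (z '' (I : Set J)) := by
      rw [← Finset.prod_erase_mul _ _ (Finset.mem_univ j), mul_smul]
      exact Submodule.smul_mem _ _ (ha j)
    exact (Fintype.mem_span_image_iff_exists_fun R).1 h
  choose c hc using hc
  refine ⟨I, r (∏ j, a j),
    Finset.univ.biUnion fun j => Finset.univ.biUnion fun i => (r (c j i)).support,
    fun t i => ∑ g ∈ (r (c (s t) i)).support,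
      Finsupp.single (γ t + g) (κ t * κ' (γ t) g * r (c (s t) i) g), ?_, hr1 _, ?_, ?_, ?_, ?_⟩
  · rw [hr2]
    exact fun h => hQ0 (Subtype.ext h)
  · intro g hg
    obtain ⟨j, _, hg⟩ := Finset.mem_biUnion.1 hg
    obtain ⟨i, _, hg⟩ := Finset.mem_biUnion.1 hg
    exact hr1 _ g hg
  · have hb : LinearIndependent k (fun g : Γ => (⟨E g.1,
        Submodule.subset_span ⟨g.1, g.2, rfl⟩⟩ : R)) :=
      LinearIndependent.of_comp R.val.toLinearMap (hE.comp Subtype.val Subtype.val_injective)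
    have h2 := (linearIndependent_smul hb hI).comp Prod.swap Prod.swap_injective
    have e : (fun x : I × Γ => z x.1.1 * E x.2.1) = fun x : I × Γ => E x.2.1 * z x.1.1 :=
      funext fun x => mul_comm _ _
    rw [e]
    exact h2
  · intro t i g hg
    obtain ⟨g', hg', h⟩ := Finset.mem_biUnion.1 (Finsupp.support_finsetSum hg)
    have := Finset.mem_singleton.1 (Finsupp.support_single_subset h)
    rw [this, add_sub_cancel_left]
    exact Finset.mem_biUnion.2 ⟨s t, Finset.mem_univ _,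
      Finset.mem_biUnion.2 ⟨i, Finset.mem_univ _, hg'⟩⟩
  · intro t
    have e1 : ∀ i : I, Finsupp.linearCombination k E (∑ g ∈ (r (c (s t) i)).support,
        Finsupp.single (γ t + g) (κ t * κ' (γ t) g * r (c (s t) i) g)) =
        m t * (c (s t) i : F) := by
      intro i
      rw [map_sum, ← hr2 (c (s t) i), Finsupp.linearCombination_apply, Finsupp.sum,
        Finset.mul_sum]
      refine Finset.sum_congr rfl fun g _ => ?_
      rw [Finsupp.linearCombination_single, hκ, smul_mul_smul_comm, hκ', smul_smul]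
      congr 1
      ring
    simp only [e1]
    rw [hr2, mul_left_comm]
    have e2 : ((∏ j, a j : R) : F) * z (s t) = ∑ i : I, (c (s t) i : F) * z i.1 := (hc (s t)).symm
    rw [e2, Finset.mul_sum]
    exact Finset.sum_congr rfl fun i _ => by ring

theorem setup (hU : (U : Filter ℕ) ≤ atTop) (hp : 2 ≤ p) (hq : 2 ≤ q) (hpq : p.Coprime q)
    {J : Type} [Fintype J] (z : J → FF U) (Γ : AddSubmonoid (ℝ × ℝ)) (γ : ℕ → ℝ × ℝ)
    (m : ℕ → FF U) (hm : ∀ t, ∃ κ : k0 hU, κ ≠ 0 ∧ m t = (κ : FF U) * E U p q (γ t))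
    (s : ℕ → J) :
    ∃ (I : Finset J) (ρQ : ℝ × ℝ →₀ k0 hU) (S0 : Finset (ℝ × ℝ))
      (ρ : ℕ → I → ℝ × ℝ →₀ k0 hU),
      ev hU p q ρQ ≠ 0 ∧ (∀ g ∈ ρQ.support, g ∈ Γ) ∧ (∀ g ∈ S0, g ∈ Γ) ∧
      LinearIndependent (k0 hU) (fun x : I × Γ => z x.1.1 * E U p q x.2.1) ∧
      (∀ t i, ∀ g ∈ (ρ t i).support, g - γ t ∈ S0) ∧
      ∀ t, ev hU p q ρQ * (m t * z (s t)) = ∑ i : I, z i.1 * ev hU p q (ρ t i) := by
  simp only [ev_eq]
  refine formala_abs (k := k0 hU) (E U p q) (E_indep hU hp hq hpq) E_zero (fun a b => ?_) z Γ γ m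
    (fun t => ?_) s
  · obtain ⟨κ, _, h⟩ := E_mul hU (by omega : 0 < p) (by omega : 0 < q) a b
    exact ⟨κ, h⟩
  · obtain ⟨κ, _, h⟩ := hm t
    exact ⟨κ, h⟩

end Pool.Agent.Work.MP_baf0bc_nt
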