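import Mathlib

set_option autoImplicit false

namespace Pool.Agent.Work.MP_baf0bc_nt

/-- The number of distinct blocks `(a i, ..., a (i+L-1))` of `L` consecutive letters that start
at a position `i < N` of the infinite word `a 0, a 1, a 2, ...`. -/
noncomputable def pcx {α : Type*} (a : ℕ → α) (N L : ℕ) : ℕ :=
  ((fun i : ℕ => fun j : Fin L => a (i + j.val)) '' Set.Iio N).ncard

end Pool.Agent.Work.MP_baf0bc_nt
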