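import Mathlib
import Pool.Agent.Work.MP_baf0bc_nt.FormalC
import Pool.Agent.Work.MP_baf0bc_nt.PDefs

-- merged part: Pool.Agent.Work.MP_baf0bc_nt.PD1
section
/-! Two abstract lemmas: triangular elimination along levels, and almost invariant finite sets
for a finitely generated additive monoid of reals. -/

set_option autoImplicit false

open Filter Topology

namespace Pool.Agent.Work.MP_baf0bc_nt

lemma pd_exchange {k ι : Type*} [Field k] [Nonempty ι] (lev : ι → ℝ) (μ : ℝ)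
    (Good : ℝ → (ι → k) → Prop)
    (h2 : ∀ b b' v u (c : k), b < b' → Good b v → Good b' u → Good b (v - c • u))
    (h3 : ∀ b v, Good b v → ∃ i, lev i ≤ b + μ ∧ v i ≠ 0)
    (s : Finset ℝ) (h1 : ∀ b ∈ s, ∃ r, Good b r) :
    ∃ (φ : ℝ → ι) (v : ℝ → ι → k),
      (∀ b ∈ s, Good b (v b) ∧ lev (φ b) ≤ b + μ ∧ v b (φ b) ≠ 0 ∧
        ∀ b' ∈ s, b < b' → v b (φ b') = 0) ∧
      ∀ a, (∀ b ∈ s, a < b) → ∀ r, Good a r → ∃ r', Good a r' ∧ ∀ b ∈ s, r' (φ b) = 0 := by
  classical
  induction s using Finset.induction_on_min with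
  | empty =>
    exact ⟨fun _ => Classical.arbitrary ι, fun _ _ => 0, by simp,
      fun a _ r hr => ⟨r, hr, by simp⟩⟩
  | insert a0 s ha0 ih =>
    obtain ⟨φ, v, hP, hK⟩ := ih fun b hb => h1 b (Finset.mem_insert_of_mem hb)
    obtain ⟨r0, hr0⟩ := h1 a0 (Finset.mem_insert_self _ _)
    obtain ⟨r1, hr1, hr1s⟩ := hK a0 ha0 r0 hr0
    obtain ⟨i, hi1, hi2⟩ := h3 a0 r1 hr1
    have hne : ∀ b ∈ s, b ≠ a0 := fun b hb => (ha0 b hb).ne'
    refine ⟨Function.update φ a0 i, Function.update v a0 r1, ?_, ?_⟩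
    · intro b hb
      rcases Finset.mem_insert.1 hb with rfl | hb
      · simp only [Function.update_self]
        refine ⟨hr1, hi1, hi2, fun b' hb' hlt => ?_⟩
        rcases Finset.mem_insert.1 hb' with rfl | hb'
        · exact absurd hlt (lt_irrefl _)
        · rw [Function.update_of_ne (hne b' hb')]
          exact hr1s b' hb'
      · rw [Function.update_of_ne (hne b hb), Function.update_of_ne (hne b hb)]
        obtain ⟨p1, p2, p3, p4⟩ := hP b hb
        refine ⟨p1, p2, p3, fun b' hb' hlt => ?_⟩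
        rcases Finset.mem_insert.1 hb' with h | hb'
        · rw [h] at hlt
          exact absurd (hlt.trans (ha0 b hb)) (lt_irrefl _)
        · rw [Function.update_of_ne (hne b' hb')]
          exact p4 b' hb' hlt
    · intro a ha r hr
      obtain ⟨r', hr', hr's⟩ := hK a (fun b hb => ha b (Finset.mem_insert_of_mem hb)) r hr
      refine ⟨r' - (r' i / r1 i) • r1,
        h2 a a0 r' r1 _ (ha a0 (Finset.mem_insert_self _ _)) hr' hr1, fun b hb => ?_⟩
      rcases Finset.mem_insert.1 hb with rfl | hb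
      · simp only [Function.update_self, Pi.sub_apply, Pi.smul_apply, smul_eq_mul]
        rw [div_mul_cancel₀ _ hi2, sub_self]
      · rw [Function.update_of_ne (hne b hb)]
        simp only [Pi.sub_apply, Pi.smul_apply, smul_eq_mul, hr's b hb, hr1s b hb, mul_zero,
          sub_self]

/-- The sums of at most `m` copies of each element of `S`. -/
noncomputable def pdBox (S : Finset ℝ) (m : ℕ) : Finset ℝ := by
  classical
  exact (Fintype.piFinset fun _ : S => Finset.range (m + 1)).image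
    fun n : S → ℕ => ∑ g : S, (n g : ℝ) * g.1

lemma pdBox_card (S : Finset ℝ) (m : ℕ) : (pdBox S m).card ≤ (m + 1) ^ S.card := by
  classical
  unfold pdBox
  refine Finset.card_image_le.trans ?_
  rw [Fintype.card_piFinset]
  simp

lemma pdBox_ne (S : Finset ℝ) (m : ℕ) : (pdBox S m).Nonempty := by
  classical
  unfold pdBox
  refine Finset.Nonempty.image ⟨fun _ => 0, ?_⟩ _
  simp

lemma pdBox_add (S : Finset ℝ) (m : ℕ) {b g : ℝ} (hb : b ∈ pdBox S m) (hg : g ∈ S) :
    b + g ∈ pdBox S (m + 1) := by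
  classical
  unfold pdBox at hb ⊢
  obtain ⟨n, hn, rfl⟩ := Finset.mem_image.1 hb
  refine Finset.mem_image.2 ⟨n + Pi.single ⟨g, hg⟩ 1, ?_, ?_⟩
  · rw [Fintype.mem_piFinset] at hn ⊢
    intro a
    have h1 := Finset.mem_range.1 (hn a)
    have h2 : (Pi.single ⟨g, hg⟩ 1 : S → ℕ) a ≤ 1 := by
      rw [Pi.single_apply]
      split_ifs <;> omega
    rw [Finset.mem_range, Pi.add_apply]
    omega
  · simp only [Pi.add_apply, Nat.cast_add, add_mul, Finset.sum_add_distrib]
    congr 1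
    rw [Finset.sum_eq_single ⟨g, hg⟩]
    · simp
    · intro a _ ha
      simp [Pi.single_eq_of_ne ha]
    · simp

lemma pd_folner (S : Finset ℝ) {η : ℝ} (hη : 0 < η) :
    ∃ B' B : Finset ℝ, B'.Nonempty ∧ (∀ b ∈ B', ∀ g ∈ S, b + g ∈ B) ∧
      (B.card : ℝ) ≤ (1 + η) * B'.card := by
  by_contra hcon
  push Not at hcon
  have h1 : ∀ m, (1 + η) * ((pdBox S m).card : ℝ) < (pdBox S (m + 1)).card := fun m =>
    hcon _ _ (pdBox_ne S m) fun b hb g hg => pdBox_add S m hb hg
  have h2 : ∀ m, (1 + η) ^ m ≤ ((pdBox S m).card : ℝ) := by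
    intro m
    induction m with
    | zero =>
      have := (pdBox_ne S 0).card_pos
      rw [pow_zero]
      exact_mod_cast this
    | succ m ih =>
      rw [pow_succ, mul_comm]
      exact (mul_le_mul_of_nonneg_left ih (by linarith)).trans (h1 m).le
  have h3 := (tendsto_pow_const_div_const_pow_of_one_lt S.card (r := 1 + η) (by linarith)).comp
    (tendsto_add_atTop_nat 1)
  have h4 : (0 : ℝ) < 1 / (1 + η) := by positivity
  obtain ⟨m, hm⟩ := (h3.eventually (gt_mem_nhds h4)).exists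
  simp only [Function.comp] at hm
  have h5 : (((m + 1 : ℕ) : ℝ)) ^ S.card ≥ (1 + η) ^ m := by
    refine (h2 m).trans ?_
    exact_mod_cast pdBox_card S m
  rw [div_lt_div_iff₀ (by positivity) (by positivity), one_mul, pow_succ] at hm
  have h6 := mul_le_mul_of_nonneg_right h5 (by linarith : (0 : ℝ) ≤ 1 + η)
  linarith

lemma pd_sup {ι : Type*} [Fintype ι] (f : ι → ℝ) (P : ι → Prop) (a : ℝ)
    (h : ∀ i, P i → f i < a) : ∃ c, c < a ∧ ∀ i, P i → f i ≤ c := by
  classical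
  by_cases hn : (Finset.univ.filter P).Nonempty
  · obtain ⟨i, hi, hm⟩ := Finset.exists_max_image _ f hn
    exact ⟨f i, h i (Finset.mem_filter.1 hi).2,
      fun j hj => hm j (Finset.mem_filter.2 ⟨Finset.mem_univ _, hj⟩)⟩
  · exact ⟨a - 1, by linarith, fun i hi =>
      absurd ⟨i, Finset.mem_filter.2 ⟨Finset.mem_univ _, hi⟩⟩ hn⟩

end Pool.Agent.Work.MP_baf0bc_nt
end

-- merged part: Pool.Agent.Work.MP_baf0bc_nt.PD2
section
/-! The Diophantine core: an element of the module spanned by boundedly many integers over the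
monomials `(q/p)^(t n)` which is not small at the real place cannot be too divisible by `q`. -/

set_option autoImplicit false

open Filter Topology

namespace Pool.Agent.Work.MP_baf0bc_nt

open Pool.Agent.Lib.Subspace

variable {U : Ultrafilter ℕ} {p q : ℕ}

lemma pd_esz (hpq : p.Coprime q) (ℓ : Nat.Primes) (hℓ : ℓ.1 ∣ q) (t : ℝ) :
    esz p q ℓ (t, t) = -(t * (q.factorization ℓ.1 * Real.log ℓ.1)) := by
  have h1 : p.factorization ℓ.1 = 0 := Nat.factorization_eq_zero_of_not_dvd fun h =>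
    ℓ.2.one_lt.ne' (Nat.eq_one_of_dvd_coprimes hpq h hℓ)
  simp only [esz, h1]
  push_cast
  ring

lemma pd_fac_nonneg (ℓ : Nat.Primes) : 0 ≤ (q.factorization ℓ.1 : ℝ) * Real.log ℓ.1 :=
  mul_nonneg (Nat.cast_nonneg _) (Real.log_nonneg (by exact_mod_cast ℓ.2.one_lt.le))

lemma pd_esz_anti (hpq : p.Coprime q) (ℓ : Nat.Primes) (hℓ : ℓ.1 ∣ q) {s t : ℝ} (h : s ≤ t) :
    esz p q ℓ (t, t) ≤ esz p q ℓ (s, s) := by
  rw [pd_esz hpq ℓ hℓ, pd_esz hpq ℓ hℓ]
  have := mul_le_mul_of_nonneg_right h (pd_fac_nonneg (q := q) ℓ)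
  linarith only [this]

lemma pd_asz (t : ℝ) : asz p q (t, t) = -(t * (Real.log p - Real.log q)) := by
  simp only [asz]
  ring

theorem coreQ (hU : (U : Filter ℕ) ≤ atTop) (hp : 0 < p) (hq : 0 < q) (hpq : p.Coprime q)
    {J : Type*} [Fintype J] [DecidableEq J] (y : J → FF U) (hy : ∀ j, IsInt (y j)) (C' : ℝ)
    (hyC : ∀ j, VLe arch C' (y j)) (γ : J → ℝ) (A : Matrix J J (k0 hU)) (hA : A.det ≠ 0)
    (g : J → ℝ)
    (hg : ∀ ℓ : Nat.Primes, ℓ.1 ∣ q → ∀ j, VLe (pad ℓ) (esz p q ℓ (γ j + g j, γ j + g j))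
      (∑ k, (A j k : FF U) * (y k * E U p q (γ k, γ k))))
    (hsum : (Fintype.card J : ℝ) * C' < (∑ j, g j) * Real.log q) :
    ¬ LinearIndependent (k0 hU) (fun j => y j * E U p q (γ j, γ j)) := by
  classical
  intro hli
  obtain ⟨γs, h1, h2⟩ : ∃ γs : ℝ × ℝ, (∀ j, 1 ≤ γ j + γs.1) ∧ ∀ j, γ j + γs.2 ≤ 0 := by
    have e1 : ∀ j, |γ j| ≤ ∑ j, |γ j| := fun j =>
      Finset.single_le_sum (f := fun j => |γ j|) (fun i _ => abs_nonneg _) (Finset.mem_univ j)
    refine ⟨(1 + ∑ j, |γ j|, -∑ j, |γ j|), fun j => ?_, fun j => ?_⟩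
    · have e2 := neg_abs_le (γ j)
      have := e1 j
      simp only
      linarith only [e2, this]
    · have e2 := le_abs_self (γ j)
      have := e1 j
      simp only
      linarith
  have hEs : E U p q γs ≠ 0 := E_ne_zero hp hq γs
  refine coreG hU (PP p q) (fun j => y j * E U p q (γ j, γ j) * E U p q γs) ?_
    (fun ℓ => if ℓ.1 ∣ q then A else 1) ?_ (fun j => C' + asz p q (γ j, γ j) + asz p q γs)
    (fun ℓ j => esz p q ℓ (γ j, γ j) + esz p q ℓ γs -
      g j * (q.factorization ℓ.1 * Real.log ℓ.1)) ?_ ?_ ?_ ?_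
  · intro j
    rw [mul_assoc]
    exact (hy j).mul (isInt_E_mul hU hp hq _ _ (h1 j) (h2 j))
  · intro ℓ _
    by_cases h : ℓ.1 ∣ q
    · simpa [h] using hA
    · simp [h]
  · intro j
    exact ((hyC j).mul (vLe_E_arch hU hp hq _)).mul (vLe_E_arch hU hp hq _)
  · intro ℓ _ j
    by_cases h : ℓ.1 ∣ q
    · simp only [if_pos h]
      have e : ∑ k, (A j k : FF U) * (y k * E U p q (γ k, γ k) * E U p q γs) =
          (∑ k, (A j k : FF U) * (y k * E U p q (γ k, γ k))) * E U p q γs := by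
        rw [Finset.sum_mul]
        exact Finset.sum_congr rfl fun k _ => by ring
      rw [e]
      refine ((hg ℓ h j).mul (vLe_E_pad hU hp hq ℓ γs)).mono (le_of_eq ?_)
      rw [pd_esz hpq ℓ h, pd_esz hpq ℓ h]
      ring
    · simp only [if_neg h]
      rw [coree_row_one]
      refine ((((hy j).vLe_pad ℓ).mul (vLe_E_pad hU hp hq ℓ (γ j, γ j))).mul
        (vLe_E_pad hU hp hq ℓ γs)).mono (le_of_eq ?_)
      rw [Nat.factorization_eq_zero_of_not_dvd h]
      push_cast
      ring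
  · rw [Finset.sum_comm, ← Finset.sum_add_distrib]
    have e : ∀ j, C' + asz p q (γ j, γ j) + asz p q γs +
        ∑ ℓ ∈ PP p q, (esz p q ℓ (γ j, γ j) + esz p q ℓ γs -
          g j * (q.factorization ℓ.1 * Real.log ℓ.1)) = C' - g j * Real.log q := by
      intro j
      rw [Finset.sum_sub_distrib, Finset.sum_add_distrib, ← Finset.mul_sum,
        emon_sum hp hq (Dvd.intro_left p rfl)]
      have s1 := sum_sz hp hq (γ j, γ j)
      have s2 := sum_sz hp hq γs
      linarith only [s1, s2]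
    rw [Finset.sum_congr rfl fun j _ => e j, Finset.sum_sub_distrib, Finset.sum_const,
      Finset.card_univ, nsmul_eq_mul, ← Finset.sum_mul]
    linarith
  · have hk : LinearMap.ker (LinearMap.mulRight (k0 hU) (E U p q γs)) = ⊥ := by
      rw [LinearMap.ker_eq_bot]
      exact mul_left_injective₀ hEs
    exact hli.map' _ hk

/-- The span of `G` over the monomials `(q/p)^(t n)`. -/
noncomputable def Msp (hU : (U : Filter ℕ) ≤ atTop) (p q : ℕ) (G : Set (FF U)) :
    Submodule (k0 hU) (FF U) :=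
  Submodule.span (k0 hU) {m | ∃ g ∈ G, ∃ t : ℝ, m = g * E U p q (t, t)}

lemma pd_not_vLe_one (hU : (U : Filter ℕ) ≤ atTop) {c : ℝ} (hc : c < 0) :
    ¬ VLe arch c (1 : FF U) := by
  intro h
  rw [← Germ.coe_one, vLe_coe] at h
  obtain ⟨n, h1, h2⟩ := ((h (-c / 2) (by linarith only [hc])).and (hU (eventually_ge_atTop 1))).exists
  have h3 : (1 : ℝ) ≤ n := by exact_mod_cast h2
  have h4 : Real.exp ((c + -c / 2) * n) < 1 := Real.exp_lt_one_iff.2 (by linarith only [hc, h3, mul_nonneg_of_nonpos_of_nonpos (le_of_lt (Mathlib.Tactic.Linarith.sub_neg_of_lt hc)) (Mathlib.Tactic.Linarith.sub_nonpos_of_le h3)])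
  simp only [Pi.one_apply, map_one] at h1
  linarith only [h4, h1]

lemma pd_not_vLe_E (hU : (U : Filter ℕ) ≤ atTop) (hp : 0 < p) (hq : 0 < q) (γ : ℝ × ℝ) {c : ℝ}
    (hc : c < asz p q γ) : ¬ VLe arch c (E U p q γ) := by
  intro h
  obtain ⟨κ, hκ, he⟩ := E_mul hU hp hq γ (-γ)
  have h1 := (h.mul (vLe_E_arch hU hp hq (-γ))).k0_mul good_arch κ⁻¹
  rw [he, add_neg_cancel, E_zero, mul_one, ← Subfield.coe_mul, inv_mul_cancel₀ hκ,
    Subfield.coe_one] at h1
  refine pd_not_vLe_one hU ?_ h1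
  simp only [asz, Prod.fst_neg, Prod.snd_neg] at hc ⊢
  linarith only [hc]

lemma pd_extract (hU : (U : Filter ℕ) ≤ atTop) {J : Type} (y : J → FF U) {w : FF U}
    (hw : w ∈ Msp hU p q (Set.range y)) : ∃ S : Finset ℝ, w ∈ Submodule.span (k0 hU)
      {m | ∃ j, ∃ t ∈ S, m = y j * E U p q (t, t)} := by
  classical
  obtain ⟨T, hT, hw⟩ := Submodule.mem_span_finite_of_mem_span hw
  have h1 : ∀ m : T, ∃ t : ℝ, ∃ j, m.1 = y j * E U p q (t, t) := by
    intro m
    obtain ⟨_, ⟨j, rfl⟩, t, ht⟩ := hT m.2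
    exact ⟨t, j, ht⟩
  choose t ht using h1
  refine ⟨Finset.univ.image t, Submodule.span_mono (fun m hm => ?_) hw⟩
  obtain ⟨j, hj⟩ := ht ⟨m, hm⟩
  exact ⟨j, t ⟨m, hm⟩, Finset.mem_image_of_mem _ (Finset.mem_univ _), hj⟩

theorem thmD (hU : (U : Filter ℕ) ≤ atTop) (hq : 2 ≤ q) (hqp : q < p) (hpq : p.Coprime q)
    {J : Type} [Fintype J] (y : J → FF U) (hy : ∀ j, IsInt (y j)) (C' : ℝ) (hC' : 0 ≤ C')
    (hyC : ∀ j, VLe arch C' (y j)) (w : FF U) (hw : w ∈ Msp hU p q (Set.range y)) (hw0 : w ≠ 0)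
    (hwi : VLe arch 0 w⁻¹) (D : ℝ)
    (hD : ∀ ℓ : Nat.Primes, ℓ.1 ∣ q → VLe (pad ℓ) (esz p q ℓ (D, D)) w) :
    (D - C' / (Real.log p - Real.log q)) * Real.log q ≤ Fintype.card J * C' := by
  classical
  have hp0 : 0 < p := by omega
  have hq0 : 0 < q := by omega
  have hlq : 0 < Real.log q := Real.log_pos (by exact_mod_cast hq)
  have hθ : 0 < Real.log p - Real.log q := by
    have := Real.log_lt_log (by exact_mod_cast hq0 : (0 : ℝ) < q) (by exact_mod_cast hqp :
      (q : ℝ) < p)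
    linarith only [this]
  set θ := Real.log p - Real.log q with hθdef
  set μ := C' / θ with hμ
  by_contra hcon
  push Not at hcon
  obtain ⟨η, hη, hη2⟩ : ∃ η : ℝ, 0 < η ∧
      (1 + η) * (Fintype.card J * C') < (D - μ) * Real.log q := by
    have hX : 0 ≤ (Fintype.card J : ℝ) * C' := by positivity
    refine ⟨((D - μ) * Real.log q - Fintype.card J * C') / (Fintype.card J * C' + 1),
      div_pos (by linarith only [hcon]) (by linarith only [hX]), ?_⟩
    have h1 : ((D - μ) * Real.log q - Fintype.card J * C') / (Fintype.card J * C' + 1) *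
        (Fintype.card J * C') < (D - μ) * Real.log q - Fintype.card J * C' := by
      rw [div_mul_eq_mul_div, div_lt_iff₀ (by linarith only [hX])]
      linarith only [hcon]
    linarith only [h1]
  obtain ⟨S, hS⟩ := pd_extract hU y hw
  obtain ⟨B', B, hB0, hBS, hBc⟩ := pd_folner S hη
  let gen : J × B → FF U := fun x => y x.1 * E U p q (x.2.1, x.2.1)
  obtain ⟨ι, a, ha, hsp, hli⟩ := exists_linearIndependent' (k0 hU) gen
  have : Finite ι := Finite.of_injective a ha
  have : Fintype ι := Fintype.ofFinite ι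
  have hcard : (Fintype.card ι : ℝ) ≤ Fintype.card J * B.card := by
    have := Fintype.card_le_of_injective a ha
    rw [Fintype.card_prod, Fintype.card_coe] at this
    exact_mod_cast this
  let lev : ι → ℝ := fun i => (a i).2.1
  let Good : ℝ → (ι → k0 hU) → Prop := fun b v => ∃ ρ : FF U,
    ∑ i, (v i : FF U) * gen (a i) = w * (E U p q (b, b) + ρ) ∧
      (∃ c, c < asz p q (b, b) ∧ VLe arch c ρ) ∧
      ∀ ℓ : Nat.Primes, ℓ.1 ∣ q → VLe (pad ℓ) (esz p q ℓ (b, b)) ρ
  have g1 : ∀ b ∈ B', ∃ r, Good b r := by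
    intro b hb
    have h1 : w * E U p q (b, b) ∈ Submodule.span (k0 hU) (Set.range gen) := by
      refine Submodule.span_induction (p := fun m _ => m * E U p q (b, b) ∈
        Submodule.span (k0 hU) (Set.range gen)) ?_ ?_ ?_ ?_ hS
      · rintro _ ⟨j, t, ht, rfl⟩
        obtain ⟨κ, -, he⟩ := E_mul hU hp0 hq0 (b, b) (t, t)
        have e : y j * E U p q (t, t) * E U p q (b, b) =
            κ • gen (j, ⟨b + t, hBS b hb t ht⟩) := by
          rw [mul_assoc, mul_comm (E U p q (t, t)), he]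
          simp only [gen, Prod.mk_add_mk]
          rw [Subfield.smul_def, smul_eq_mul]
          ring
        rw [e]
        exact Submodule.smul_mem _ _ (Submodule.subset_span ⟨_, rfl⟩)
      · simp
      · intro x z _ _ hx hz
        rw [add_mul]
        exact Submodule.add_mem _ hx hz
      · intro c x _ hx
        rw [smul_mul_assoc]
        exact Submodule.smul_mem _ _ hx
    rw [← hsp, Submodule.mem_span_range_iff_exists_fun] at h1
    obtain ⟨c, hc⟩ := h1
    refine ⟨c, 0, ?_, ⟨asz p q (b, b) - 1, by linarith only [], vLe_zero _ _⟩, fun ℓ _ => vLe_zero _ _⟩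
    rw [add_zero, ← hc]
    rfl
  have g2 : ∀ b b' v u (c : k0 hU), b < b' → Good b v → Good b' u → Good b (v - c • u) := by
    rintro b b' v u c hbb ⟨ρ, e1, ⟨c1, hc1, hρ⟩, hρ'⟩ ⟨σ, e2, ⟨c2, hc2, hσ⟩, hσ'⟩
    have hlt : asz p q (b', b') < asz p q (b, b) := by
      rw [pd_asz, pd_asz]
      linarith only [hθ, hbb, mul_pos_of_neg_of_neg (Mathlib.Tactic.Linarith.sub_neg_of_lt hθ) (Mathlib.Tactic.Linarith.sub_neg_of_lt hbb)]
    refine ⟨ρ - (c : FF U) * (E U p q (b', b') + σ), ?_,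
      ⟨max c1 (asz p q (b', b')), max_lt hc1 hlt, ?_⟩, fun ℓ hℓ => ?_⟩
    · have e3 : ∑ i, ((v - c • u) i : FF U) * gen (a i) =
          ∑ i, (v i : FF U) * gen (a i) - (c : FF U) * ∑ i, (u i : FF U) * gen (a i) := by
        rw [Finset.mul_sum, ← Finset.sum_sub_distrib]
        refine Finset.sum_congr rfl fun i _ => ?_
        simp only [Pi.sub_apply, Pi.smul_apply, smul_eq_mul]
        push_cast
        ring
      rw [e3, e1, e2]
      ring
    · refine VLe.sub hU (hρ.mono (le_max_left _ _)) (VLe.k0_mul good_arch c ?_)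
      exact VLe.add hU ((vLe_E_arch hU hp0 hq0 _).mono (le_max_right _ _))
        (hσ.mono (hc2.le.trans (le_max_right _ _)))
    · refine VLe.sub hU (hρ' ℓ hℓ) (VLe.k0_mul (good_pad ℓ) c ?_)
      exact (VLe.add hU (vLe_E_pad hU hp0 hq0 ℓ _) (hσ' ℓ hℓ)).mono
        (pd_esz_anti hpq ℓ hℓ hbb.le)
  have g3 : ∀ b v, Good b v → ∃ i, lev i ≤ b + μ ∧ v i ≠ 0 := by
    rintro b v ⟨ρ, e1, ⟨c1, hc1, hρ⟩, -⟩
    by_contra hn
    push Not at hn
    obtain ⟨c, hc, hci⟩ := pd_sup (fun i => C' + asz p q (lev i, lev i)) (fun i => v i ≠ 0)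
      (asz p q (b, b)) (by
        intro i hi
        have h1 : b + μ < lev i := lt_of_not_ge fun h => hi (hn i h)
        have h2 : μ * θ = C' := div_mul_cancel₀ _ hθ.ne'
        rw [pd_asz, pd_asz]
        linarith only [h2, hθ, h1, mul_pos_of_neg_of_neg (Mathlib.Tactic.Linarith.sub_neg_of_lt hθ) (Mathlib.Tactic.Linarith.sub_neg_of_lt h1)])
    have h1 : VLe arch c (∑ i, (v i : FF U) * gen (a i)) := by
      refine vLe_sum hU _ _ fun i _ => ?_
      by_cases hi : v i = 0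
      · rw [hi, Subfield.coe_zero, zero_mul]
        exact vLe_zero _ _
      · exact VLe.k0_mul good_arch _
          (((hyC _).mul (vLe_E_arch hU hp0 hq0 _)).mono (hci i hi))
    have h2 := hwi.mul h1
    rw [e1, ← mul_assoc, inv_mul_cancel₀ hw0, one_mul, zero_add] at h2
    have h3 := VLe.sub hU (h2.mono (le_max_left c c1)) (hρ.mono (le_max_right c c1))
    rw [add_sub_cancel_right] at h3
    exact pd_not_vLe_E hU hp0 hq0 _ (max_lt hc hc1) h3
  have : Nonempty ι := by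
    obtain ⟨b, hb⟩ := hB0
    obtain ⟨r, hr⟩ := g1 b hb
    obtain ⟨i, -⟩ := g3 b r hr
    exact ⟨i⟩
  obtain ⟨φ, v, hP, -⟩ := pd_exchange lev μ Good g2 g3 B' g1
  have hinj : Set.InjOn φ B' := by
    intro b hb b' hb' h
    by_contra hne
    rcases lt_or_gt_of_ne hne with hlt | hlt
    · exact (hP b hb).2.2.1 (h ▸ (hP b hb).2.2.2 b' hb' hlt)
    · exact (hP b' hb').2.2.1 (h ▸ (hP b' hb').2.2.2 b hb hlt)
  let R : ι → Prop := fun i => ∃ b ∈ B', φ b = i
  have hψ : ∀ i, ∃ b, R i → b ∈ B' ∧ φ b = i := by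
    intro i
    by_cases h : R i
    · obtain ⟨b, hb⟩ := h
      exact ⟨b, fun _ => hb⟩
    · exact ⟨0, fun h' => absurd h' h⟩
  choose ψ hψ using hψ
  let A : Matrix ι ι (k0 hU) := fun i z => if R i then v (ψ i) z else if i = z then 1 else 0
  refine coreQ hU hp0 hq0 hpq (fun i => y (a i).1) (fun i => hy _) C' (fun i => hyC _) lev A ?_
    (fun i => if R i then ψ i + D - lev i else 0) ?_ ?_ hli
  · refine formalc_det A R (fun i => -ψ i) (fun x hx z => by simp only [A, if_neg hx]) ?_ ?_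
    · intro x hx
      simp only [A, if_pos hx]
      have := (hP _ (hψ x hx).1).2.2.1
      rwa [(hψ x hx).2] at this
    · intro x z hx hz h1 h2
      simp only [A, if_pos hx] at h1
      have h3 : ¬ ψ x < ψ z := fun h => h1 (by
        have := (hP _ (hψ x hx).1).2.2.2 _ (hψ z hz).1 h
        rwa [(hψ z hz).2] at this)
      have h4 : ψ z = ψ x := le_antisymm (not_lt.1 h3) (by linarith only [h2])
      rw [← (hψ z hz).2, h4, (hψ x hx).2]
  · intro ℓ hℓ i
    by_cases h : R i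
    · simp only [A, if_pos h]
      obtain ⟨ρ, e1, -, hρ⟩ := (hP _ (hψ i h).1).1
      have e2 : ∑ k, (v (ψ i) k : FF U) * (y (a k).1 * E U p q (lev k, lev k)) =
          w * (E U p q (ψ i, ψ i) + ρ) := e1
      rw [e2]
      refine ((hD ℓ hℓ).mul (VLe.add hU (vLe_E_pad hU hp0 hq0 ℓ _) (hρ ℓ hℓ))).mono
        (le_of_eq ?_)
      rw [pd_esz hpq ℓ hℓ, pd_esz hpq ℓ hℓ, pd_esz hpq ℓ hℓ]
      ring
    · simp only [A, if_neg h]
      rw [Finset.sum_eq_single i]
      · simp only [if_true, Subfield.coe_one, one_mul, add_zero]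
        exact (((hy _).vLe_pad ℓ).mul (vLe_E_pad hU hp0 hq0 ℓ _)).mono (le_of_eq (zero_add _))
      · intro k _ hk
        rw [if_neg (Ne.symm hk), Subfield.coe_zero, zero_mul]
      · intro h'
        exact absurd (Finset.mem_univ i) h'
  · have h1 : (B'.card : ℝ) * (D - μ) ≤ ∑ i, if R i then ψ i + D - lev i else 0 := by
      rw [← Finset.sum_filter]
      have e : Finset.univ.filter R = B'.image φ := by
        ext i
        simp [R]
      rw [e, Finset.sum_image hinj, ← nsmul_eq_mul, ← Finset.sum_const]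
      refine Finset.sum_le_sum fun b hb => ?_
      have hR : R (φ b) := ⟨b, hb, rfl⟩
      have h2 : ψ (φ b) = b := hinj (hψ _ hR).1 hb (hψ _ hR).2
      have h3 := (hP b hb).2.1
      rw [h2]
      linarith only [h3]
    have h2 := mul_le_mul_of_nonneg_right h1 hlq.le
    have h3 : (0 : ℝ) < B'.card := by exact_mod_cast hB0.card_pos
    have h4 := mul_lt_mul_of_pos_left hη2 h3
    have h5 := mul_le_mul_of_nonneg_right hcard hC'
    have h6 := mul_le_mul_of_nonneg_left hBc (by positivity : (0 : ℝ) ≤ Fintype.card J * C')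
    linarith only [h2, h4, h5, h6]

end Pool.Agent.Work.MP_baf0bc_nt
end

-- merged part: Pool.Agent.Work.MP_baf0bc_nt.PD3
section
/-! Finite identities for the normalised orbit `(q/p)^k x k` and the choice of a grid. -/

set_option autoImplicit false

namespace Pool.Agent.Work.MP_baf0bc_nt

/-- The normalised orbit. -/
def om (p q : ℕ) (x : ℕ → ℤ) (k : ℕ) : ℚ := ((q : ℚ) / p) ^ k * x k

/-- The integer value of a block of length `l ≤ m`, scaled by `p ^ m`. -/
def atomZ (p q : ℕ) (a : ℕ → ℤ) (m s l : ℕ) : ℤ :=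
  ∑ k ∈ Finset.range l, a (s + k) * (q : ℤ) ^ k * (p : ℤ) ^ (m - 1 - k)

section

variable {p q : ℕ} {x a : ℕ → ℤ}

lemma om_succ (hp : 0 < p) (hrec : ∀ k, (q : ℤ) * x (k + 1) = (p : ℤ) * x k + a k) (k : ℕ) :
    om p q x (k + 1) = om p q x k + ((q : ℚ) / p) ^ k * a k / p := by
  have h : (q : ℚ) * x (k + 1) = (p : ℚ) * x k + a k := by exact_mod_cast hrec k
  have hp' : (p : ℚ) ≠ 0 := by positivity
  unfold om
  rw [pow_succ, mul_assoc, div_mul_eq_mul_div, h]
  field_simp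

lemma om_copy (hp : 0 < p) (hrec : ∀ k, (q : ℤ) * x (k + 1) = (p : ℤ) * x k + a k)
    {c d L : ℕ} (hd : d ≤ c) (h : ∀ l < L, a (c + l) = a (c - d + l)) (m : ℕ) (hm : m ≤ L) :
    om p q x (c + m) = om p q x c - ((q : ℚ) / p) ^ d * om p q x (c - d) +
      ((q : ℚ) / p) ^ d * om p q x (c - d + m) := by
  induction m with
  | zero => simp
  | succ m ih =>
    rw [← add_assoc, ← add_assoc, om_succ hp hrec, om_succ hp hrec, ih (by omega),
      h m (by omega)]
    have e : ((q : ℚ) / p) ^ (c + m) = ((q : ℚ) / p) ^ d * ((q : ℚ) / p) ^ (c - d + m) := by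
      rw [← pow_add]
      congr 1
      omega
    rw [e]
    ring

lemma om_fix (hp : 0 < p) (hrec : ∀ k, (q : ℤ) * x (k + 1) = (p : ℤ) * x k + a k)
    {c d L : ℕ} (hd1 : 1 ≤ d) (hd : d ≤ c) (h : ∀ l < L, a (c + l) = a (c - d + l)) (k : ℕ)
    (hk : k ≤ c + L) : ∃ k', k' ≤ c ∧ k' ≤ k ∧
      (1 - ((q : ℚ) / p) ^ d) * om p q x k =
        (om p q x c - ((q : ℚ) / p) ^ d * om p q x (c - d)) +
          ((q : ℚ) / p) ^ (k - k') * ((1 - ((q : ℚ) / p) ^ d) * om p q x k' -
            (om p q x c - ((q : ℚ) / p) ^ d * om p q x (c - d))) := by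
  induction k using Nat.strong_induction_on with
  | _ k ih =>
    by_cases hc : k ≤ c
    · exact ⟨k, hc, le_rfl, by simp⟩
    · obtain ⟨k', h1, h2, h3⟩ := ih (k - d) (by omega) (by omega)
      refine ⟨k', h1, by omega, ?_⟩
      have h4 := om_copy hp hrec hd h (k - c) (by omega)
      have e1 : c + (k - c) = k := by omega
      have e2 : c - d + (k - c) = k - d := by omega
      have e3 : ((q : ℚ) / p) ^ (k - k') = ((q : ℚ) / p) ^ d * ((q : ℚ) / p) ^ (k - d - k') := by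
        rw [← pow_add]
        congr 1
        omega
      rw [e1, e2] at h4
      rw [e3, h4]
      linear_combination ((q : ℚ) / p) ^ d * h3

lemma om_atom (hp : 0 < p) (hrec : ∀ k, (q : ℤ) * x (k + 1) = (p : ℤ) * x k + a k)
    (m s l : ℕ) (hl : l ≤ m) :
    (p : ℚ) ^ m * (om p q x (s + l) - om p q x s) = ((q : ℚ) / p) ^ s * atomZ p q a m s l := by
  have hp' : (p : ℚ) ≠ 0 := by positivity
  induction l with
  | zero => simp [atomZ]
  | succ l ih =>
    have h1 := ih (by omega)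
    rw [← add_assoc, om_succ hp hrec]
    unfold atomZ at h1 ⊢
    rw [Finset.sum_range_succ]
    push_cast at h1 ⊢
    have e : (p : ℚ) ^ m = (p : ℚ) ^ (m - 1 - l) * (p : ℚ) ^ l * p := by
      rw [← pow_add, ← pow_succ]
      congr 1
      omega
    have e2 : (p : ℚ) ^ m * (((q : ℚ) / p) ^ (s + l) * a (s + l) / p) =
        ((q : ℚ) / p) ^ s * (a (s + l) * (q : ℚ) ^ l * (p : ℚ) ^ (m - 1 - l)) := by
      rw [e, pow_add, div_pow (q : ℚ) p l]
      field_simp
    linear_combination h1 + e2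

lemma atomZ_le (hqp : q ≤ p) {A : ℝ} (hA : ∀ k, |(a k : ℝ)| ≤ A) (hp : 0 < p) (m s l : ℕ)
    (hl : l ≤ m) : |(atomZ p q a m s l : ℝ)| ≤ m * A * (p : ℝ) ^ m := by
  have hA0 : 0 ≤ A := (abs_nonneg _).trans (hA 0)
  have hp1 : (1 : ℝ) ≤ p := by exact_mod_cast hp
  unfold atomZ
  push_cast
  refine (Finset.abs_sum_le_sum_abs _ _).trans ?_
  have h1 : ∀ k ∈ Finset.range l,
      |(a (s + k) : ℝ) * (q : ℝ) ^ k * (p : ℝ) ^ (m - 1 - k)| ≤ A * (p : ℝ) ^ m := by
    intro k hk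
    have hk' := Finset.mem_range.1 hk
    rw [mul_assoc, abs_mul, abs_of_nonneg (by positivity : (0 : ℝ) ≤ (q : ℝ) ^ k * _)]
    refine mul_le_mul (hA _) ?_ (by positivity) hA0
    calc (q : ℝ) ^ k * (p : ℝ) ^ (m - 1 - k) ≤ (p : ℝ) ^ k * (p : ℝ) ^ (m - 1 - k) :=
          mul_le_mul_of_nonneg_right
            (pow_le_pow_left₀ (by positivity) (by exact_mod_cast hqp) k) (by positivity)
      _ = (p : ℝ) ^ (k + (m - 1 - k)) := (pow_add _ _ _).symm
      _ ≤ (p : ℝ) ^ m := pow_le_pow_right₀ hp1 (by omega)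
  refine (Finset.sum_le_sum h1).trans ?_
  rw [Finset.sum_const, Finset.card_range, nsmul_eq_mul, mul_assoc]
  exact mul_le_mul_of_nonneg_right (by exact_mod_cast hl) (by positivity)

lemma om_lower (hq : 2 ≤ q) (hpq : q < p) {A : ℝ} (hA : ∀ k, |(a k : ℝ)| ≤ A)
    (hrec : ∀ k, (q : ℤ) * x (k + 1) = (p : ℤ) * x k + a k) (hx : (Set.range x).Infinite) :
    ∃ (k0 : ℕ) (κ : ℝ), 0 < κ ∧ ∀ k, k0 ≤ k → κ ≤ |(om p q x k : ℝ)| := by
  have hA0 : 0 ≤ A := (abs_nonneg _).trans (hA 0)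
  obtain ⟨k0, hk0⟩ : ∃ k0, A + 1 ≤ |(x k0 : ℝ)| := by
    by_contra h
    push Not at h
    refine hx ((Set.finite_Icc (-⌈A + 1⌉) ⌈A + 1⌉).subset ?_)
    rintro _ ⟨k, rfl⟩
    have h1 := (h k).le.trans (Int.le_ceil (A + 1))
    have h2 : |x k| ≤ ⌈A + 1⌉ := by exact_mod_cast h1
    exact abs_le.mp h2
  have hq0 : (0 : ℝ) < q := by positivity
  have hpq' : (q : ℝ) + 1 ≤ p := by exact_mod_cast hpq
  have hp0 : (0 : ℝ) < p := by linarith only [hq0, hpq']
  set ρ : ℝ := (p : ℝ) / q with hρ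
  have hgrow : ∀ j : ℕ, ρ ^ j ≤ |(x (k0 + j) : ℝ)| - A := by
    intro j
    induction j with
    | zero => simpa using (by linarith only [hk0])
    | succ j ih =>
      have h1 : (q : ℝ) * x (k0 + j + 1) = (p : ℝ) * x (k0 + j) + a (k0 + j) := by
        exact_mod_cast hrec (k0 + j)
      have h2 : (p : ℝ) * |(x (k0 + j) : ℝ)| - A ≤ q * |(x (k0 + j + 1) : ℝ)| := by
        have h3 : |(p : ℝ) * x (k0 + j)| ≤ |(q : ℝ) * x (k0 + j + 1)| + |(a (k0 + j) : ℝ)| := by
          have : (p : ℝ) * x (k0 + j) = (q : ℝ) * x (k0 + j + 1) - a (k0 + j) := by linarith only [h1]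
          rw [this]; exact abs_sub _ _
        rw [abs_mul, abs_mul, Nat.abs_cast, Nat.abs_cast] at h3
        linarith only [h3, hA, hA (k0 + j)]
      have h4 : (q : ℝ) * ρ ^ (j + 1) = p * ρ ^ j := by
        rw [pow_succ, hρ]; field_simp
      have h5 : (p : ℝ) * ρ ^ j ≤ p * (|(x (k0 + j) : ℝ)| - A) :=
        mul_le_mul_of_nonneg_left ih (by positivity)
      have h6 : (q : ℝ) * ρ ^ (j + 1) ≤ q * (|(x (k0 + j + 1) : ℝ)| - A) := by
        linarith only [h2, h4, h5, hA0, hpq', mul_nonneg_of_nonpos_of_nonpos (Mathlib.Tactic.Linarith.sub_nonpos_of_le hA0) (Mathlib.Tactic.Linarith.sub_nonpos_of_le hpq')]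
      rw [← add_assoc]
      exact le_of_mul_le_mul_left h6 hq0
  refine ⟨k0, ((q : ℝ) / p) ^ k0, by positivity, fun k hk => ?_⟩
  obtain ⟨j, rfl⟩ := Nat.exists_eq_add_of_le hk
  have h1 := hgrow j
  unfold om
  push_cast
  rw [abs_mul, abs_of_nonneg (by positivity), pow_add, mul_assoc]
  refine le_mul_of_one_le_right (by positivity) ?_
  have h2 : ((q : ℝ) / p) ^ j * ρ ^ j = 1 := by
    rw [← mul_pow, hρ, div_mul_div_cancel₀ hp0.ne', div_self hq0.ne', one_pow]
  rw [← h2]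
  exact mul_le_mul_of_nonneg_left (by linarith only [hA0, h1]) (by positivity)

end

lemma pcx_mono {α : Type*} (a : ℕ → α) (N : ℕ) {L L' : ℕ} (h : L ≤ L') :
    pcx a N L ≤ pcx a N L' := by
  unfold pcx
  have e : (fun i : ℕ => fun j : Fin L => a (i + j.val)) '' Set.Iio N =
      (fun f : Fin L' → α => fun j : Fin L => f (Fin.castLE h j)) ''
        ((fun i : ℕ => fun j : Fin L' => a (i + j.val)) '' Set.Iio N) := by
    rw [Set.image_image]
    rfl
  rw [e]
  exact Set.ncard_image_le ((Set.finite_Iio N).image _)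

lemma pd_grid {α : Type*} (a : ℕ → α) (N L Z : ℕ) (hL : 1 ≤ L) (hN : (Z + 1) * L ≤ N) :
    ∃ o, o < L ∧ ∃ F ⊆ Finset.range Z, F.card * L ≤ pcx a N L ∧
      ∀ j < Z, j ∉ F → ∃ d, 1 ≤ d ∧ d ≤ o + j * L ∧
        ∀ l < L, a (o + j * L + l) = a (o + j * L - d + l) := by
  classical
  let blk : ℕ → Fin L → α := fun i j => a (i + j.val)
  let New : ℕ → Prop := fun i => ∀ i' < i, blk i' ≠ blk i
  have h1 : ((Finset.range N).filter New).card ≤ pcx a N L := by
    rw [← Set.ncard_coe_finset]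
    refine Set.ncard_le_ncard_of_injOn blk ?_ ?_ ((Set.finite_Iio N).image _)
    · intro i hi
      exact ⟨i, Finset.mem_range.1 (Finset.mem_filter.1 hi).1, rfl⟩
    · intro i hi i' hi' h
      have b1 := (Finset.mem_filter.1 hi).2
      have b2 := (Finset.mem_filter.1 hi').2
      rcases lt_trichotomy i i' with h' | h' | h'
      · exact absurd h (b2 i h')
      · exact h'
      · exact absurd h.symm (b1 i' h')
  let F : ℕ → Finset ℕ := fun o => (Finset.range Z).filter fun j => New (o + j * L)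
  have h2 : ∑ o ∈ Finset.range L, (F o).card ≤ ((Finset.range N).filter New).card := by
    rw [← Finset.card_sigma]
    refine Finset.card_le_card_of_injOn (fun s => s.1 + s.2 * L) ?_ ?_
    · intro s hs
      obtain ⟨b1, b2⟩ := Finset.mem_sigma.1 (Finset.mem_coe.1 hs)
      obtain ⟨b3, b4⟩ := Finset.mem_filter.1 b2
      have b5 := Finset.mem_range.1 b1
      have b6 := Finset.mem_range.1 b3
      refine Finset.mem_coe.2 (Finset.mem_filter.2 ⟨Finset.mem_range.2 ?_, b4⟩)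
      have : (s.2 + 1) * L ≤ (Z + 1) * L := Nat.mul_le_mul_right _ (by omega)
      simp only
      linarith only [hN, b5, this]
    · rintro ⟨o, j⟩ hs ⟨o', j'⟩ hs' h
      have b1 := Finset.mem_range.1 (Finset.mem_sigma.1 (Finset.mem_coe.1 hs)).1
      have b2 := Finset.mem_range.1 (Finset.mem_sigma.1 (Finset.mem_coe.1 hs')).1
      simp only at b1 b2 h
      have e1 : o = o' := by
        have := congrArg (· % L) h
        simpa [Nat.add_mul_mod_self_right, Nat.mod_eq_of_lt b1, Nat.mod_eq_of_lt b2] using this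
      subst e1
      have e2 : j = j' := Nat.eq_of_mul_eq_mul_right hL (by omega)
      rw [e2]
  obtain ⟨o, ho, h3⟩ : ∃ o ∈ Finset.range L, (F o).card * L ≤ pcx a N L := by
    refine Finset.exists_le_of_sum_le ⟨0, Finset.mem_range.2 hL⟩ ?_
    rw [← Finset.sum_mul, Finset.sum_const, Finset.card_range, smul_eq_mul, mul_comm L]
    exact Nat.mul_le_mul_right _ (h2.trans h1)
  refine ⟨o, Finset.mem_range.1 ho, F o, Finset.filter_subset _ _, h3, fun j hj hF => ?_⟩
  have h4 : ¬ New (o + j * L) := fun h => hF (Finset.mem_filter.2 ⟨Finset.mem_range.2 hj, h⟩)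
  simp only [New, not_forall, not_not] at h4
  obtain ⟨i', hi', h5⟩ := h4
  refine ⟨o + j * L - i', by omega, by omega, fun l hl => ?_⟩
  have e : o + j * L - (o + j * L - i') = i' := by omega
  rw [e]
  exact (congrFun h5 ⟨l, hl⟩).symm

end Pool.Agent.Work.MP_baf0bc_nt
end

-- merged part: Pool.Agent.Work.MP_baf0bc_nt.PD4
section
/-! Copied cells are eliminated in the ultrapower: the normalised orbit point at the end of the
grid lies, up to a unit, in the module spanned by the values of pieces of the free cells. -/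

set_option autoImplicit false

open Filter Topology

namespace Pool.Agent.Work.MP_baf0bc_nt

open Pool.Agent.Lib.Subspace

variable {U : Ultrafilter ℕ} {p q : ℕ}

/-- The germ of a sequence of rationals. -/
noncomputable def gm (U : Ultrafilter ℕ) (f : ℕ → ℚ) : FF U := (f : FF U)

lemma gm_congr {f g : ℕ → ℚ} (h : ∀ᶠ n in (U : Filter ℕ), f n = g n) : gm U f = gm U g :=
  Germ.coe_eq.2 h

lemma gm_add (f g : ℕ → ℚ) : gm U f + gm U g = gm U fun n => f n + g n := rfl
lemma gm_sub (f g : ℕ → ℚ) : gm U f - gm U g = gm U fun n => f n - g n := rfl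
lemma gm_mul (f g : ℕ → ℚ) : gm U f * gm U g = gm U fun n => f n * g n := rfl
lemma gm_inv (f : ℕ → ℚ) : (gm U f)⁻¹ = gm U fun n => (f n)⁻¹ := rfl
lemma gm_one : (1 : FF U) = gm U fun _ => 1 := rfl
lemma gm_zero : (0 : FF U) = gm U fun _ => 0 := rfl

lemma gm_ne {f : ℕ → ℚ} (h : ∀ᶠ n in (U : Filter ℕ), f n ≠ 0) : gm U f ≠ 0 := by
  intro h0
  obtain ⟨n, h1, h2⟩ := (h.and (Germ.coe_eq.1 h0)).exists
  exact h1 h2

lemma gm_vLe (hU : (U : Filter ℕ) ≤ atTop) (v : AbsoluteValue ℚ ℝ) (f : ℕ → ℚ) (K c : ℝ)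
    (h : ∀ᶠ n : ℕ in (U : Filter ℕ), v (f n) ≤ K * n * Real.exp (c * n)) : VLe v c (gm U f) := by
  refine vLe_coe.2 fun ε hε => ?_
  filter_upwards [h, ev_const_le hU (|K| * (2 / ε)) (half_pos hε)] with n h1 h2
  have h3 : (n : ℝ) ≤ 2 / ε * Real.exp (ε / 2 * n) := by
    have := Real.add_one_le_exp (ε / 2 * n)
    rw [div_mul_eq_mul_div, le_div_iff₀ hε]
    linarith only [this]
  have h4 : K * n ≤ Real.exp (ε / 2 * n) * Real.exp (ε / 2 * n) := by
    calc K * n ≤ |K| * n := mul_le_mul_of_nonneg_right (le_abs_self K) (Nat.cast_nonneg n)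
      _ ≤ |K| * (2 / ε * Real.exp (ε / 2 * n)) := mul_le_mul_of_nonneg_left h3 (abs_nonneg K)
      _ = |K| * (2 / ε) * Real.exp (ε / 2 * n) := by ring
      _ ≤ _ := mul_le_mul_of_nonneg_right h2 (Real.exp_pos _).le
  refine h1.trans ((mul_le_mul_of_nonneg_right h4 (Real.exp_pos _).le).trans (le_of_eq ?_))
  rw [← Real.exp_add, ← Real.exp_add]
  congr 1
  ring

lemma gm_vLe0 (hU : (U : Filter ℕ) ≤ atTop) (v : AbsoluteValue ℚ ℝ) (f : ℕ → ℚ) (K : ℝ)
    (h : ∀ᶠ n : ℕ in (U : Filter ℕ), v (f n) ≤ K) : VLe v 0 (gm U f) := by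
  refine vLe_coe.2 fun ε hε => ?_
  filter_upwards [h, ev_const_le hU K hε] with n h1 h2
  rw [zero_add]
  exact h1.trans h2

lemma Msp_gen (hU : (U : Filter ℕ) ≤ atTop) {G : Set (FF U)} {g : FF U} (hg : g ∈ G) :
    g ∈ Msp hU p q G :=
  Submodule.subset_span ⟨g, hg, 0, by rw [Prod.mk_zero_zero, E_zero, mul_one]⟩

lemma Msp_mul_E (hU : (U : Filter ℕ) ≤ atTop) (hp : 0 < p) (hq : 0 < q) {G : Set (FF U)}
    {m : FF U} (hm : m ∈ Msp hU p q G) (t : ℝ) : E U p q (t, t) * m ∈ Msp hU p q G := by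
  refine Submodule.span_induction (p := fun m _ => E U p q (t, t) * m ∈ Msp hU p q G)
    ?_ ?_ ?_ ?_ hm
  · rintro _ ⟨g, hg, s, rfl⟩
    obtain ⟨κ, -, he⟩ := E_mul hU hp hq (t, t) (s, s)
    have e : E U p q (t, t) * (g * E U p q (s, s)) = κ • (g * E U p q (t + s, t + s)) := by
      rw [mul_left_comm, he, Prod.mk_add_mk, Subfield.smul_def, smul_eq_mul]
      ring
    rw [e]
    exact Submodule.smul_mem _ _ (Submodule.subset_span ⟨g, hg, _, rfl⟩)
  · simp
  · intro x z _ _ hx hz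
    rw [mul_add]
    exact Submodule.add_mem _ hx hz
  · intro c x _ hx
    rw [mul_smul_comm]
    exact Submodule.smul_mem _ _ hx

/-- The germ of `(q/p) ^ (e n)`. -/
noncomputable def bt (U : Ultrafilter ℕ) (p q : ℕ) (e : ℕ → ℕ) : FF U :=
  gm U fun n => ((q : ℚ) / p) ^ e n

lemma Msp_mul_bt (hU : (U : Filter ℕ) ≤ atTop) (hp : 0 < p) (hq : 0 < q) {G : Set (FF U)}
    {m : FF U} (hm : m ∈ Msp hU p q G) (e : ℕ → ℕ) (he : ∀ᶠ n in (U : Filter ℕ), e n ≤ 3 * n) :
    bt U p q e * m ∈ Msp hU p q G := by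
  obtain ⟨t, -, ht⟩ := (isCompact_Icc (a := (0 : ℝ)) (b := 3)).ultrafilter_le_nhds
    (U.map fun n : ℕ => (e n : ℝ) / n) (by
      rw [Ultrafilter.coe_map, le_principal_iff]
      change ∀ᶠ n : ℕ in (U : Filter ℕ), (e n : ℝ) / n ∈ Set.Icc (0 : ℝ) 3
      filter_upwards [he, hU (eventually_ge_atTop 1)] with n h1 h2
      have h3 : (0 : ℝ) < n := by exact_mod_cast h2
      refine ⟨by positivity, ?_⟩
      rw [div_le_iff₀ h3]
      exact_mod_cast h1)
  obtain ⟨κ, -, hκ⟩ := germ_eq_E hU hp hq e e (t, t) ht ht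
  have e1 : bt U p q e = (κ : FF U) * E U p q (t, t) := by
    rw [← hκ]
    exact gm_congr (Eventually.of_forall fun n => div_pow _ _ _)
  rw [e1, mul_assoc]
  exact Submodule.smul_mem _ κ (Msp_mul_E hU hp hq hm t)

/-- Units: real size zero, `q`-adically integral, preserving the module. -/
def Adm (hU : (U : Filter ℕ) ≤ atTop) (p q : ℕ) (G : Set (FF U)) (Q : FF U) : Prop :=
  Q ≠ 0 ∧ VLe arch 0 Q⁻¹ ∧ (∀ ℓ : Nat.Primes, ℓ.1 ∣ q → VLe (pad ℓ) 0 Q) ∧
    ∀ m ∈ Msp hU p q G, Q * m ∈ Msp hU p q G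

/-- The saturation of the module by units. -/
def Sat (hU : (U : Filter ℕ) ≤ atTop) (p q : ℕ) (G : Set (FF U)) (w : FF U) : Prop :=
  ∃ Q, Adm hU p q G Q ∧ Q * w ∈ Msp hU p q G

section
variable {hU : (U : Filter ℕ) ≤ atTop} {G : Set (FF U)}

lemma Adm.mul {Q Q' : FF U} (h : Adm hU p q G Q) (h' : Adm hU p q G Q') :
    Adm hU p q G (Q * Q') := by
  refine ⟨mul_ne_zero h.1 h'.1, ?_, fun ℓ hℓ => ?_, fun m hm => ?_⟩
  · rw [mul_inv]
    simpa using h.2.1.mul h'.2.1
  · simpa using (h.2.2.1 ℓ hℓ).mul (h'.2.2.1 ℓ hℓ)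
  · rw [mul_assoc]
    exact h.2.2.2 _ (h'.2.2.2 m hm)

lemma adm_one : Adm hU p q G 1 :=
  ⟨one_ne_zero, by rw [inv_one]; exact vLe_one _, fun ℓ _ => vLe_one _,
    fun m hm => by rwa [one_mul]⟩

lemma sat_gen {g : FF U} (hg : g ∈ G) : Sat hU p q G g :=
  ⟨1, adm_one, by rw [one_mul]; exact Msp_gen hU hg⟩

lemma Sat.add {w w' : FF U} (h : Sat hU p q G w) (h' : Sat hU p q G w') :
    Sat hU p q G (w + w') := by
  obtain ⟨Q, hQ, h1⟩ := h
  obtain ⟨Q', hQ', h2⟩ := h'
  refine ⟨Q * Q', hQ.mul hQ', ?_⟩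
  have e : Q * Q' * (w + w') = Q' * (Q * w) + Q * (Q' * w') := by ring
  rw [e]
  exact Submodule.add_mem _ (hQ'.2.2.2 _ h1) (hQ.2.2.2 _ h2)

lemma Sat.neg {w : FF U} (h : Sat hU p q G w) : Sat hU p q G (-w) := by
  obtain ⟨Q, hQ, h1⟩ := h
  exact ⟨Q, hQ, by rw [mul_neg]; exact Submodule.neg_mem _ h1⟩

lemma Sat.sub {w w' : FF U} (h : Sat hU p q G w) (h' : Sat hU p q G w') :
    Sat hU p q G (w - w') := by
  rw [sub_eq_add_neg]
  exact h.add h'.neg

lemma Sat.bt (hp : 0 < p) (hq : 0 < q) {w : FF U} (h : Sat hU p q G w) (e : ℕ → ℕ)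
    (he : ∀ᶠ n in (U : Filter ℕ), e n ≤ 3 * n) : Sat hU p q G (bt U p q e * w) := by
  obtain ⟨Q, hQ, h1⟩ := h
  exact ⟨Q, hQ, by rw [mul_left_comm]; exact Msp_mul_bt hU hp hq h1 e he⟩

lemma Sat.cancel {w Q0 : FF U} (h0 : Adm hU p q G Q0) (h : Sat hU p q G (Q0 * w)) :
    Sat hU p q G w := by
  obtain ⟨Q, hQ, h1⟩ := h
  exact ⟨Q * Q0, hQ.mul h0, by rwa [mul_assoc]⟩

lemma pad_beta (hp : 0 < p) (hq : 0 < q) (hpq : p.Coprime q) (ℓ : Nat.Primes) (hℓ : ℓ.1 ∣ q)
    (k : ℕ) : pad ℓ (((q : ℚ) / p) ^ k) =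
      Real.exp (-(k * (q.factorization ℓ.1 * Real.log ℓ.1))) := by
  have h1 : p.factorization ℓ.1 = 0 := Nat.factorization_eq_zero_of_not_dvd fun h =>
    ℓ.2.one_lt.ne' (Nat.eq_one_of_dvd_coprimes hpq h hℓ)
  rw [map_pow, map_div₀, pad_natCast ℓ q hq.ne', pad_natCast ℓ p hp.ne', h1, ← Real.exp_sub,
    ← Real.exp_nat_mul]
  congr 1
  push_cast
  ring

lemma adm_bt (hq : 0 < q) (hqp : q < p) (hpq : p.Coprime q) (d : ℕ → ℕ)
    (h1 : ∀ᶠ n in (U : Filter ℕ), 1 ≤ d n) (h2 : ∀ᶠ n in (U : Filter ℕ), d n ≤ 3 * n) :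
    Adm hU p q G (1 - bt U p q d) := by
  have hp : 0 < p := by omega
  have hb0 : (0 : ℚ) ≤ (q : ℚ) / p := by positivity
  have hb1 : (q : ℚ) / p < 1 := by
    rw [div_lt_one (by exact_mod_cast hp)]
    exact_mod_cast hqp
  have hle : ∀ k, 1 ≤ k → ((q : ℚ) / p) ^ k ≤ (q : ℚ) / p := fun k hk =>
    pow_le_of_le_one hb0 hb1.le (by omega)
  refine ⟨?_, ?_, fun ℓ hℓ => ?_, fun m hm => ?_⟩
  · rw [gm_one, bt, gm_sub]
    refine gm_ne ?_
    filter_upwards [h1] with n hn
    have := hle _ hn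
    linarith only [hb1, this]
  · rw [gm_one, bt, gm_sub, gm_inv]
    refine gm_vLe0 hU _ _ (((1 - (q : ℚ) / p)⁻¹ : ℚ) : ℝ) ?_
    filter_upwards [h1] with n hn
    have h3 := hle _ hn
    rw [arch_apply, ← Rat.cast_abs, Rat.cast_le, abs_of_pos (inv_pos.2 (by linarith only [hb1, h3]))]
    exact inv_anti₀ (by linarith only [hb1]) (by linarith only [h3])
  · refine VLe.sub hU (vLe_one _) (gm_vLe0 hU _ _ 1 (Eventually.of_forall fun n => ?_))
    rw [pad_beta hp hq hpq ℓ hℓ]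
    refine Real.exp_le_one_iff.2 ?_
    have := mul_nonneg (Nat.cast_nonneg (α := ℝ) (d n)) (pd_fac_nonneg (q := q) ℓ)
    linarith only [this]
  · rw [sub_mul, one_mul]
    exact Submodule.sub_mem _ hm (Msp_mul_bt hU hp hq hm d h2)

end

/-- Starting points of the cells. -/
def cst (o L : ℕ → ℕ) : Option ℕ → ℕ → ℕ
  | none => fun _ => 0
  | some j => fun n => o n + j * L n

/-- The generators: the initial value and the values of initial pieces of the free cells. -/
def Gen (U : Ultrafilter ℕ) (p q : ℕ) (x : ℕ → ℤ) (o L : ℕ → ℕ) (F : Finset ℕ) : Set (FF U) :=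
  {g | g = gm U (fun _ => om p q x 0) ∨ ∃ s ∈ Finset.insertNone F, ∃ k : ℕ → ℕ,
    (∀ᶠ n in (U : Filter ℕ), cst o L s n ≤ k n ∧ k n ≤ cst o L s n + L n) ∧
      g = gm U fun n => om p q x (k n) - om p q x (cst o L s n)}

theorem pd_sat (hU : (U : Filter ℕ) ≤ atTop) (hq : 0 < q) (hqp : q < p) (hpq : p.Coprime q)
    {x a : ℕ → ℤ} (hrec : ∀ k, (q : ℤ) * x (k + 1) = (p : ℤ) * x k + a k)
    (o L : ℕ → ℕ) (Z : ℕ) (F : Finset ℕ)
    (ho : ∀ᶠ n in (U : Filter ℕ), o n < L n ∧ (Z + 1) * L n ≤ n)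
    (hF : ∀ j < Z, j ∉ F → ∀ᶠ n in (U : Filter ℕ), ∃ d, 1 ≤ d ∧ d ≤ o n + j * L n ∧
      ∀ l < L n, a (o n + j * L n + l) = a (o n + j * L n - d + l))
    (j : ℕ) (hj : j ≤ Z) (k : ℕ → ℕ) (hk : ∀ᶠ n in (U : Filter ℕ), k n ≤ o n + j * L n) :
    Sat hU p q (Gen U p q x o L F) (gm U fun n => om p q x (k n)) := by
  have hp : 0 < p := by omega
  induction j generalizing k with
  | zero =>
    have e : (gm U fun n => om p q x (k n)) =
        (gm U fun n => om p q x (k n) - om p q x (cst o L none n)) +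
          gm U fun _ => om p q x 0 := by
      rw [gm_add]
      exact gm_congr (Eventually.of_forall fun n => by simp [cst])
    rw [e]
    refine (sat_gen (Or.inr ⟨none, Finset.none_mem_insertNone, k, ?_, rfl⟩)).add
      (sat_gen (Or.inl rfl))
    filter_upwards [ho, hk] with n h1 h2
    simp only [cst]
    omega
  | succ j ih =>
    have ih' := ih (by omega)
    by_cases hc : ∀ᶠ n in (U : Filter ℕ), k n ≤ o n + j * L n
    · exact ih' k hc
    have hc' : ∀ᶠ n in (U : Filter ℕ), ¬ k n ≤ o n + j * L n := Ultrafilter.eventually_not.2 hc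
    have hcs := ih' (fun n => o n + j * L n) (Eventually.of_forall fun n => le_rfl)
    by_cases hjF : j ∈ F
    · have e : (gm U fun n => om p q x (k n)) =
          (gm U fun n => om p q x (k n) - om p q x (cst o L (some j) n)) +
            gm U fun n => om p q x (o n + j * L n) := by
        rw [gm_add]
        exact gm_congr (Eventually.of_forall fun n => by simp [cst])
      rw [e]
      refine (sat_gen (Or.inr ⟨some j, Finset.some_mem_insertNone.2 hjF, k, ?_, rfl⟩)).add hcs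
      filter_upwards [hk, hc'] with n h1 h2
      simp only [cst]
      rw [Nat.succ_mul] at h1
      omega
    · have h1 : ∀ᶠ n in (U : Filter ℕ), ∃ dk : ℕ × ℕ, 1 ≤ dk.1 ∧ dk.1 ≤ o n + j * L n ∧
          dk.2 ≤ o n + j * L n ∧
          (1 - ((q : ℚ) / p) ^ dk.1) * om p q x (k n) =
            (om p q x (o n + j * L n) - ((q : ℚ) / p) ^ dk.1 * om p q x (o n + j * L n - dk.1)) +
            ((q : ℚ) / p) ^ (k n - dk.2) * ((1 - ((q : ℚ) / p) ^ dk.1) * om p q x dk.2 -
              (om p q x (o n + j * L n) -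
                ((q : ℚ) / p) ^ dk.1 * om p q x (o n + j * L n - dk.1))) := by
        filter_upwards [hF j (by omega) hjF, hk] with n ⟨d, b1, b2, b3⟩ h2
        obtain ⟨k', c1, -, c3⟩ := om_fix hp hrec b1 b2 b3 (k n) (by
          rw [Nat.succ_mul] at h2
          omega)
        exact ⟨(d, k'), b1, b2, c1, c3⟩
      obtain ⟨dk, hdk⟩ := h1.choice
      have hb : ∀ᶠ n in (U : Filter ℕ), o n + (j + 1) * L n ≤ 3 * n := by
        filter_upwards [ho] with n ⟨b1, b2⟩
        have : (j + 1) * L n ≤ Z * L n := Nat.mul_le_mul_right _ hj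
        rw [Nat.succ_mul] at b2
        omega
      have hd3 : ∀ᶠ n in (U : Filter ℕ), (dk n).1 ≤ 3 * n := by
        filter_upwards [hb, hdk] with n b1 b2
        rw [Nat.succ_mul] at b1
        omega
      have hk3 : ∀ᶠ n in (U : Filter ℕ), k n - (dk n).2 ≤ 3 * n := by
        filter_upwards [hb, hk] with n b1 b2
        omega
      have s1 := ih' (fun n => o n + j * L n - (dk n).1) (Eventually.of_forall fun n => by omega)
      have s2 := ih' (fun n => (dk n).2) (hdk.mono fun n h => h.2.2.1)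
      have s3 := hcs.sub (s1.bt hp hq _ hd3)
      have s4 := s3.add (((s2.sub (s2.bt hp hq _ hd3)).sub s3).bt hp hq _ hk3)
      refine Sat.cancel (adm_bt hq hqp hpq (fun n => (dk n).1) (hdk.mono fun n h => h.1) hd3) ?_
      convert s4 using 1
      simp only [bt, gm_one, gm_sub, gm_mul, gm_add]
      refine gm_congr (hdk.mono fun n h => ?_)
      rw [h.2.2.2]
      ring

end Pool.Agent.Work.MP_baf0bc_nt
end

-- merged part: Pool.Agent.Work.MP_baf0bc_nt.PD5
section
/-! The free cells are cut into short atoms; the Diophantine core bounds their number from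
below. -/

set_option autoImplicit false

open Filter Topology

namespace Pool.Agent.Work.MP_baf0bc_nt

open Pool.Agent.Lib.Subspace

variable {U : Ultrafilter ℕ} {p q : ℕ}

lemma pd_atom_vLe (hU : (U : Filter ℕ) ≤ atTop) (hp : 0 < p) (m : ℕ → ℕ) {lam : ℝ}
    (hlam : lam ≤ 1) (hm : ∀ᶠ n : ℕ in (U : Filter ℕ), (m n : ℝ) ≤ lam * n + 1) (z : ℕ → ℤ)
    {A : ℝ} (hA : 0 ≤ A)
    (hz : ∀ᶠ n : ℕ in (U : Filter ℕ), |(z n : ℝ)| ≤ (m n + 1) * A * (p : ℝ) ^ m n) :
    VLe arch (lam * Real.log p) (gm U fun n => (z n : ℚ)) := by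
  have hp1 : (1 : ℝ) ≤ p := by exact_mod_cast hp
  refine gm_vLe hU _ _ (3 * A * p) _ ?_
  filter_upwards [hm, hz, hU (eventually_ge_atTop 1)] with n h1 h2 h3
  have h4 : (1 : ℝ) ≤ n := by exact_mod_cast h3
  have h5 : (m n : ℝ) + 1 ≤ 3 * n := by linarith only [h1, h4, hlam, mul_nonneg_of_nonpos_of_nonpos (Mathlib.Tactic.Linarith.sub_nonpos_of_le (Mathlib.Tactic.Linarith.natCast_nonneg ℝ n)) (Mathlib.Tactic.Linarith.sub_nonpos_of_le hlam)]
  have h6 : (p : ℝ) ^ m n ≤ p * Real.exp (lam * Real.log p * n) := by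
    have e1 : (p : ℝ) ^ m n = Real.exp (m n * Real.log p) := by
      rw [Real.exp_nat_mul, Real.exp_log (by linarith)]
    have e2 : (p : ℝ) * Real.exp (lam * Real.log p * n) =
        Real.exp ((lam * n + 1) * Real.log p) := by
      rw [add_mul, one_mul, Real.exp_add, Real.exp_log (by linarith), mul_comm]
      congr 2
      ring
    rw [e1, e2]
    exact Real.exp_le_exp.2 (mul_le_mul_of_nonneg_right h1 (Real.log_nonneg hp1))
  rw [arch_apply, Rat.cast_intCast]
  refine h2.trans ?_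
  calc ((m n : ℝ) + 1) * A * (p : ℝ) ^ m n
      ≤ (3 * n) * A * (p * Real.exp (lam * Real.log p * n)) :=
        mul_le_mul (mul_le_mul_of_nonneg_right h5 hA) h6 (by positivity) (by positivity)
    _ = _ := by ring

lemma pd_dec (hU : (U : Filter ℕ) ≤ atTop) (hq : 0 < q) (hqp : q < p)
    {x a : ℕ → ℤ} (hrec : ∀ k, (q : ℤ) * x (k + 1) = (p : ℤ) * x k + a k) {A : ℝ}
    (hA : ∀ k, |(a k : ℝ)| ≤ A) (o L : ℕ → ℕ) (F : Finset ℕ) (M : ℕ) (m : ℕ → ℕ) {lam : ℝ}
    (hlam : lam ≤ 1) (hm : ∀ᶠ n : ℕ in (U : Filter ℕ), (m n : ℝ) ≤ lam * n + 1)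
    (hL : ∀ᶠ n in (U : Filter ℕ), 1 ≤ m n ∧ L n ≤ M * m n)
    (hc : ∀ s ∈ Finset.insertNone F, ∀ᶠ n in (U : Filter ℕ), cst o L s n + M * m n ≤ 3 * n)
    {g : FF U} (hg : g ∈ Gen U p q x o L F) :
    ∃ y : FF U, IsInt y ∧ VLe arch (lam * Real.log p) y ∧ ∀ G : Set (FF U), y ∈ G →
      (∀ s ∈ Finset.insertNone F, ∀ u < M, (gm U fun n =>
        (atomZ p q a (m n) (cst o L s n + u * m n) (m n) : ℚ)) ∈ G) →
      (gm U fun n => (p : ℚ) ^ m n) * g ∈ Msp hU p q G := by
  have hp : 0 < p := by omega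
  have hA0 : 0 ≤ A := (abs_nonneg _).trans (hA 0)
  rcases hg with rfl | ⟨s, hs, k, hk, rfl⟩
  · refine ⟨gm U fun n => (((p : ℤ) ^ m n * x 0 : ℤ) : ℚ), ⟨_, rfl⟩,
      pd_atom_vLe hU hp m hlam hm _ (abs_nonneg (x 0 : ℝ)) (Eventually.of_forall fun n => ?_),
      fun G hy _ => ?_⟩
    · push_cast
      rw [abs_mul, abs_of_nonneg (by positivity : (0 : ℝ) ≤ (p : ℝ) ^ m n), mul_comm]
      refine mul_le_mul_of_nonneg_right ?_ (by positivity)
      exact le_mul_of_one_le_left (abs_nonneg _) (by linarith only [Nat.cast_nonneg (α := ℝ) (m n)])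
    · convert Msp_gen hU hy using 1
      rw [gm_mul]
      exact gm_congr (Eventually.of_forall fun n => by simp [om])
  · obtain ⟨u0, hu0, hu⟩ : ∃ u0 ∈ Set.Iic M, ∀ᶠ n in (U : Filter ℕ),
        (k n - cst o L s n) / m n = u0 := by
      refine (Ultrafilter.eventually_exists_mem_iff (Set.finite_Iic M)).1 ?_
      filter_upwards [hk, hL] with n h1 h2
      refine ⟨_, ?_, rfl⟩
      refine Nat.div_le_of_le_mul ?_
      rw [mul_comm]
      omega
    refine ⟨gm U fun n => (atomZ p q a (m n) (cst o L s n + u0 * m n)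
      ((k n - cst o L s n) % m n) : ℚ), ⟨_, rfl⟩, pd_atom_vLe hU hp m hlam hm _ hA0 ?_,
      fun G hy hG => ?_⟩
    · filter_upwards [hL] with n h1
      refine (atomZ_le hqp.le hA hp _ _ _ (Nat.mod_lt _ h1.1).le).trans ?_
      exact mul_le_mul_of_nonneg_right (mul_le_mul_of_nonneg_right (by linarith only []) hA0)
        (by positivity)
    · have hb : ∀ u ≤ M, ∀ᶠ n in (U : Filter ℕ), cst o L s n + u * m n ≤ 3 * n := by
        intro u hu
        filter_upwards [hc s hs] with n h1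
        have := Nat.mul_le_mul_right (m n) hu
        omega
      have h1 : ∀ u ≤ M, (gm U fun n => (p : ℚ) ^ m n *
          (om p q x (cst o L s n + u * m n) - om p q x (cst o L s n))) ∈ Msp hU p q G := by
        intro u
        induction u with
        | zero =>
          intro _
          convert Submodule.zero_mem _ using 1
          rw [gm_zero]
          exact gm_congr (Eventually.of_forall fun n => by simp)
        | succ u ih =>
          intro hu
          convert Submodule.add_mem _ (ih (by omega))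
            (Msp_mul_bt hU hp hq (Msp_gen hU (hG s hs u (by omega))) _ (hb u (by omega))) using 1
          rw [bt, gm_mul, gm_add]
          refine gm_congr (Eventually.of_forall fun n => ?_)
          rw [← om_atom hp hrec _ _ _ le_rfl, Nat.succ_mul, ← add_assoc]
          ring
      convert Submodule.add_mem _ (h1 u0 hu0)
        (Msp_mul_bt hU hp hq (Msp_gen hU hy) _ (hb u0 hu0)) using 1
      rw [bt, gm_mul, gm_mul, gm_add]
      refine gm_congr ?_
      filter_upwards [hk, hL, hu] with n b1 b2 b3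
      rw [← om_atom hp hrec _ _ _ (Nat.mod_lt _ b2.1).le]
      have e : cst o L s n + u0 * m n + (k n - cst o L s n) % m n = k n := by
        have := Nat.div_add_mod' (k n - cst o L s n) (m n)
        rw [b3] at this
        omega
      rw [e]
      ring

theorem pd_free (hU : (U : Filter ℕ) ≤ atTop) (hq : 2 ≤ q) (hqp : q < p) (hpq : p.Coprime q)
    {x a : ℕ → ℤ} (hrec : ∀ k, (q : ℤ) * x (k + 1) = (p : ℤ) * x k + a k) {A : ℝ}
    (hA : ∀ k, |(a k : ℝ)| ≤ A) (hx : (Set.range x).Infinite) (o : ℕ → ℕ) (Z : ℕ) (hZ : 1 ≤ Z)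
    (F : Finset ℕ) (hFZ : F ⊆ Finset.range Z)
    (ho : ∀ᶠ n in (U : Filter ℕ), o n < n / (Z + 1))
    (hF : ∀ j < Z, j ∉ F → ∀ᶠ n in (U : Filter ℕ), ∃ d, 1 ≤ d ∧ d ≤ o n + j * (n / (Z + 1)) ∧
      ∀ l < n / (Z + 1), a (o n + j * (n / (Z + 1)) + l) = a (o n + j * (n / (Z + 1)) - d + l)) :
    Z * Real.log q ≤ (F.card + 1) * Real.log p := by
  classical
  have hp : 0 < p := by omega
  have hq0 : 0 < q := by omega
  have hA0 : 0 ≤ A := (abs_nonneg _).trans (hA 0)
  have hlp : 0 < Real.log p := Real.log_pos (by exact_mod_cast (by omega : 1 < p))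
  have hlq : 0 < Real.log q := Real.log_pos (by exact_mod_cast hq)
  have hθ : 0 < Real.log p - Real.log q := by
    have := Real.log_lt_log (by exact_mod_cast hq0 : (0 : ℝ) < q) (by exact_mod_cast hqp :
      (q : ℝ) < p)
    linarith only [this]
  let L : ℕ → ℕ := fun n => n / (Z + 1)
  have hLn : ∀ n, (Z + 1) * L n ≤ n := fun n => Nat.mul_div_le n (Z + 1)
  have hLn' : ∀ n, n < (Z + 1) * (L n + 1) := fun n => Nat.lt_mul_div_succ n (by omega)
  obtain ⟨Q, hQ, hQw⟩ := pd_sat hU hq0 hqp hpq hrec o L Z F (ho.mono fun n h => ⟨h, hLn n⟩) hF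
    Z le_rfl (fun n => o n + Z * L n) (Eventually.of_forall fun n => le_rfl)
  obtain ⟨T, hT, hw⟩ := Submodule.mem_span_finite_of_mem_span hQw
  have h1 : ∀ t : T, ∃ g ∈ Gen U p q x o L F, ∃ r : ℝ, t.1 = g * E U p q (r, r) :=
    fun t => hT t.2
  choose g hg r hr using h1
  obtain ⟨k0, κ, hκ, hk0⟩ := om_lower hq hqp hA hrec hx
  have hbig : ∀ᶠ n in (U : Filter ℕ), k0 ≤ o n + Z * L n := by
    filter_upwards [hU (eventually_ge_atTop ((Z + 1) * (k0 + 1)))] with n h
    have h2 : (Z + 1) * (k0 + 1) < (Z + 1) * (L n + 1) := lt_of_le_of_lt h (hLn' n)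
    have h3 := Nat.lt_of_mul_lt_mul_left h2
    have h4 : L n ≤ Z * L n := Nat.le_mul_of_pos_left _ hZ
    omega
  have key : ∀ M : ℕ, 1 ≤ M →
      ((Z : ℝ) / (Z + 1) - 1 / ((Z + 1) * M) * Real.log p / (Real.log p - Real.log q)) *
        Real.log q ≤ ((F.card + 1) * M + T.card) * (1 / ((Z + 1) * M) * Real.log p) := by
    intro M hM
    have hM' : (1 : ℝ) ≤ M := by exact_mod_cast hM
    have hZ' : (0 : ℝ) ≤ Z := Nat.cast_nonneg Z
    let m : ℕ → ℕ := fun n => L n / M + 1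
    have hlam : 1 / (((Z : ℝ) + 1) * M) ≤ 1 := by
      rw [div_le_one (by positivity)]
      linarith only [hM', mul_nonneg_of_nonpos_of_nonpos (Mathlib.Tactic.Linarith.sub_nonpos_of_le (Mathlib.Tactic.Linarith.natCast_nonneg ℝ Z)) (Mathlib.Tactic.Linarith.sub_nonpos_of_le (Mathlib.Tactic.Linarith.natCast_nonneg ℝ M))]
    have hm : ∀ᶠ n : ℕ in (U : Filter ℕ), (m n : ℝ) ≤ 1 / (((Z : ℝ) + 1) * M) * n + 1 := by
      refine Eventually.of_forall fun n => ?_
      have b1 : (Z + 1) * M * (L n / M) ≤ n := by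
        rw [mul_assoc]
        exact (Nat.mul_le_mul_left _ (Nat.mul_div_le _ _)).trans (hLn n)
      have b2 : ((Z : ℝ) + 1) * M * ((L n / M : ℕ) : ℝ) ≤ n := by exact_mod_cast b1
      simp only [m]
      push_cast
      rw [one_div_mul_eq_div, add_le_add_iff_right, le_div_iff₀ (by positivity)]
      linarith only [b2]
    have hML : ∀ n, L n < M * m n ∧ M * m n ≤ L n + M := fun n =>
      ⟨Nat.lt_mul_div_succ _ hM, by
        simp only [m]
        rw [mul_add, mul_one]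
        exact Nat.add_le_add_right (Nat.mul_div_le _ _) _⟩
    have hc : ∀ s ∈ Finset.insertNone F,
        ∀ᶠ n in (U : Filter ℕ), cst o L s n + M * m n ≤ 3 * n := by
      intro s hs
      filter_upwards [ho, hU (eventually_ge_atTop M)] with n b1 b2
      have b3 := (hML n).2
      have b4 := hLn n
      have b5 : M ≤ n := b2
      have b6 : o n < L n := b1
      rw [Nat.succ_mul] at b4
      cases s with
      | none =>
        simp only [cst]
        omega
      | some j =>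
        have b7 := Finset.mem_range.1 (hFZ (Finset.some_mem_insertNone.1 hs))
        have b8 : j * L n ≤ Z * L n := Nat.mul_le_mul_right _ b7.le
        simp only [cst]
        omega
    have h2 := fun t : T => pd_dec hU hq0 hqp hrec hA o L F M m hlam hm
      (Eventually.of_forall fun n => ⟨Nat.le_add_left _ _, (hML n).1.le⟩) hc (hg t)
    choose y' hy1 hy2 hy3 using h2
    let y : (Finset.insertNone F × Fin M) ⊕ T → FF U := Sum.elim
      (fun s => gm U fun n => (atomZ p q a (m n) (cst o L s.1.1 n + s.2.1 * m n) (m n) : ℚ)) y'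
    have h3 := thmD hU hq hqp hpq y ?_ (1 / (((Z : ℝ) + 1) * M) * Real.log p) (by positivity) ?_
      ((gm U fun n => (p : ℚ) ^ m n) * (Q * gm U fun n => om p q x (o n + Z * L n))) ?_ ?_ ?_
      ((Z : ℝ) / (Z + 1)) ?_
    · rw [Fintype.card_sum, Fintype.card_prod, Fintype.card_coe, Fintype.card_coe,
        Fintype.card_fin, Finset.card_insertNone] at h3
      push_cast at h3
      exact h3
    · rintro (s | t)
      · exact ⟨_, rfl⟩
      · exact hy1 t
    · rintro (s | t)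
      · refine pd_atom_vLe hU hp m hlam hm _ hA0 (Eventually.of_forall fun n => ?_)
        refine (atomZ_le hqp.le hA hp _ _ _ le_rfl).trans ?_
        exact mul_le_mul_of_nonneg_right (mul_le_mul_of_nonneg_right (by linarith only []) hA0)
          (by positivity)
      · exact hy2 t
    · refine Submodule.span_induction (p := fun w _ => (gm U fun n => (p : ℚ) ^ m n) * w ∈
        Msp hU p q (Set.range y)) ?_ ?_ ?_ ?_ hw
      · intro t ht
        have e : (gm U fun n => (p : ℚ) ^ m n) * t =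
            E U p q (r ⟨t, ht⟩, r ⟨t, ht⟩) * ((gm U fun n => (p : ℚ) ^ m n) * g ⟨t, ht⟩) := by
          have := hr ⟨t, ht⟩
          simp only at this
          conv_lhs => rw [this]
          ring
        rw [e]
        refine Msp_mul_E hU hp hq0 (hy3 ⟨t, ht⟩ (Set.range y) ⟨Sum.inr ⟨t, ht⟩, rfl⟩
          fun s hs u hu => ?_) _
        exact ⟨Sum.inl (⟨s, hs⟩, ⟨u, hu⟩), rfl⟩
      · simp
      · intro w z _ _ b1 b2
        rw [mul_add]
        exact Submodule.add_mem _ b1 b2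
      · intro c w _ b1
        rw [mul_smul_comm]
        exact Submodule.smul_mem _ _ b1
    · refine mul_ne_zero (gm_ne (Eventually.of_forall fun n => by positivity))
        (mul_ne_zero hQ.1 (gm_ne ?_))
      filter_upwards [hbig] with n b1 b2
      have b3 := hk0 _ b1
      rw [b2] at b3
      simp only [Rat.cast_zero, abs_zero] at b3
      linarith only [hκ, b3]
    · rw [mul_inv, mul_inv, gm_inv, gm_inv]
      have b1 : VLe arch 0 (gm U fun n => ((p : ℚ) ^ m n)⁻¹) := by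
        refine gm_vLe0 hU _ _ 1 (Eventually.of_forall fun n => ?_)
        rw [arch_apply]
        push_cast
        rw [abs_of_nonneg (by positivity)]
        exact inv_le_one_of_one_le₀ (one_le_pow₀ (by exact_mod_cast hp))
      have b2 : VLe arch 0 (gm U fun n => (om p q x (o n + Z * L n))⁻¹) := by
        refine gm_vLe0 hU _ _ κ⁻¹ ?_
        filter_upwards [hbig] with n b3
        rw [arch_apply, Rat.cast_inv, abs_inv]
        exact inv_anti₀ hκ (hk0 _ b3)
      simpa using b1.mul (hQ.2.1.mul b2)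
    · intro ℓ hℓ
      have b1 : VLe (pad ℓ) 0 (gm U fun n => (p : ℚ) ^ m n) :=
        IsInt.vLe_pad ⟨fun n => (p : ℤ) ^ m n, gm_congr (Eventually.of_forall fun n => by
          push_cast; rfl)⟩ ℓ
      have b2 : VLe (pad ℓ) (esz p q ℓ ((Z : ℝ) / (Z + 1), (Z : ℝ) / (Z + 1)))
          (gm U fun n => om p q x (o n + Z * L n)) := by
        refine gm_vLe hU _ _ (Real.exp (Z * (q.factorization ℓ.1 * Real.log ℓ.1))) _ ?_
        filter_upwards [hU (eventually_ge_atTop 1)] with n b3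
        have b4 : (1 : ℝ) ≤ n := by exact_mod_cast b3
        have b5 : (n : ℝ) ≤ (Z + 1) * (L n + 1) := by exact_mod_cast (hLn' n).le
        have b6 : (Z : ℝ) / (Z + 1) * n - Z ≤ ((o n + Z * L n : ℕ) : ℝ) := by
          have b7 : (Z : ℝ) / (Z + 1) * n ≤ Z * (L n + 1) := by
            rw [div_mul_eq_mul_div, div_le_iff₀ (by positivity)]
            linarith only [b5, mul_nonneg_of_nonpos_of_nonpos (Mathlib.Tactic.Linarith.sub_nonpos_of_le (Mathlib.Tactic.Linarith.natCast_nonneg ℝ Z)) (Mathlib.Tactic.Linarith.sub_nonpos_of_le b5)]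
          push_cast
          linarith only [b7, Nat.cast_nonneg (α := ℝ) (o n)]
        have b8 := mul_le_mul_of_nonneg_right b6 (pd_fac_nonneg (q := q) ℓ)
        unfold om
        rw [map_mul, pad_beta hp hq0 hpq ℓ hℓ, pd_esz hpq ℓ hℓ]
        refine (mul_le_of_le_one_right (Real.exp_pos _).le (pad_int_le_one ℓ _)).trans ?_
        rw [mul_right_comm, ← Real.exp_add]
        refine le_trans (Real.exp_le_exp.2 (by linarith only [b8])) (le_mul_of_one_le_right
          (Real.exp_pos _).le b4)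
      simpa using b1.mul ((hQ.2.2.1 ℓ hℓ).mul b2)
  by_contra hcon
  push Not at hcon
  obtain ⟨M, hM⟩ := exists_nat_gt (max 1 ((T.card + Real.log q / (Real.log p - Real.log q)) *
    Real.log p / (Z * Real.log q - (F.card + 1) * Real.log p)))
  have hM1 : (1 : ℝ) < M := (le_max_left _ _).trans_lt hM
  have hM2 := (le_max_right _ _).trans_lt hM
  rw [div_lt_iff₀ (by linarith only [hcon])] at hM2
  have h4 := key M (by exact_mod_cast hM1.le)
  have hZ' : (0 : ℝ) < Z + 1 := by positivity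
  have h5 := mul_le_mul_of_nonneg_left h4 (by positivity : (0 : ℝ) ≤ (Z + 1) * M)
  have e1 : ((Z : ℝ) + 1) * M * (((Z : ℝ) / (Z + 1) -
      1 / ((Z + 1) * M) * Real.log p / (Real.log p - Real.log q)) * Real.log q) =
      M * (Z * Real.log q) - Real.log q / (Real.log p - Real.log q) * Real.log p := by
    field_simp
  have e2 : ((Z : ℝ) + 1) * M * (((F.card + 1) * M + T.card) * (1 / ((Z + 1) * M) * Real.log p)) =
      M * ((F.card + 1) * Real.log p) + T.card * Real.log p := by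
    field_simp
  rw [e1, e2] at h5
  linarith only [hM2, h5]

theorem pd_main (hq : 2 ≤ q) (hqp : q < p) (hpq : p.Coprime q) (x a : ℕ → ℤ)
    (ha : (Set.range a).Finite) (hrec : ∀ k, (q : ℤ) * x (k + 1) = (p : ℤ) * x k + a k)
    (hx : (Set.range x).Infinite) (δ c : ℝ) (hδ : 0 < δ) (hc : c < Real.log q / Real.log p) :
    ∀ᶠ N : ℕ in atTop, c * N ≤ pcx a N ⌊δ * N⌋₊ := by
  classical
  have hlp : 0 < Real.log p := Real.log_pos (by exact_mod_cast (by omega : 1 < p))
  obtain ⟨A, hA⟩ : ∃ A : ℝ, ∀ k, |(a k : ℝ)| ≤ A := by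
    obtain ⟨A, hA⟩ := (ha.image fun z : ℤ => |(z : ℝ)|).bddAbove
    exact ⟨A, fun k => hA ⟨a k, ⟨k, rfl⟩, rfl⟩⟩
  rw [lt_div_iff₀ hlp] at hc
  obtain ⟨Z, hZ⟩ := exists_nat_gt (max (max 1 (1 / δ))
    ((c + 1) * Real.log p / (Real.log q - c * Real.log p)))
  have hZ1 : (1 : ℝ) < Z := ((le_max_left _ _).trans (le_max_left _ _)).trans_lt hZ
  have hZ2 : 1 / δ < Z := ((le_max_right _ _).trans (le_max_left _ _)).trans_lt hZ
  have hZ3 := (le_max_right _ _).trans_lt hZ
  rw [div_lt_iff₀ (by linarith only [hc])] at hZ3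
  rw [div_lt_iff₀ hδ] at hZ2
  by_contra hcon
  have hS : ∃ᶠ N : ℕ in atTop, ¬ c * N ≤ pcx a N ⌊δ * N⌋₊ := not_eventually.1 hcon
  have hne : NeBot (atTop ⊓ 𝓟 {N : ℕ | ¬ c * N ≤ pcx a N ⌊δ * N⌋₊}) := frequently_iff_neBot.mp hS
  obtain ⟨U, hUle⟩ : ∃ U : Ultrafilter ℕ,
      (U : Filter ℕ) ≤ atTop ⊓ 𝓟 {N : ℕ | ¬ c * N ≤ pcx a N ⌊δ * N⌋₊} :=
    ⟨Ultrafilter.of _, Ultrafilter.of_le _⟩
  have hU : (U : Filter ℕ) ≤ atTop := hUle.trans inf_le_left
  have hUS : ∀ᶠ N in (U : Filter ℕ), ¬ c * N ≤ pcx a N ⌊δ * N⌋₊ :=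
    le_principal_iff.mp (hUle.trans inf_le_right)
  have h1 : ∀ᶠ n in (U : Filter ℕ), ∃ F ∈ (↑(Finset.range Z).powerset : Set (Finset ℕ)),
      ∃ o, o < n / (Z + 1) ∧ F.card * (n / (Z + 1)) ≤ pcx a n (n / (Z + 1)) ∧
        ∀ j < Z, j ∉ F → ∃ d, 1 ≤ d ∧ d ≤ o + j * (n / (Z + 1)) ∧ ∀ l < n / (Z + 1),
          a (o + j * (n / (Z + 1)) + l) = a (o + j * (n / (Z + 1)) - d + l) := by
    filter_upwards [hU (eventually_ge_atTop (Z + 1))] with n hn
    obtain ⟨o, b1, F, b2, b3, b4⟩ := pd_grid a n (n / (Z + 1)) Z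
      (Nat.div_pos hn (by omega)) (Nat.mul_div_le n (Z + 1))
    exact ⟨F, Finset.mem_coe.2 (Finset.mem_powerset.2 b2), o, b1, b3, b4⟩
  obtain ⟨F, hF, h2⟩ := (Ultrafilter.eventually_exists_mem_iff (Finset.finite_toSet _)).1 h1
  obtain ⟨o, ho⟩ := h2.choice
  have h3 := pd_free hU hq hqp hpq hrec hA hx o Z (by exact_mod_cast hZ1.le) F
    (Finset.mem_powerset.1 (Finset.mem_coe.1 hF)) (ho.mono fun n h => h.1)
    fun j hj hjF => ho.mono fun n h => h.2.2 j hj hjF
  have h4 : (F.card : ℝ) ≤ c * (Z + 1) := by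
    by_contra h5
    push Not at h5
    obtain ⟨n, ⟨b1, b2⟩, b3⟩ := ((ho.and hUS).and (emon_ev hU (F.card * (Z + 1))
      (sub_pos.2 h5))).exists
    have b4 : n / (Z + 1) ≤ ⌊δ * n⌋₊ := by
      refine Nat.le_floor ?_
      have b5 : ((Z : ℝ) + 1) * ((n / (Z + 1) : ℕ) : ℝ) ≤ n := by
        exact_mod_cast Nat.mul_div_le n (Z + 1)
      have b6 := Nat.cast_nonneg (α := ℝ) (n / (Z + 1))
      (refine le_of_not_gt fun h_nl => ?_; linarith only [h_nl, b5, hδ, hZ2, mul_nonneg_of_nonpos_of_nonpos (Mathlib.Tactic.Linarith.sub_nonpos_of_le (Mathlib.Tactic.Linarith.natCast_nonneg ℝ Z)) (le_of_lt (Mathlib.Tactic.Linarith.sub_neg_of_lt h_nl)), mul_nonneg_of_nonpos_of_nonpos (Mathlib.Tactic.Linarith.sub_nonpos_of_le (Mathlib.Tactic.Linarith.natCast_nonneg ℝ n)) (le_of_lt (Mathlib.Tactic.Linarith.sub_neg_of_lt hδ)), mul_nonneg_of_nonpos_of_nonpos (Mathlib.Tactic.Linarith.sub_nonpos_of_le (Mathlib.Tactic.Linarith.natCast_nonneg ℝ n)) (le_of_lt (Mathlib.Tactic.Linarith.sub_neg_of_lt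 hZ2))])
    have b7 : (F.card : ℝ) * ((n / (Z + 1) : ℕ) : ℝ) ≤ pcx a n ⌊δ * n⌋₊ := by
      exact_mod_cast b1.2.1.trans (pcx_mono a n b4)
    have b8 : (n : ℝ) ≤ (Z + 1) * (((n / (Z + 1) : ℕ) : ℝ) + 1) := by
      exact_mod_cast (Nat.lt_mul_div_succ n (by omega : 0 < Z + 1)).le
    have b9 := Nat.cast_nonneg (α := ℝ) F.card
    push Not at b2
    have b10 := mul_le_mul_of_nonneg_left b8 b9
    have b11 := mul_lt_mul_of_pos_left (b7.trans_lt b2) (by linarith only [hZ1] : (0 : ℝ) < Z + 1)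
    linarith only [b3, b10, b11]
  have h5 := mul_le_mul_of_nonneg_right h4 hlp.le
  linarith only [hZ3, h3, h5]

end Pool.Agent.Work.MP_baf0bc_nt
end
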