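import Pool.Agent.Work.MP_baf0bc_nt.Final

set_option autoImplicit false

open Filter

namespace Pool.Agent.Results.MP_baf0bc_nt.Superlinear

open Pool.Agent.Work.MP_baf0bc_nt

/-- Digit words of unbounded integer orbits in a rational base `p / q` have superlinear factor
complexity. -/
theorem result (p q : ℕ) (hq : 2 ≤ q) (hpq : q < p) (hc : Nat.Coprime p q) (x a : ℕ → ℤ)
    (ha : (Set.range a).Finite) (hrec : ∀ k, (q : ℤ) * x (k + 1) = (p : ℤ) * x k + a k)
    (hx : (Set.range x).Infinite) :
    Tendsto (fun n : ℕ => (cpx a n : ℝ) / n) atTop atTop :=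
  rational_base p q hq hpq hc x a ha hrec hx

/-- The map `U` of the problem file. -/
def satU (n : ℤ) : ℤ := if n % 2 = 0 then (3 * n + 2) / 2 else (3 * n + 1) / 2

/-- Sanity check: the saturated word (letter `2` if `U^[k] 0` is even, `1` if it is odd) is the
instance `p = 3`, `q = 2`, `x k = U^[k] 0`. -/
theorem sat_word : Tendsto (fun n : ℕ =>
    (cpx (fun k : ℕ => if satU^[k] 0 % 2 = 0 then (2 : ℤ) else 1) n : ℝ) / n) atTop atTop := by
  have hpos : ∀ k : ℕ, 0 ≤ satU^[k] 0 ∧ satU^[k] 0 < satU^[k + 1] 0 := by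
    intro k
    induction k with
    | zero => simp [satU]
    | succ k ih =>
      refine ⟨by linarith [ih.1, ih.2], ?_⟩
      have h0 : 0 ≤ satU^[k + 1] 0 := by linarith [ih.1, ih.2]
      rw [Function.iterate_succ_apply' satU (k + 1)]
      generalize satU^[k + 1] 0 = y at h0 ⊢
      unfold satU
      split_ifs <;> omega
  refine result 3 2 le_rfl (by norm_num) (by norm_num) (fun k => satU^[k] 0) _ ?_ ?_ ?_
  · refine (Set.toFinite ({1, 2} : Set ℤ)).subset ?_
    rintro _ ⟨k, rfl⟩
    dsimp only
    split_ifs <;> simp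
  · intro k
    rw [Function.iterate_succ_apply']
    generalize satU^[k] 0 = y
    unfold satU
    split_ifs <;> push_cast <;> omega
  · exact Set.infinite_range_of_injective
      (strictMono_nat_of_lt_succ fun k => (hpos k).2).injective

end Pool.Agent.Results.MP_baf0bc_nt.Superlinear
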